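import Pool.Agent.Lib.MP_1df8f0_an.Edit

/-!
Derivative bounds for analytic maps, and a countable family of approximating word functions.
-/

open MeasureTheory Filter Topology
open scoped ENNReal NNReal symmDiff ContDiff unitInterval

noncomputable section

namespace Pool.Agent.Lib.MP_1df8f0_an

lemma approx_deriv_le {E : Type} [NormedAddCommGroup E] [NormedSpace ℝ E] [CompleteSpace E]
    {F : E → E} {p : FormalMultilinearSeries ℝ E E} {x : E} {R : ℝ≥0∞}
    (h : HasFPowerSeriesOnBall F p x R) (r : ℕ) :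
    ‖iteratedFDeriv ℝ r F x‖ ≤ ‖p r‖ * (r.factorial : ℝ) := by
  refine ContinuousMultilinearMap.opNorm_le_bound (by positivity) fun v => ?_
  rw [h.iteratedFDeriv_eq_sum_of_completeSpace]
  refine (norm_sum_le _ _).trans ?_
  have e : ∀ τ ∈ (Finset.univ : Finset (Equiv.Perm (Fin r))),
      ‖p r fun i => v (τ i)‖ ≤ ‖p r‖ * ∏ i, ‖v i‖ := fun τ _ => by
    rw [← Equiv.prod_comp τ fun i => ‖v i‖]
    exact (p r).le_opNorm _
  refine (Finset.sum_le_card_nsmul _ _ _ e).trans_eq ?_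
  rw [Finset.card_univ, Fintype.card_perm, Fintype.card_fin, nsmul_eq_mul]
  ring

lemma approx_local {E : Type} [NormedAddCommGroup E] [NormedSpace ℝ E] [CompleteSpace E]
    {F : E → E} {x : E} (h : AnalyticAt ℝ F x) :
    ∃ t ∈ 𝓝 x, ∃ j : ℕ, ∀ r : ℕ, ∀ z ∈ t,
      ‖iteratedFDeriv ℝ r F z‖ ≤ (j : ℝ) ^ (r + 1) * (r.factorial : ℝ) := by
  obtain ⟨p, R, hp⟩ := h
  obtain ⟨t, ht0, htR⟩ := ENNReal.lt_iff_exists_nnreal_btwn.1 hp.r_pos
  have ht : 0 < t := by exact_mod_cast ht0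
  set ρ : ℝ≥0 := t / 2 with hρ
  have hρ0 : 0 < ρ := by positivity
  have hρR : ((ρ : ℝ≥0∞) + ρ) < R := by
    rw [← ENNReal.coe_add, hρ, add_halves]
    exact htR
  have hs := p.changeOriginSeries_summable_aux₁ (hρR.trans_le hp.r_le)
  set S := ∑' s : Σ k l : ℕ, { s : Finset (Fin (k + l)) // s.card = l },
    ‖p (s.1 + s.2.1)‖₊ * ρ ^ s.2.1 * ρ ^ s.1 with hS
  obtain ⟨j, hj⟩ := exists_nat_ge (max S ρ⁻¹)
  refine ⟨Metric.closedBall x ρ, Metric.closedBall_mem_nhds x hρ0, j, fun r z hz => ?_⟩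
  have hy : ‖z - x‖₊ ≤ ρ := by
    rw [Metric.mem_closedBall, dist_eq_norm] at hz
    exact hz
  have hyR : (‖z - x‖₊ : ℝ≥0∞) < R :=
    ((ENNReal.coe_le_coe.2 hy).trans le_self_add).trans_lt hρR
  have h1 := approx_deriv_le (hp.changeOrigin hyR) r
  rw [add_sub_cancel] at h1
  refine h1.trans (mul_le_mul_of_nonneg_right ?_ (Nat.cast_nonneg _))
  have h2 : ‖p.changeOrigin (z - x) r‖₊ * ρ ^ r ≤ S := by
    refine (mul_le_mul_left (p.nnnorm_changeOrigin_le r (hyR.trans_le hp.r_le)) _).trans ?_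
    rw [← NNReal.tsum_mul_right]
    refine le_trans ?_ (NNReal.tsum_comp_le_tsum_of_inj hs (sigma_mk_injective (i := r)))
    refine Summable.tsum_le_tsum (fun s => ?_)
      ((p.changeOriginSeries_summable_aux₂ (hyR.trans_le hp.r_le) r).mul_right _)
      ((NNReal.summable_sigma.1 hs).1 r)
    dsimp only
    gcongr
  have h3 : ‖p.changeOrigin (z - x) r‖₊ ≤ (j : ℝ≥0) ^ (r + 1) := by
    calc ‖p.changeOrigin (z - x) r‖₊ = ‖p.changeOrigin (z - x) r‖₊ * ρ ^ r * ρ⁻¹ ^ r := by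
          rw [mul_assoc, ← mul_pow, mul_inv_cancel₀ hρ0.ne', one_pow, mul_one]
      _ ≤ j * j ^ r := mul_le_mul' (h2.trans ((le_max_left _ _).trans hj))
          (pow_le_pow_left' ((le_max_right _ _).trans hj) r)
      _ = _ := (pow_succ' _ _).symm
  exact_mod_cast h3

theorem analytic_bound {n : ℕ} (F : (Fin n → ℝ) → (Fin n → ℝ))
    (hF : AnalyticOnNhd ℝ F Set.univ) :
    ∃ j : ℕ, ∀ r : ℕ, ∀ x ∈ Metric.closedBall (0 : Fin n → ℝ) 3,
      ‖iteratedFDeriv ℝ r F x‖ ≤ (j : ℝ) ^ (r + 1) * (r.factorial : ℝ) := by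
  refine (isCompact_closedBall (0 : Fin n → ℝ) 3).induction_on
    (p := fun s => ∃ j : ℕ, ∀ r : ℕ, ∀ x ∈ s,
      ‖iteratedFDeriv ℝ r F x‖ ≤ (j : ℝ) ^ (r + 1) * (r.factorial : ℝ))
    ⟨0, fun _ _ hx => absurd hx (Set.notMem_empty _)⟩ ?_ ?_ ?_
  · rintro s t hst ⟨j, hj⟩
    exact ⟨j, fun r x hx => hj r x (hst hx)⟩
  · rintro s t ⟨j, hj⟩ ⟨k, hk⟩
    refine ⟨max j k, fun r x hx => ?_⟩
    rcases hx with hx | hx
    · refine (hj r x hx).trans ?_
      gcongr
      exact le_max_left _ _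
    · refine (hk r x hx).trans ?_
      gcongr
      exact le_max_right _ _
  · intro x _
    obtain ⟨t, ht, h⟩ := approx_local (hF x (Set.mem_univ x))
    exact ⟨t, mem_nhdsWithin_of_mem_nhds ht, h⟩

section
variable {Y α : Type} [PseudoMetricSpace Y]

/-- the label of the first listed ball that contains the point -/
def approx_W (a : ℕ → Y) (ρ : ℝ) : List (ℕ × List α) → Y → List α
  | [] => fun _ => []
  | c :: L => fun y => if dist y (a c.1) < ρ then c.2 else approx_W a ρ L y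

lemma approx_W_meas [MeasurableSpace Y] [OpensMeasurableSpace Y] (a : ℕ → Y) (ρ : ℝ)
    (L : List (ℕ × List α)) : Measurable (approx_W a ρ L) := by
  induction L with
  | nil => exact measurable_const
  | cons c L ih => exact Measurable.ite Metric.isOpen_ball.measurableSet measurable_const ih

lemma approx_W_len (a : ℕ → Y) (ρ : ℝ) {ℓ : ℕ} (L : List (ℕ × List α))
    (h : ∀ c ∈ L, c.2.length ≤ ℓ) (y : Y) : (approx_W a ρ L y).length ≤ ℓ := by
  induction L with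
  | nil => exact Nat.zero_le _
  | cons c L ih =>
    simp only [approx_W]
    split_ifs
    · exact h c List.mem_cons_self
    · exact ih fun c' hc' => h c' (List.mem_cons_of_mem _ hc')

lemma approx_W_eq (a : ℕ → Y) (ρ : ℝ) (L : List (ℕ × List α)) (y : Y)
    (h : ∃ c ∈ L, dist y (a c.1) < ρ) :
    ∃ c ∈ L, dist y (a c.1) < ρ ∧ approx_W a ρ L y = c.2 := by
  induction L with
  | nil => simp at h
  | cons c L ih =>
    by_cases hc : dist y (a c.1) < ρ
    · exact ⟨c, List.mem_cons_self, hc, if_pos hc⟩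
    · obtain ⟨c', h1, h2⟩ := h
      rcases List.mem_cons.1 h1 with rfl | h1
      · exact absurd h2 hc
      · obtain ⟨c'', h3, h4, h5⟩ := ih ⟨c', h1, h2⟩
        exact ⟨c'', List.mem_cons_of_mem _ h3, h4, (if_neg hc).trans h5⟩

lemma approx_sep {β : Type} (U : Finset β) (K : β → Set Y) (hK : ∀ u, IsCompact (K u))
    (hc : ∀ u, IsClosed (K u)) (hd : ∀ u u', u ≠ u' → Disjoint (K u) (K u')) :
    ∃ n : ℕ, ∀ u ∈ U, ∀ u' ∈ U, ∀ y ∈ K u, ∀ z ∈ K u', dist y z < 2 * (1 / ((n : ℝ) + 1)) →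
      u = u' := by
  refine Eventually.exists (f := atTop) ((eventually_all_finset U).2 fun u _ =>
    (eventually_all_finset U).2 fun u' _ => ?_)
  by_cases h : u = u'
  · exact Eventually.of_forall fun _ _ _ _ _ _ => h
  obtain ⟨δ, hδ, hD⟩ := (hd u u' h).exists_thickenings (hK u) (hc u')
  filter_upwards [(tendsto_one_div_add_atTop_nhds_zero_nat (𝕜 := ℝ)).eventually
    (gt_mem_nhds (half_pos hδ))] with n hn y hy z hz hyz
  refine absurd (Metric.mem_thickening_iff.2 ⟨z, hz, by linarith⟩)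
    (Set.disjoint_left.1 hD (Metric.self_subset_thickening hδ _ hy))

end

lemma approx_tail {Y α : Type} [MeasurableSpace Y] (ν : Measure Y) [IsFiniteMeasure ν]
    {w : Y → List α} (hw : Measurable w) (hi : ∫⁻ y, ((w y).length : ℝ≥0∞) ∂ν ≠ ⊤) {ε : ℝ≥0∞}
    (hε : 0 < ε) : ∃ ℓ : ℕ, ∫⁻ y in {y | ℓ < (w y).length}, ((w y).length : ℝ≥0∞) ∂ν ≤ ε := by
  have hm : ∀ ℓ : ℕ, MeasurableSet {y | ℓ < (w y).length} := fun ℓ =>
    hw (MeasurableSet.of_discrete (s := {u : List α | ℓ < u.length}))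
  have h1 := tendsto_measure_iInter_atTop (μ := ν) (s := fun ℓ : ℕ => {y | ℓ < (w y).length})
    (fun ℓ => (hm ℓ).nullMeasurableSet) (fun a b hab y hy => lt_of_le_of_lt hab hy)
    ⟨0, measure_ne_top _ _⟩
  have e : (⋂ ℓ : ℕ, {y | ℓ < (w y).length}) = ∅ :=
    Set.eq_empty_of_forall_notMem fun y hy => lt_irrefl (w y).length (Set.mem_iInter.1 hy (w y).length)
  rw [e, measure_empty] at h1
  exact ((tendsto_setLIntegral_zero hi h1).eventually (ge_mem_nhds hε)).exists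

theorem approx_family (Y : Type) [MetricSpace Y] [CompactSpace Y] [Nonempty Y]
    [MeasurableSpace Y] [BorelSpace Y] (ν : Measure Y) [IsFiniteMeasure ν]
    (α : Type) [Fintype α] :
    ∃ 𝒲 : ℕ → Y → List α, (∀ d, Measurable (𝒲 d)) ∧
      ∀ w : Y → List α, Measurable w → ∫⁻ y, ((w y).length : ℝ≥0∞) ∂ν ≠ ⊤ →
        ∀ ε : ℝ≥0∞, 0 < ε → ∃ (d ℓ : ℕ) (η : ℝ), 0 < η ∧ (∀ y, (𝒲 d y).length ≤ ℓ) ∧
          ∃ err : Y → ℝ≥0∞, Measurable err ∧ ∫⁻ y, err y ∂ν ≤ ε ∧
            ∀ y y', dist y y' ≤ η → ((ed (w y) (𝒲 d y') : ℕ) : ℝ≥0∞) ≤ err y := by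
  classical
  obtain ⟨en, hen⟩ := exists_surjective_nat (List (ℕ × List α) × ℕ)
  set a := TopologicalSpace.denseSeq Y with ha
  refine ⟨fun d => approx_W a (1 / (((en d).2 : ℝ) + 1)) (en d).1, fun d => approx_W_meas _ _ _,
    fun w hw hi ε hε => ?_⟩
  have hε2 : 0 < ε / 2 := ENNReal.half_pos hε.ne'
  obtain ⟨ℓ, hℓ⟩ := approx_tail ν hw hi (ENNReal.half_pos hε2.ne')
  set U := (List.finite_length_le α ℓ).toFinset with hU
  have hU' : ∀ u, u ∈ U ↔ u.length ≤ ℓ := fun u => Set.Finite.mem_toFinset _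
  obtain ⟨δ, hδ0, hδ⟩ := ENNReal.exists_nnreal_pos_mul_lt (a := (2 * ℓ * U.card : ℕ))
    (ENNReal.natCast_ne_top _) hε2.ne'
  have hA : ∀ u, MeasurableSet (w ⁻¹' {u}) := fun u => hw MeasurableSet.of_discrete
  choose K hKs hKc hKm using fun u => (hA u).exists_isCompact_sdiff_lt (μ := ν) (measure_ne_top _ _)
    (ε := δ) (by exact_mod_cast hδ0.ne')
  obtain ⟨n, hn⟩ := approx_sep U K hKc (fun u => (hKc u).isClosed) fun u u' h =>
    Set.disjoint_left.2 fun y h1 h2 => h ((hKs u h1).symm.trans (hKs u' h2))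
  set ρ : ℝ := 1 / ((n : ℝ) + 1) with hρ
  have hρ0 : 0 < ρ := by positivity
  obtain ⟨t, ht⟩ := isCompact_univ.elim_finite_subcover (fun i => Metric.ball (a i) (ρ / 2))
    (fun _ => Metric.isOpen_ball) fun y _ => Set.mem_iUnion.2
      ((TopologicalSpace.denseRange_denseSeq Y).exists_dist_lt y (half_pos hρ0))
  set L := ((t ×ˢ U).filter fun c => ∃ z ∈ K c.2, dist z (a c.1) < ρ / 2).toList with hL
  have hL' : ∀ c, c ∈ L ↔ (c.1 ∈ t ∧ c.2 ∈ U) ∧ ∃ z ∈ K c.2, dist z (a c.1) < ρ / 2 := fun c => by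
    rw [hL, Finset.mem_toList, Finset.mem_filter, Finset.mem_product]
  obtain ⟨d, hd⟩ := hen (L, n)
  have hlen : ∀ y, (approx_W a ρ L y).length ≤ ℓ :=
    approx_W_len a ρ L fun c hc => (hU' _).1 ((hL' c).1 hc).1.2
  set B := ⋃ u ∈ U, (w ⁻¹' {u} \ K u) with hB
  have hBm : MeasurableSet B :=
    U.measurableSet_biUnion fun u _ => (hA u).diff (hKc u).measurableSet
  have hT : MeasurableSet {y | ℓ < (w y).length} :=
    hw (MeasurableSet.of_discrete (s := {u : List α | ℓ < u.length}))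
  have hwm : Measurable fun y => ((w y).length : ℝ≥0∞) :=
    (Measurable.of_discrete (f := fun u : List α => (u.length : ℝ≥0∞))).comp hw
  have hm1 : Measurable ({y | ℓ < (w y).length}.indicator fun y => 2 * ((w y).length : ℝ≥0∞)) :=
    (hwm.const_mul 2).indicator hT
  refine ⟨d, ℓ, ρ / 2, half_pos hρ0, by simpa only [hd] using hlen,
    fun y => {y | ℓ < (w y).length}.indicator (fun y => 2 * ((w y).length : ℝ≥0∞)) y +
      B.indicator (fun _ => ((2 * ℓ : ℕ) : ℝ≥0∞)) y,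
    hm1.add (measurable_const.indicator hBm), ?_, fun y y' hy => ?_⟩
  · rw [lintegral_add_left hm1, lintegral_indicator hT, lintegral_const_mul _ hwm,
      lintegral_indicator_const hBm, ← ENNReal.add_halves ε]
    refine add_le_add ?_ ?_
    · rw [two_mul, ← ENNReal.add_halves (ε / 2)]
      exact add_le_add hℓ hℓ
    · refine le_trans ?_ hδ.le
      rw [Nat.cast_mul (2 * ℓ), mul_comm (δ : ℝ≥0∞), mul_assoc, ← nsmul_eq_mul U.card]
      exact mul_le_mul_right ((measure_biUnion_finset_le _ _).trans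
        (Finset.sum_le_card_nsmul _ _ _ fun u _ => (hKm u).le)) _
  · simp only [hd, ← hρ]
    have h1 := (ed_le_len (w y) (approx_W a ρ L y')).trans (Nat.add_le_add_left (hlen y') _)
    by_cases h2 : ℓ < (w y).length
    · refine le_trans ?_ le_self_add
      rw [Set.indicator_of_mem (show y ∈ {y | ℓ < (w y).length} from h2)]
      exact_mod_cast (by omega : ed (w y) (approx_W a ρ L y') ≤ 2 * (w y).length)
    have h3 : w y ∈ U := (hU' _).2 (not_lt.1 h2)
    by_cases h4 : y ∈ K (w y)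
    · obtain ⟨i, hi1, hi2⟩ := Set.mem_iUnion₂.1 (ht (Set.mem_univ y))
      have hi3 : dist y (a i) < ρ / 2 := hi2
      obtain ⟨c, hc1, hc2, hc3⟩ := approx_W_eq a ρ L y'
        ⟨(i, w y), (hL' _).2 ⟨⟨hi1, h3⟩, y, h4, hi3⟩, by
          have := dist_triangle_left y' (a i) y
          linarith⟩
      obtain ⟨⟨-, hc4⟩, z, hz1, hz2⟩ := (hL' c).1 hc1
      have h5 := hn _ h3 _ hc4 y h4 z hz1 (by
        have := dist_triangle y y' z
        have := dist_triangle_right y' z (a c.1)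
        linarith)
      rw [hc3, ← h5, ed_self, Nat.cast_zero]
      exact zero_le
    · refine le_trans ?_ le_add_self
      rw [Set.indicator_of_mem (show y ∈ B from Set.mem_iUnion₂.2 ⟨w y, h3, rfl, h4⟩)]
      exact_mod_cast (by omega : ed (w y) (approx_W a ρ L y') ≤ 2 * ℓ)

end Pool.Agent.Lib.MP_1df8f0_an
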