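import Pool.Agent.Lib.MP_1df8f0_an.Defs

/-!
Internal definitions: edit distance, tower parameters, tower systems, smooth classes.
-/

open MeasureTheory
open scoped ENNReal symmDiff ContDiff

noncomputable section

namespace Pool.Agent.Lib.MP_1df8f0_an

/-- Strings carry the discrete σ-algebra. -/
instance instMeasList (α : Type) : MeasurableSpace (List α) := ⊤

instance instDiscList (α : Type) : DiscreteMeasurableSpace (List α) := ⟨fun _ => trivial⟩

/-- `u` and `W` have a common subsequence missing at most `e` letters in total. -/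
def Cl {α : Type} (e : ℕ) (u W : List α) : Prop :=
  ∃ z : List α, z.Sublist u ∧ z.Sublist W ∧ u.length + W.length ≤ 2 * z.length + e

/-- Edit (insertion and deletion) distance. -/
def ed {α : Type} (u W : List α) : ℕ := sInf {e | Cl e u W}

/-- Parameters of the tower: numbers of words `s k`, round lengths `m k`, choice functions. -/
structure Params where
  s : ℕ → ℕ
  m : ℕ → ℕ
  σ : ℕ → ℕ → ℕ → ℕ

/-- Heights. -/
def Params.h (P : Params) : ℕ → ℕ
  | 0 => 1
  | k + 1 => P.s k * (P.m k * P.h k)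

/-- The level `k` cell (word index, position) containing a level `k+1` cell. -/
def down (s m h : ℕ) (σ : ℕ → ℕ → ℕ) (c : ℕ × ℕ) : ℕ × ℕ :=
  ((σ c.1 (c.2 / h % m) + c.2 / (m * h)) % s, c.2 % h)

/-- Projection from level `k+1` cells to level `k` cells. -/
def Params.pr (P : Params) (k : ℕ) : ℕ × ℕ → ℕ × ℕ := down (P.s k) (P.m k) (P.h k) (P.σ k)

/-- The level `0` index below a level `k` cell. -/
def Params.lt (P : Params) : ℕ → ℕ × ℕ → ℕ
  | 0 => fun c => c.1
  | k + 1 => fun c => P.lt k (P.pr k c)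

/-- The level `k` word with index `I`, spelled with the letters `e`. -/
def Params.word {α : Type} (P : Params) (e : ℕ → α) (k I : ℕ) : List α :=
  (List.range (P.h k)).map fun p => e (P.lt k (I, p))

/-- `T` is a tower system with cell maps `c k`. -/
structure IsTower (P : Params) {X : Type} [MeasurableSpace X] (μ : Measure X) (T : X → X)
    (c : ℕ → X → ℕ × ℕ) : Prop where
  mp : MeasurePreserving T μ μ
  meas : ∀ k, Measurable (c k)
  unif : ∀ k I p, I < P.s k → p < P.h k →
    μ (c k ⁻¹' {(I, p)}) = (((P.s k * P.h k : ℕ) : ℝ≥0∞))⁻¹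
  mem : ∀ k, ∀ᵐ x ∂μ, (c k x).1 < P.s k ∧ (c k x).2 < P.h k
  comp : ∀ k, ∀ᵐ x ∂μ, c k x = P.pr k (c (k + 1) x)
  succ : ∀ k, ∀ᵐ x ∂μ, (c k x).2 + 1 < P.h k → (c k (T x)).1 = (c k x).1
  pos : ∀ k, ∀ᵐ x ∂μ, (c k (T x)).2 = ((c k x).2 + 1) % P.h k
  gen : ∀ E, MeasurableSet E → ∀ ε : ℝ≥0∞, 0 < ε →
    ∃ k0, ∀ k, k0 ≤ k → ∃ F : Set (ℕ × ℕ), μ (E ∆ (c k ⁻¹' F)) < ε

/-- Self-maps of the torus with a smooth lift whose derivatives are bounded by `b` on a ball. -/
def SmoothClass (n : ℕ) (b : ℕ → ℝ) : Set (Torus n → Torus n) :=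
  {S | ∃ F : (Fin n → ℝ) → (Fin n → ℝ), ContDiff ℝ ∞ F ∧ IsLift S F ∧
    ∀ r, 1 ≤ r → ∀ x ∈ Metric.closedBall (0 : Fin n → ℝ) 3, ‖iteratedFDeriv ℝ r F x‖ ≤ b r}

/-- The string emitted along the first `M` points of an orbit. -/
def emit {Y α : Type} (w : Y → List α) (S : Y → Y) (M : ℕ) (y : Y) : List α :=
  ((List.range M).map fun i => w (S^[i] y)).flatten

/-- The strings of length at most `L` that have a factor at distance less than `E` from `u`. -/
def Near {α : Type} (u : List α) (L : ℕ) (E : ℝ) : Set (List α) :=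
  {W | W.length ≤ L ∧ ∃ V : List α, V <:+: W ∧ (ed u V : ℝ) < E}

/-- The law `D` on strings captures the level `k` words with constant `N`. -/
def Captures {α : Type} (P : Params) (e : ℕ → α) (k N : ℕ) (D : Measure (List α)) : Prop :=
  (P.s k : ℝ) / (2 * (N : ℝ) ^ 2) ≤ ∑ I ∈ Finset.range (P.s k),
    min 1 ((P.s k : ℝ) / N * D.real (Near (P.word e k I) (N * P.h k) ((P.h k : ℝ) / 4)))

end Pool.Agent.Lib.MP_1df8f0_an
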