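import Pool.Agent.Lib.MP_1df8f0_an.Edit

/-!
Counting lemmas: exponential moments, the generating function of the edit distance.
-/

open Finset

noncomputable section

namespace Pool.Agent.Lib.MP_1df8f0_an

lemma count_tail {β : Type} [Fintype β] [Nonempty β] (n : ℕ) (X : β → ℝ) (h0 : ∀ a, 0 ≤ X a)
    (h1 : ∀ a, X a ≤ 1) (t Λ : ℝ) (hΛ : n * ∑ a, X a ≤ Λ * Fintype.card β)
    [DecidablePred fun σ : Fin n → β => t ≤ ∑ i, X (σ i)] :
    ((univ.filter fun σ : Fin n → β => t ≤ ∑ i, X (σ i)).card : ℝ) ≤
      (Fintype.card β : ℝ) ^ n * Real.exp (2 * Λ - t) := by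
  classical
  have hc : (0 : ℝ) < Fintype.card β := by exact_mod_cast Fintype.card_pos
  have e1 : ∀ a, Real.exp (X a) ≤ 1 + 2 * X a := fun a => by
    have := Real.abs_exp_sub_one_le (x := X a) (by rw [abs_of_nonneg (h0 a)]; exact h1 a)
    rw [abs_of_nonneg (h0 a)] at this
    linarith [le_abs_self (Real.exp (X a) - 1)]
  have e2 : ∑ a, Real.exp (X a) ≤
      Fintype.card β * Real.exp (2 * (∑ a, X a) / Fintype.card β) := by
    calc ∑ a, Real.exp (X a) ≤ ∑ a, (1 + 2 * X a) := sum_le_sum fun a _ => e1 a
      _ = Fintype.card β * (2 * (∑ a, X a) / Fintype.card β + 1) := by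
          rw [sum_add_distrib, ← mul_sum]
          simp only [sum_const, card_univ, nsmul_eq_mul, mul_one]
          field_simp
          ring
      _ ≤ _ := mul_le_mul_of_nonneg_left (Real.add_one_le_exp _) hc.le
  have e3 : ∑ σ : Fin n → β, Real.exp (∑ i, X (σ i)) = (∑ a, Real.exp (X a)) ^ n := by
    have := Finset.prod_univ_sum (fun _ : Fin n => (univ : Finset β))
      (fun _ a => Real.exp (X a))
    rw [Fintype.piFinset_univ] at this
    simp only [prod_const, card_univ, Fintype.card_fin] at this
    rw [this]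
    exact sum_congr rfl fun σ _ => Real.exp_sum _ _
  have e4 : ((univ.filter fun σ : Fin n → β => t ≤ ∑ i, X (σ i)).card : ℝ) * Real.exp t ≤
      ∑ σ : Fin n → β, Real.exp (∑ i, X (σ i)) := by
    calc _ = ∑ σ ∈ univ.filter fun σ : Fin n → β => t ≤ ∑ i, X (σ i), Real.exp t := by
          rw [sum_const, nsmul_eq_mul]
      _ ≤ ∑ σ ∈ univ.filter fun σ : Fin n → β => t ≤ ∑ i, X (σ i),
            Real.exp (∑ i, X (σ i)) :=
          sum_le_sum fun σ hσ => Real.exp_le_exp.2 (mem_filter.1 hσ).2
      _ ≤ _ := sum_le_sum_of_subset_of_nonneg (filter_subset _ _)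
          fun _ _ _ => (Real.exp_pos _).le
  have e5 : (∑ a, Real.exp (X a)) ^ n ≤ (Fintype.card β : ℝ) ^ n * Real.exp (2 * Λ) := by
    calc _ ≤ (Fintype.card β * Real.exp (2 * (∑ a, X a) / Fintype.card β)) ^ n :=
          pow_le_pow_left₀ (sum_nonneg fun a _ => (Real.exp_pos _).le) e2 n
      _ = (Fintype.card β : ℝ) ^ n * Real.exp (n * (2 * (∑ a, X a) / Fintype.card β)) := by
          rw [mul_pow, Real.exp_nat_mul]
      _ ≤ _ := by
          refine mul_le_mul_of_nonneg_left (Real.exp_le_exp.2 ?_) (by positivity)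
          rw [← mul_div_assoc, div_le_iff₀ hc]
          nlinarith
  rw [Real.exp_sub, ← mul_div_assoc, le_div_iff₀ (Real.exp_pos t)]
  linarith

lemma genfun {ι α : Type} [Fintype ι] (g : ι → List α) (x κ : ℝ) (hx0 : 0 ≤ x) (hx1 : x ≤ 1)
    (hκ : ∀ W : List α, ∑ l ∈ range (W.length + 1), ∑ i, x ^ ed (g i) (W.take l) ≤ κ) :
    ∀ (m : ℕ) (W : List α),
      ∑ a : Fin m → ι, x ^ ed (List.ofFn fun r => g (a r)).flatten W ≤ κ ^ m := by
  have hκ0 : 0 ≤ κ := le_trans (by positivity) (hκ [])
  intro m
  induction m with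
  | zero =>
    intro W
    simp only [univ_unique, sum_singleton, pow_zero]
    exact pow_le_one₀ hx0 hx1
  | succ m ih =>
    intro W
    rw [← (Fin.consEquiv fun _ : Fin (m + 1) => ι).sum_comp, Fintype.sum_prod_type]
    have key : ∀ (i : ι) (a : Fin m → ι),
        x ^ ed (List.ofFn fun r => g ((Fin.consEquiv fun _ : Fin (m + 1) => ι) (i, a) r)).flatten W
          ≤ ∑ l ∈ range (W.length + 1), x ^ ed (g i) (W.take l) *
            x ^ ed (List.ofFn fun r => g (a r)).flatten (W.drop l) := by
      intro i a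
      have e : (List.ofFn fun r => g ((Fin.consEquiv fun _ : Fin (m + 1) => ι) (i, a) r)).flatten
          = g i ++ (List.ofFn fun r => g (a r)).flatten := by
        rw [List.ofFn_succ]
        simp [Fin.consEquiv]
      rw [e]
      obtain ⟨W1, W2, rfl, h⟩ := ed_split (g i) (List.ofFn fun r => g (a r)).flatten W
      refine le_trans ?_ (single_le_sum (f := fun l => x ^ ed (g i) ((W1 ++ W2).take l) *
        x ^ ed (List.ofFn fun r => g (a r)).flatten ((W1 ++ W2).drop l))
        (fun l _ => by positivity) (a := W1.length) (by simp))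
      simp only [List.take_left', List.drop_left']
      rw [← pow_add]
      exact pow_le_pow_of_le_one hx0 hx1 h
    calc _ ≤ ∑ i : ι, ∑ a : Fin m → ι, ∑ l ∈ range (W.length + 1), x ^ ed (g i) (W.take l) *
            x ^ ed (List.ofFn fun r => g (a r)).flatten (W.drop l) :=
          sum_le_sum fun i _ => sum_le_sum fun a _ => key i a
      _ = ∑ l ∈ range (W.length + 1), ∑ i : ι, x ^ ed (g i) (W.take l) *
            ∑ a : Fin m → ι, x ^ ed (List.ofFn fun r => g (a r)).flatten (W.drop l) := by
          rw [sum_comm]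
          simp_rw [mul_sum]
          rw [sum_comm]
          refine (sum_congr rfl fun i _ => sum_comm).trans ?_
          rw [sum_comm]
      _ ≤ ∑ l ∈ range (W.length + 1), ∑ i : ι, x ^ ed (g i) (W.take l) * κ ^ m :=
          sum_le_sum fun l _ => sum_le_sum fun i _ =>
            mul_le_mul_of_nonneg_left (ih _) (by positivity)
      _ = (∑ l ∈ range (W.length + 1), ∑ i : ι, x ^ ed (g i) (W.take l)) * κ ^ m := by
          rw [sum_mul]
          exact sum_congr rfl fun l _ => (sum_mul _ _ _).symm
      _ ≤ κ * κ ^ m := mul_le_mul_of_nonneg_right (hκ W) (by positivity)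
      _ = κ ^ (m + 1) := by ring

lemma geom_trunc (x : ℝ) (hx0 : 0 ≤ x) (hx1 : x < 1) (a n : ℕ) :
    ∑ l ∈ range n, x ^ (l - a) ≤ a + 1 / (1 - x) := by
  have hg : ∀ k : ℕ, ∑ l ∈ range k, x ^ l ≤ 1 / (1 - x) := fun k => by
    rw [le_div_iff₀ (by linarith), geom_sum_mul_neg]
    have := pow_nonneg hx0 k
    linarith
  calc ∑ l ∈ range n, x ^ (l - a) ≤ ∑ l ∈ range (a + n), x ^ (l - a) :=
        sum_le_sum_of_subset_of_nonneg (range_subset_range.2 (by omega)) fun _ _ _ => by positivity
    _ = a + ∑ l ∈ range n, x ^ l := by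
        rw [sum_range_add]
        congr 1
        · rw [sum_congr rfl (g := fun _ => (1 : ℝ))]
          · simp
          · intro l hl
            rw [Nat.sub_eq_zero_of_le (mem_range.1 hl).le, pow_zero]
        · exact sum_congr rfl fun l _ => by rw [Nat.add_sub_cancel_left]
    _ ≤ _ := by linarith [hg n]

lemma kappa_bound {ι α : Type} [Fintype ι] (g : ι → List α) (h t : ℕ) (E β : ℝ) (hβ : 0 < β)
    (hlen : ∀ i, (g i).length = h) (hE : E ≤ h)
    (hl : ∀ V : List α, (univ.filter fun i => (ed (g i) V : ℝ) < E).card ≤ t) (W : List α) :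
    ∑ l ∈ range (W.length + 1), ∑ i, Real.exp (-β) ^ ed (g i) (W.take l) ≤
      ((2 * h : ℕ) + 1 / (1 - Real.exp (-β))) * (t + Fintype.card ι * Real.exp (-β * E)) := by
  classical
  have hx0 : 0 ≤ Real.exp (-β) := (Real.exp_pos _).le
  have hx1 : Real.exp (-β) < 1 := Real.exp_lt_one_iff.2 (by linarith)
  have hpow : ∀ k : ℕ, E ≤ k → Real.exp (-β) ^ k ≤ Real.exp (-β * E) := fun k hk => by
    rw [← Real.exp_nat_mul]
    exact Real.exp_le_exp.2 (by nlinarith)
  have key : ∀ l ∈ range (W.length + 1), ∑ i, Real.exp (-β) ^ ed (g i) (W.take l) ≤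
      Real.exp (-β) ^ (l - 2 * h) * (t + Fintype.card ι * Real.exp (-β * E)) := by
    intro l hl'
    have hlen' : (W.take l).length = l := by
      rw [List.length_take]
      have := mem_range.1 hl'
      omega
    by_cases hc : l ≤ 2 * h
    · rw [Nat.sub_eq_zero_of_le hc, pow_zero, one_mul]
      calc _ ≤ ∑ i, ((if (ed (g i) (W.take l) : ℝ) < E then 1 else 0) + Real.exp (-β * E)) := by
            refine sum_le_sum fun i _ => ?_
            split_ifs with h1
            · have := pow_le_one₀ hx0 hx1.le (n := ed (g i) (W.take l))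
              have := Real.exp_pos (-β * E)
              linarith
            · rw [zero_add]
              exact hpow _ (not_lt.1 h1)
        _ = (univ.filter fun i => (ed (g i) (W.take l) : ℝ) < E).card +
              Fintype.card ι * Real.exp (-β * E) := by
            rw [sum_add_distrib, sum_boole]
            simp
        _ ≤ _ := by
            have : ((univ.filter fun i => (ed (g i) (W.take l) : ℝ) < E).card : ℝ) ≤ t := by
              exact_mod_cast hl _
            linarith
    · calc _ ≤ ∑ _i : ι, Real.exp (-β) ^ (l - 2 * h) * Real.exp (-β * E) := by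
            refine sum_le_sum fun i _ => ?_
            have h1 := len_le_ed (g i) (W.take l)
            rw [hlen', hlen] at h1
            calc _ ≤ Real.exp (-β) ^ (l - 2 * h + h) :=
                  pow_le_pow_of_le_one hx0 hx1.le (by omega)
              _ ≤ _ := by
                  rw [pow_add]
                  exact mul_le_mul_of_nonneg_left (hpow h hE) (by positivity)
        _ = Real.exp (-β) ^ (l - 2 * h) * (Fintype.card ι * Real.exp (-β * E)) := by
            simp only [sum_const, card_univ, nsmul_eq_mul]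
            ring
        _ ≤ _ := mul_le_mul_of_nonneg_left (by
            have : (0 : ℝ) ≤ t := Nat.cast_nonneg _
            linarith) (by positivity)
  refine (sum_le_sum key).trans ?_
  rw [← sum_mul]
  exact mul_le_mul_of_nonneg_right (geom_trunc _ hx0 hx1 _ _) (by positivity)

end Pool.Agent.Lib.MP_1df8f0_an
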