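import Pool.Agent.Lib.MP_1df8f0_an.Edit

/-!
Covering numbers of classes of smooth maps of the torus.
-/

open Finset Metric
open scoped ContDiff

noncomputable section

namespace Pool.Agent.Lib.MP_1df8f0_an

theorem cover_lift {n : ℕ} (y : Torus n) : ∃ x, proj x = y ∧ ‖x‖ ≤ 1 ∧ ‖x‖ ≤ ‖y‖ := by
  have h : ∀ a : UnitAddCircle, ∃ t : ℝ, (t : UnitAddCircle) = a ∧ ‖t‖ ≤ 1 ∧ ‖t‖ = ‖a‖ := by
    intro a
    obtain ⟨s, rfl⟩ := QuotientAddGroup.mk_surjective a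
    refine ⟨s - round s, ?_, (abs_sub_round s).trans (by norm_num), UnitAddCircle.norm_eq.symm⟩
    rw [AddCircle.coe_sub, sub_eq_self]
    exact (AddCircle.coe_eq_zero_iff 1).2 ⟨round s, by simp⟩
  choose t h1 h2 h3 using h
  exact ⟨fun i => t (y i), funext fun i => h1 _, (pi_norm_le_iff_of_nonneg zero_le_one).2 fun i => h2 _,
    (pi_norm_le_iff_of_nonneg (norm_nonneg _)).2 fun i => (h3 _).trans_le (norm_le_pi_norm y i)⟩

theorem cover_lip {n : ℕ} (a b : Fin n → ℝ) : dist (proj a) (proj b) ≤ ‖a - b‖ := by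
  rw [dist_eq_norm]
  refine (pi_norm_le_iff_of_nonneg (norm_nonneg _)).2 fun i => ?_
  exact (QuotientAddGroup.norm_mk_le_norm (m := a i - b i)).trans (norm_le_pi_norm (a - b) i)

theorem cover_mv {n : ℕ} {F : (Fin n → ℝ) → (Fin n → ℝ)} (hF : ContDiff ℝ ∞ F) {c : ℝ}
    (h : ∀ x ∈ closedBall (0 : Fin n → ℝ) 3, ‖iteratedFDeriv ℝ 1 F x‖ ≤ c) {x y : Fin n → ℝ}
    (hx : ‖x‖ ≤ 3) (hy : ‖y‖ ≤ 3) : ‖F y - F x‖ ≤ c * ‖y - x‖ :=
  (convex_closedBall 0 3).norm_image_sub_le_of_norm_fderiv_le (𝕜 := ℝ)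
    (fun x _ => hF.differentiable (by simp) x)
    (fun x hx => (norm_iteratedFDeriv_one F).symm.trans_le (h x hx))
    (mem_closedBall_zero_iff.2 hx) (mem_closedBall_zero_iff.2 hy)

theorem SmoothClass.dist_le {n : ℕ} {b : ℕ → ℝ} {S : Torus n → Torus n}
    (hS : S ∈ SmoothClass n b) (y y' : Torus n) : dist (S y) (S y') ≤ b 1 * dist y y' := by
  obtain ⟨F, hF, hL, hb⟩ := hS
  obtain ⟨x, rfl, hx, -⟩ := cover_lift y'
  obtain ⟨v, hv, h1, h2⟩ := cover_lift (y - proj x)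
  have hy : y = proj (x + v) := by
    rw [sub_eq_iff_eq_add'.1 hv.symm]
    rfl
  have h0 : 0 ≤ b 1 := (norm_nonneg _).trans (hb 1 le_rfl 0 (mem_closedBall_self (by norm_num)))
  rw [dist_eq_norm y]
  refine le_trans ?_ (mul_le_mul_of_nonneg_left h2 h0)
  rw [hy, hL, hL]
  refine (cover_lip _ _).trans ((cover_mv hF (hb 1 le_rfl) (by linarith)
    ((norm_add_le _ _).trans (by linarith))).trans_eq (by simp))

theorem cover_code (V : Type) [NormedAddCommGroup V] [NormedSpace ℝ V] [FiniteDimensional ℝ V]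
    (R : ℝ) : ∃ (d : ℕ) (C : ℝ), 1 ≤ C ∧ ∀ η : ℝ, 0 < η → η ≤ 1 →
      ∃ (q : V → Fin d → ℤ) (B : Finset (Fin d → ℤ)), (#B : ℝ) ≤ (C / η) ^ d ∧
        (∀ v, ‖v‖ ≤ R → q v ∈ B) ∧ ∀ v w, q v = q w → ‖v - w‖ ≤ η := by
  obtain ⟨e⟩ : Nonempty (V ≃L[ℝ] (Fin (Module.finrank ℝ V) → ℝ)) :=
    ⟨ContinuousLinearEquiv.ofFinrankEq (by simp)⟩
  generalize Module.finrank ℝ V = d at e
  obtain ⟨K, hK⟩ : ∃ K, K = ‖(e : V →L[ℝ] (Fin d → ℝ))‖ := ⟨_, rfl⟩
  obtain ⟨K', hK'⟩ : ∃ K', K' = ‖(e.symm : (Fin d → ℝ) →L[ℝ] V)‖ + 1 := ⟨_, rfl⟩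
  have h0 : 0 ≤ K := hK ▸ norm_nonneg _
  have h1 : 0 < K' := by rw [hK']; positivity
  have h2 : 0 ≤ K * |R| * K' := by positivity
  refine ⟨d, 2 * (K * |R| * K') + 3, by linarith, fun η hη hη1 => ⟨fun v i => ⌊e v i * K' / η⌋,
    Fintype.piFinset fun _ => Icc (-(⌈K * |R| * K' / η⌉₊ : ℤ)) ⌈K * |R| * K' / η⌉₊, ?_,
    fun v hv => ?_, fun v w h => ?_⟩⟩
  · rw [Fintype.card_piFinset_const, Int.card_Icc]
    have h3 := Nat.ceil_lt_add_one (div_nonneg h2 hη.le)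
    generalize ⌈K * |R| * K' / η⌉₊ = M at h3
    rw [show ((M : ℤ) + 1 - -(M : ℤ)).toNat = 2 * M + 1 by omega]
    push_cast
    gcongr
    have : 3 ≤ 3 / η := by rw [le_div_iff₀ hη]; linarith
    rw [add_div, mul_div_assoc]
    linarith
  · refine Fintype.mem_piFinset.2 fun i => ?_
    have h3 : |e v i * K' / η| ≤ ⌈K * |R| * K' / η⌉₊ := by
      refine le_trans ?_ (Nat.le_ceil _)
      rw [abs_div, abs_mul, abs_of_pos hη, abs_of_pos h1]
      gcongr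
      refine (norm_le_pi_norm (e v) i).trans (((e : V →L[ℝ] (Fin d → ℝ)).le_opNorm v).trans ?_)
      rw [← hK]
      gcongr
      exact hv.trans (le_abs_self R)
    rw [abs_le] at h3
    exact mem_Icc.2 ⟨Int.le_floor.2 (by simpa using h3.1),
      by exact_mod_cast (Int.floor_le _).trans h3.2⟩
  · have h3 : ‖e (v - w)‖ ≤ η / K' := by
      refine (pi_norm_le_iff_of_nonneg (by positivity)).2 fun i => ?_
      have h4 := Int.abs_sub_lt_one_of_floor_eq_floor (congrFun h i)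
      rw [← sub_div, ← sub_mul, abs_div, abs_mul, abs_of_pos hη, abs_of_pos h1, div_lt_one hη] at h4
      rw [le_div_iff₀ h1, map_sub]
      exact h4.le
    have h4 := (e.symm : (Fin d → ℝ) →L[ℝ] V).le_opNorm (e (v - w))
    rw [le_div_iff₀ h1, hK'] at h3
    simp only [ContinuousLinearEquiv.coe_coe, ContinuousLinearEquiv.symm_apply_apply] at h4
    nlinarith [norm_nonneg (e (v - w))]

theorem cover_rep {α β : Type} (s : Set α) (q : α → β) (B : Finset β) (h : ∀ x ∈ s, q x ∈ B) :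
    ∃ F : Finset α, (∀ x ∈ F, x ∈ s) ∧ #F ≤ #B ∧ ∀ x ∈ s, ∃ y ∈ F, q x = q y := by
  classical
  have h1 : ∀ c : β, ∃ t : Finset α, (∀ x ∈ t, x ∈ s) ∧ #t ≤ 1 ∧
      ∀ x ∈ s, q x = c → ∃ y ∈ t, q y = c := fun c => by
    by_cases hc : ∃ x ∈ s, q x = c
    · obtain ⟨x, hx, e⟩ := hc
      exact ⟨{x}, by simpa using hx, by simp, fun _ _ _ => ⟨x, by simp, e⟩⟩
    · exact ⟨∅, by simp, by simp, fun x hx e => absurd ⟨x, hx, e⟩ hc⟩
  choose t h2 h3 h4 using h1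
  refine ⟨B.biUnion t, fun x hx => ?_, ?_, fun x hx => ?_⟩
  · obtain ⟨c, -, hc⟩ := mem_biUnion.1 hx
    exact h2 c x hc
  · simpa using card_biUnion_le_card_mul B t 1 fun c _ => h3 c
  · obtain ⟨y, hy, e⟩ := h4 _ x hx rfl
    exact ⟨y, mem_biUnion.2 ⟨_, h x hx, hy⟩, e.symm⟩

theorem cover_taylor {n r : ℕ} {G : (Fin n → ℝ) → (Fin n → ℝ)} (hG : ContDiff ℝ ∞ G)
    (z : Fin n → ℝ) {ρ δ B : ℝ} (hρ : 0 ≤ ρ) (hρ1 : ρ ≤ 1) (hδ : 0 ≤ δ) (hB : 0 ≤ B)
    (h1 : ∀ i < r, ‖iteratedFDeriv ℝ i G z‖ ≤ δ)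
    (h2 : ∀ x ∈ closedBall z ρ, ‖iteratedFDeriv ℝ r G x‖ ≤ B) (j : ℕ) :
    ∀ i, i + j = r → ∀ x ∈ closedBall z ρ, ‖iteratedFDeriv ℝ i G x‖ ≤ j * δ + B * ρ ^ j := by
  induction j with
  | zero =>
    rintro i rfl x hx
    simpa using h2 x hx
  | succ j ih =>
    intro i hi x hx
    have h3 := (convex_closedBall z ρ).norm_image_sub_le_of_norm_fderiv_le (𝕜 := ℝ)
      (f := iteratedFDeriv ℝ i G)
      (fun x _ => hG.differentiable_iteratedFDeriv (mod_cast ENat.natCast_lt_top i) x)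
      (fun x hx => norm_fderiv_iteratedFDeriv.trans_le (ih (i + 1) (by omega) x hx))
      (mem_closedBall_self hρ) hx
    have h4 := h3.trans (mul_le_mul_of_nonneg_left (mem_closedBall_iff_norm.1 hx) (by positivity))
    have h5 := norm_le_norm_add_norm_sub' (iteratedFDeriv ℝ i G x) (iteratedFDeriv ℝ i G z)
    have h6 := h1 i (by omega)
    have h7 := mul_le_of_le_one_right (by positivity : 0 ≤ j * δ) hρ1
    push_cast
    rw [pow_succ]
    nlinarith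

theorem cover_norm {n : ℕ} {b : ℕ → ℝ} (r : ℕ) (S : Torus n → Torus n) :
    ∃ F : (Fin n → ℝ) → (Fin n → ℝ), S ∈ SmoothClass n b → ContDiff ℝ ∞ F ∧ IsLift S F ∧
      (∀ i, 1 ≤ i → ∀ x ∈ closedBall (0 : Fin n → ℝ) 3, ‖iteratedFDeriv ℝ i F x‖ ≤ b i) ∧
      ∀ x, ‖x‖ ≤ 1 → ‖fun i : Fin r => iteratedFDeriv ℝ i F x‖ ≤
        1 + |b 1| + ∑ i ∈ range r, |b i| := by
  by_cases hS : S ∈ SmoothClass n b
  swap
  · exact ⟨id, fun h => absurd h hS⟩
  obtain ⟨F, hF, hL, hb⟩ := hS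
  have hb' : ∀ i, 1 ≤ i → ∀ x ∈ closedBall (0 : Fin n → ℝ) 3,
      ‖iteratedFDeriv ℝ i (fun x => F x - fun i => (⌊F 0 i⌋ : ℝ)) x‖ ≤ b i := by
    intro i hi x hx
    obtain ⟨k, rfl⟩ := Nat.exists_eq_add_of_le' hi
    simpa only [iteratedFDeriv_succ_eq_comp_right, fderiv_sub_const] using hb _ hi x hx
  have hs : 0 ≤ ∑ i ∈ range r, |b i| := sum_nonneg fun _ _ => abs_nonneg _
  refine ⟨fun x => F x - fun i => (⌊F 0 i⌋ : ℝ), fun _ => ⟨hF.sub contDiff_const, fun x => ?_, hb',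
    fun x hx => (pi_norm_le_iff_of_nonneg (by positivity)).2 fun i => ?_⟩⟩
  · rw [hL]
    funext i
    simp only [proj, Pi.sub_apply]
    rw [AddCircle.coe_sub, eq_comm, sub_eq_self]
    exact (AddCircle.coe_eq_zero_iff 1).2 ⟨⌊F 0 i⌋, by simp⟩
  · obtain ⟨i, hi⟩ := i
    rcases Nat.eq_zero_or_pos i with rfl | h
    · refine norm_iteratedFDeriv_zero.trans_le ?_
      have h1 := cover_mv hF (hb 1 le_rfl) (x := 0) (y := x) (by simp) (by linarith)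
      have h2 : ‖F 0 - fun i => (⌊F 0 i⌋ : ℝ)‖ ≤ 1 :=
        (pi_norm_le_iff_of_nonneg zero_le_one).2 fun i => by
          simpa [Int.abs_fract] using (Int.fract_lt_one (F 0 i)).le
      have h3 := norm_sub_le_norm_sub_add_norm_sub (F x) (F 0) fun i => (⌊F 0 i⌋ : ℝ)
      have h4 : b 1 * ‖x - 0‖ ≤ |b 1| * 1 :=
        mul_le_mul (le_abs_self _) (by simpa using hx) (norm_nonneg _) (abs_nonneg _)
      linarith
    · have h1 := hb' i h x (mem_closedBall_zero_iff.2 (by linarith))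
      have h2 : |b i| ≤ ∑ i ∈ range r, |b i| :=
        single_le_sum (f := fun i => |b i|) (fun _ _ => abs_nonneg _) (mem_range.2 hi)
      exact h1.trans (by linarith [le_abs_self (b i), abs_nonneg (b 1)])

theorem cover_num {K C θ η x : ℝ} (hK : 0 ≤ K) (hC : 1 ≤ C) (hθ : 0 < θ) (hη : 0 < η)
    (hη1 : η ≤ 1) (h : η ≤ (K * C ^ θ / θ + 1) ^ (-θ⁻¹)) (hx : x ≤ K * η ^ (-θ) * Real.log (C / η)) :
    x ≤ η ^ (-(3 * θ)) := by
  have h1 : Real.log (C / η) ≤ C ^ θ * η ^ (-θ) / θ := by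
    refine (Real.log_le_rpow_div (by positivity) hθ).trans_eq ?_
    rw [Real.div_rpow (by positivity) hη.le, Real.rpow_neg hη.le, div_eq_mul_inv (C ^ θ)]
  have h2 : K * C ^ θ / θ + 1 ≤ η ^ (-θ) := by
    refine le_trans (le_of_eq ?_) (Real.rpow_le_rpow_of_nonpos hη h (by linarith : -θ ≤ 0))
    rw [← Real.rpow_mul (by positivity), neg_mul_neg, inv_mul_cancel₀ hθ.ne', Real.rpow_one]
  have h3 : η ^ (-(3 * θ)) = η ^ (-θ) * η ^ (-θ) * η ^ (-θ) := by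
    rw [← Real.rpow_add hη, ← Real.rpow_add hη]
    ring_nf
  have h4 : 0 < η ^ (-θ) := by positivity
  calc x ≤ K * η ^ (-θ) * (C ^ θ * η ^ (-θ) / θ) := hx.trans (by gcongr)
    _ = K * C ^ θ / θ * η ^ (-θ) * η ^ (-θ) := by ring
    _ ≤ _ := by
      rw [h3]
      gcongr
      linarith

theorem cover (n : ℕ) (b : ℕ → ℝ) (θ : ℝ) (hθ : 0 < θ) :
    ∃ η0 : ℝ, 0 < η0 ∧ ∀ η : ℝ, 0 < η → η < η0 → ∃ F : Finset (Torus n → Torus n),
      (∀ S' ∈ F, S' ∈ SmoothClass n b) ∧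
      (∀ S ∈ SmoothClass n b, ∃ S' ∈ F, ∀ y, dist (S y) (S' y) ≤ η) ∧
      Real.log F.card ≤ η ^ (-θ) := by
  classical
  obtain ⟨d₀, C₀, hC₀, h0⟩ := cover_code (Fin n → ℝ) 1
  obtain ⟨r, hr⟩ := exists_nat_gt (3 * d₀ / θ)
  have hr0 : (0 : ℝ) < r := lt_of_le_of_lt (by positivity) hr
  have hr1 : (1 : ℝ) ≤ r := by exact_mod_cast Nat.cast_pos.1 hr0
  have : ∀ i : ℕ, FiniteDimensional ℝ ((Fin n → ℝ) [×i]→L[ℝ] (Fin n → ℝ)) := fun i =>
    Module.Finite.of_injective ContinuousMultilinearMap.toMultilinearMapLinear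
      ContinuousMultilinearMap.toMultilinearMap_injective
  obtain ⟨d, C, hC, h1⟩ := cover_code ((i : Fin r) → ((Fin n → ℝ) [×i]→L[ℝ] (Fin n → ℝ)))
    (1 + |b 1| + ∑ i ∈ range r, |b i|)
  choose L hL using cover_norm (n := n) (b := b) r
  obtain ⟨c, hc⟩ : ∃ c, c = 4 * |b r| + 1 := ⟨_, rfl⟩
  have hc1 : 1 ≤ c := by linarith [abs_nonneg (b r)]
  refine ⟨min 1 (((C₀ * c) ^ d₀ * d * (C * (2 * r)) ^ (θ / 3) / (θ / 3) + 1) ^ (-(θ / 3)⁻¹)),
    by positivity, fun η hη hη0 => ?_⟩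
  obtain ⟨hη1, hη2⟩ := lt_min_iff.1 hη0
  obtain ⟨ρ, hρ⟩ : ∃ ρ, ρ = η ^ (r : ℝ)⁻¹ / c := ⟨_, rfl⟩
  have hρ0 : 0 < ρ := by rw [hρ]; positivity
  have hρ1 : ρ ≤ 1 := hρ ▸ div_le_one_of_le₀
    ((Real.rpow_le_one hη.le hη1.le (by positivity)).trans hc1) (by positivity)
  have hδ1 : η / (2 * r) ≤ 1 := div_le_one_of_le₀ (by linarith) (by positivity)
  obtain ⟨q₀, B₀, a1, a2, a3⟩ := h0 ρ hρ0 hρ1
  obtain ⟨Z, z1, z2, z3⟩ := cover_rep {x | ‖x‖ ≤ 1} q₀ B₀ a2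
  obtain ⟨q, B, b1, b2, b3⟩ := h1 (η / (2 * r)) (by positivity) hδ1
  obtain ⟨F, f1, f2, f3⟩ := cover_rep (SmoothClass n b)
    (fun S (z : Z) => q fun i : Fin r => iteratedFDeriv ℝ i (L S) z) (Fintype.piFinset fun _ => B)
    fun S hS => Fintype.mem_piFinset.2 fun z => b2 _ ((hL S hS).2.2.2 z (z1 z z.2))
  refine ⟨F, f1, fun S hS => ?_, ?_⟩
  · obtain ⟨S', hS', e⟩ := f3 S hS
    refine ⟨S', hS', fun y => ?_⟩
    obtain ⟨x, rfl, hx, -⟩ := cover_lift y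
    obtain ⟨z, hz, ez⟩ := z3 x hx
    obtain ⟨s1, s2, s3, -⟩ := hL S hS
    obtain ⟨t1, t2, t3, -⟩ := hL S' (f1 S' hS')
    have hsub : ∀ (i : ℕ) w, iteratedFDeriv ℝ i (L S - L S') w =
        iteratedFDeriv ℝ i (L S) w - iteratedFDeriv ℝ i (L S') w := fun i w =>
      iteratedFDeriv_sub_apply (s1.of_le (mod_cast le_top)).contDiffAt
        (t1.of_le (mod_cast le_top)).contDiffAt
    have h2 := cover_taylor (r := r) (G := L S - L S') (s1.sub t1) z hρ0.le hρ1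
      (by positivity : 0 ≤ η / (2 * r)) (by positivity : 0 ≤ 2 * |b r|)
      (fun i hi => by
        rw [hsub]
        exact (norm_le_pi_norm _ (⟨i, hi⟩ : Fin r)).trans (b3 _ _ (congrFun e ⟨z, hz⟩)))
      (fun w hw => by
        have hw' : w ∈ closedBall (0 : Fin n → ℝ) 3 := by
          have h3 : ‖z‖ ≤ 1 := z1 z hz
          have h4 := norm_le_norm_add_norm_sub' w z
          rw [mem_closedBall_iff_norm] at hw
          exact mem_closedBall_zero_iff.2 (by linarith)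
        rw [hsub]
        refine (norm_sub_le _ _).trans ?_
        linarith [s3 r (mod_cast hr1) w hw', t3 r (mod_cast hr1) w hw', le_abs_self (b r)])
      r 0 (zero_add r) x (mem_closedBall_iff_norm.2 (a3 _ _ ez))
    rw [norm_iteratedFDeriv_zero, hρ, div_pow, Real.rpow_inv_natCast_pow hη.le (mod_cast hr0.ne'),
      mul_div_assoc', mul_comm 2 (r : ℝ), mul_div_mul_left _ _ hr0.ne'] at h2
    have h3 : 2 * |b r| * (η / c ^ r) ≤ η / 2 := by
      have h4 : c ≤ c ^ r := le_self_pow₀ hc1 (mod_cast hr0.ne')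
      rw [mul_div_assoc', div_le_div_iff₀ (by positivity) two_pos]
      nlinarith
    rw [s2, t2]
    exact (cover_lip _ _).trans (h2.trans (by linarith))
  · rw [Fintype.card_piFinset, prod_const, card_univ, Fintype.card_coe] at f2
    have e1 : C / (η / (2 * r)) = C * (2 * r) / η := by field_simp
    have e2 : 1 ≤ C * (2 * r) := by nlinarith
    have e3 : 1 ≤ C * (2 * r) / η := by rw [le_div_iff₀ hη]; linarith
    rw [e1] at b1
    have h2 : (#F : ℝ) ≤ ((C * (2 * r) / η) ^ d) ^ #Z :=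
      le_trans (by exact_mod_cast f2) (pow_le_pow_left₀ (by positivity) b1 _)
    have h3 : Real.log #F ≤ #Z * (d * Real.log (C * (2 * r) / η)) := by
      rw [← Real.log_pow, ← Real.log_pow]
      rcases Nat.eq_zero_or_pos #F with h | h
      · rw [h, Nat.cast_zero, Real.log_zero]
        exact Real.log_nonneg (one_le_pow₀ (one_le_pow₀ e3))
      · exact Real.log_le_log (mod_cast h) h2
    have h4 : (#Z : ℝ) ≤ (C₀ * c) ^ d₀ * η ^ (-(θ / 3)) := by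
      refine le_trans (by exact_mod_cast z2) (a1.trans ?_)
      rw [hρ, div_div_eq_mul_div, div_pow, div_eq_mul_inv, ← Real.rpow_natCast (η ^ _),
        ← Real.rpow_mul hη.le, ← Real.rpow_neg hη.le]
      refine mul_le_mul_of_nonneg_left (Real.rpow_le_rpow_of_exponent_ge hη hη1.le ?_)
        (by positivity)
      rw [div_lt_iff₀ hθ] at hr
      rw [neg_le_neg_iff, inv_mul_le_iff₀ hr0]
      linarith
    have h5 := cover_num (x := Real.log #F) (by positivity) e2 (by positivity) hη hη1.le hη2.le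
      (h3.trans (by
        have := Real.log_nonneg e3
        calc _ ≤ (C₀ * c) ^ d₀ * η ^ (-(θ / 3)) * (d * Real.log (C * (2 * r) / η)) := by gcongr
          _ = _ := by ring))
    rwa [mul_div_cancel₀ _ (by norm_num)] at h5

end Pool.Agent.Lib.MP_1df8f0_an
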