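import Mathlib

/-!
Definitions for Kakutani equivalence and smooth maps of tori.
-/

open MeasureTheory
open scoped ENNReal

noncomputable section

namespace Pool.Agent.Lib.MP_1df8f0_an

/-- The torus `ℝⁿ/ℤⁿ`; its `volume` is the Lebesgue (Haar) probability measure. -/
abbrev Torus (n : ℕ) : Type := Fin n → UnitAddCircle

/-- The covering projection `ℝⁿ → ℝⁿ/ℤⁿ`. -/
def proj {n : ℕ} (x : Fin n → ℝ) : Torus n := fun i => ((x i : ℝ) : UnitAddCircle)

/-- `F` is a lift to `ℝⁿ` of the self-map `S` of the torus. -/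
def IsLift {n : ℕ} (S : Torus n → Torus n) (F : (Fin n → ℝ) → (Fin n → ℝ)) : Prop :=
  ∀ x, S (proj x) = proj (F x)

/-- The first return time of `x` to `A` (zero if the forward orbit never meets `A`). -/
def retTime {X : Type} (T : X → X) (A : Set X) (x : X) : ℕ := sInf {n | 1 ≤ n ∧ T^[n] x ∈ A}

/-- The induced (first return) map `T_A`. -/
def induced {X : Type} (T : X → X) (A : Set X) (x : X) : X := T^[retTime T A x] x

/-- Some induced system `(A, μ(· | A), T_A)` of `(X, μ, T)` is a factor of some induced system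
`(B, ν(· | B), S_B)` of `(Y, ν, S)`, with `A`, `B` of positive measure. This holds in particular
when the two systems are Kakutani equivalent (then `φ` is an isomorphism). -/
def InducedFactor {X Y : Type} [MeasurableSpace X] [MeasurableSpace Y] (μ : Measure X)
    (T : X → X) (ν : Measure Y) (S : Y → Y) : Prop :=
  ∃ (A : Set X) (B : Set Y) (φ : Y → X), MeasurableSet A ∧ MeasurableSet B ∧ 0 < μ A ∧ 0 < ν B ∧
    MeasurePreserving φ (ProbabilityTheory.cond ν B) (ProbabilityTheory.cond μ A) ∧
    ∀ᵐ y ∂(ProbabilityTheory.cond ν B), φ (induced S B y) = induced T A (φ y)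

/-- Shannon entropy of the join `ξ ∨ f⁻¹ξ ∨ ⋯ ∨ f^{-(n-1)}ξ` of the finite partition into the
fibres of `ξ`. -/
def blockEntropy {X : Type} [MeasurableSpace X] (μ : Measure X) (f : X → X) {k : ℕ}
    (ξ : X → Fin k) (n : ℕ) : ℝ :=
  ∑ w : Fin n → Fin k, Real.negMulLog (μ.real {x : X | ∀ i : Fin n, ξ (f^[(i : ℕ)] x) = w i})

/-- Kolmogorov–Sinai entropy `h_μ(f)`: the supremum over finite measurable partitions of the
entropy rate. -/
def ksEntropy {X : Type} [MeasurableSpace X] (μ : Measure X) (f : X → X) : ℝ≥0∞ :=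
  ⨆ (k : ℕ) (ξ : X → Fin k) (_ : Measurable ξ),
    Filter.limsup (fun n : ℕ => ENNReal.ofReal (blockEntropy μ f ξ n / (n : ℝ))) Filter.atTop

end Pool.Agent.Lib.MP_1df8f0_an
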