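import Pool.Agent.Lib.MP_1df8f0_an.Core

/-!
Basic facts on the edit distance.
-/

noncomputable section

namespace Pool.Agent.Lib.MP_1df8f0_an

variable {α : Type}

lemma cl_len (u W : List α) : Cl (u.length + W.length) u W :=
  ⟨[], List.nil_sublist _, List.nil_sublist _, by simp⟩

lemma cl_ed (u W : List α) : Cl (ed u W) u W :=
  Nat.sInf_mem (s := {e | Cl e u W}) ⟨_, cl_len u W⟩

lemma ed_le {e : ℕ} {u W : List α} (h : Cl e u W) : ed u W ≤ e :=
  Nat.sInf_le (s := {e | Cl e u W}) h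

lemma ed_le_len (u W : List α) : ed u W ≤ u.length + W.length := ed_le (cl_len u W)

lemma ed_self (u : List α) : ed u u = 0 :=
  Nat.le_zero.1 (ed_le ⟨u, List.Sublist.refl _, List.Sublist.refl _, by omega⟩)

lemma ed_comm (u W : List α) : ed u W = ed W u := by
  apply le_antisymm
  · obtain ⟨z, h1, h2, h3⟩ := cl_ed W u
    exact ed_le ⟨z, h2, h1, by omega⟩
  · obtain ⟨z, h1, h2, h3⟩ := cl_ed u W
    exact ed_le ⟨z, h2, h1, by omega⟩

lemma len_le_ed (u W : List α) : W.length ≤ u.length + ed u W := by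
  obtain ⟨z, h1, _, h3⟩ := cl_ed u W
  have := h1.length_le
  omega

lemma eq_of_ed_eq_zero {u W : List α} (h : ed u W = 0) : u = W := by
  obtain ⟨z, h1, h2, h3⟩ := cl_ed u W
  have a1 := h1.length_le
  have a2 := h2.length_le
  rw [h] at h3
  rw [← h1.eq_of_length (by omega), ← h2.eq_of_length (by omega)]

lemma ed_append_le (u1 u2 W1 W2 : List α) :
    ed (u1 ++ u2) (W1 ++ W2) ≤ ed u1 W1 + ed u2 W2 := by
  obtain ⟨z1, a1, a2, a3⟩ := cl_ed u1 W1
  obtain ⟨z2, b1, b2, b3⟩ := cl_ed u2 W2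
  refine ed_le ⟨z1 ++ z2, a1.append b1, a2.append b2, ?_⟩
  simp only [List.length_append]
  omega

lemma ed_split (u v W : List α) :
    ∃ W1 W2 : List α, W = W1 ++ W2 ∧ ed u W1 + ed v W2 ≤ ed (u ++ v) W := by
  obtain ⟨z, a1, a2, a3⟩ := cl_ed (u ++ v) W
  obtain ⟨z1, z2, rfl, b1, b2⟩ := List.sublist_append_iff.1 a1
  obtain ⟨W1, W2, rfl, c1, c2⟩ := List.append_sublist_iff.1 a2
  refine ⟨W1, W2, rfl, ?_⟩
  have d1 := b1.length_le
  have d2 := b2.length_le
  have d3 := c1.length_le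
  have d4 := c2.length_le
  have e1 : ed u W1 ≤ u.length + W1.length - 2 * z1.length := ed_le ⟨z1, b1, c1, by omega⟩
  have e2 : ed v W2 ≤ v.length + W2.length - 2 * z2.length := ed_le ⟨z2, b2, c2, by omega⟩
  simp only [List.length_append] at a3
  omega

lemma ed_factor {u W : List α} (h : u <:+: W) (W' : List α) :
    ∃ V : List α, V <:+: W' ∧ ed u V ≤ ed W W' := by
  obtain ⟨a, b, rfl⟩ := h
  obtain ⟨W1, W2, rfl, h1⟩ := ed_split (a ++ u) b W'
  obtain ⟨W3, W4, rfl, h2⟩ := ed_split a u W1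
  exact ⟨W4, ⟨W3, W2, rfl⟩, by omega⟩

lemma ed_flatten_le {ι : Type} (L : List ι) (f g : ι → List α) :
    ed (L.map f).flatten (L.map g).flatten ≤ (L.map fun i => ed (f i) (g i)).sum := by
  induction L with
  | nil => simp [ed_self]
  | cons a L ih =>
    simp only [List.map_cons, List.flatten_cons, List.sum_cons]
    exact (ed_append_le _ _ _ _).trans (by omega)

lemma ed_flatten_pigeon (L : List (List α)) (E : ℝ) :
    ∀ W : List α, (ed L.flatten W : ℝ) < L.length * E →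
      ∃ u ∈ L, ∃ V : List α, V <:+: W ∧ (ed u V : ℝ) < E := by
  induction L with
  | nil =>
    intro W h
    simp only [List.length_nil, Nat.cast_zero, zero_mul] at h
    exact absurd h (not_lt.2 (Nat.cast_nonneg _))
  | cons a L ih =>
    intro W h
    obtain ⟨W1, W2, rfl, h1⟩ := ed_split a L.flatten W
    have h1' : (ed a W1 : ℝ) + ed L.flatten W2 ≤ ed (a ++ L.flatten) (W1 ++ W2) := by
      exact_mod_cast h1
    simp only [List.flatten_cons, List.length_cons, Nat.cast_add, Nat.cast_one] at h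
    by_cases h2 : (ed a W1 : ℝ) < E
    · exact ⟨a, by simp, W1, ⟨[], W2, by simp⟩, h2⟩
    · obtain ⟨u, hu, V, hV, h3⟩ := ih W2 (by nlinarith)
      exact ⟨u, by simp [hu], V, hV.trans ⟨W1, [], by simp⟩, h3⟩

end Pool.Agent.Lib.MP_1df8f0_an
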