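import Pool.Agent.Lib.MP_1df8f0_an.Edit

/-!
Tower systems with slowly growing numbers of cells have zero entropy.
-/

open MeasureTheory Filter Topology
open scoped ENNReal symmDiff ContDiff unitInterval

noncomputable section

namespace Pool.Agent.Lib.MP_1df8f0_an

theorem ent_gibbs {X α : Type} [MeasurableSpace X] [Fintype α] [MeasurableSpace α]
    [DiscreteMeasurableSpace α] (μ : Measure X) [IsProbabilityMeasure μ] {Z : X → α}
    (hZ : Measurable Z) {Q : α → ℝ} (hQ : ∀ a, 0 < Q a) (hs : ∑ a, Q a ≤ 1) {L : X → ℝ}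
    (hi : Integrable L μ) (h : ∀ᵐ x ∂μ, -Real.log (Q (Z x)) ≤ L x) :
    ∑ a, Real.negMulLog (μ.real (Z ⁻¹' {a})) ≤ ∫ x, L x ∂μ := by
  have : IsProbabilityMeasure (μ.map Z) := Measure.isProbabilityMeasure_map hZ.aemeasurable
  have m : Measurable fun a => -Real.log (Q a) := .of_discrete
  have i1 : Integrable (fun a => -Real.log (Q a)) (μ.map Z) := Integrable.of_finite
  refine le_trans ?_ (integral_mono_ae
    ((integrable_map_measure m.aestronglyMeasurable hZ.aemeasurable).1 i1) hi h)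
  have e1 := integral_map (μ := μ) hZ.aemeasurable m.aestronglyMeasurable
  have e2 : ∑ a, μ.real (Z ⁻¹' {a}) = 1 := by
    rw [sum_measureReal_preimage_singleton _ fun a _ => hZ (measurableSet_singleton a)]
    simp
  rw [integral_fintype i1] at e1
  refine le_trans ?_ e1.le
  have e3 : ∀ a, Real.negMulLog (μ.real (Z ⁻¹' {a})) ≤
      (μ.map Z).real {a} • (-Real.log (Q a)) + (Q a - μ.real (Z ⁻¹' {a})) := fun a => by
    rw [map_measureReal_apply hZ (measurableSet_singleton a), smul_eq_mul, Real.negMulLog]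
    rcases (measureReal_nonneg (μ := μ) (s := Z ⁻¹' {a})).eq_or_lt with h0 | h0
    · rw [← h0]
      simpa using (hQ a).le
    · have h1 := mul_le_mul_of_nonneg_left (Real.log_le_sub_one_of_pos (div_pos (hQ a) h0)) h0.le
      rw [Real.log_div (hQ a).ne' h0.ne', mul_sub _ (_ / _), mul_div_cancel₀ _ h0.ne'] at h1
      linarith
  refine (Finset.sum_le_sum fun a _ => e3 a).trans ?_
  rw [Finset.sum_add_distrib, Finset.sum_sub_distrib, e2]
  linarith

theorem ent_pred {X : Type} [MeasurableSpace X] {μ : Measure X} [IsProbabilityMeasure μ]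
    {T : X → X} (hT : MeasurePreserving T μ μ) {q : ℕ} (hq : 0 < q) {ξ ζ : X → Fin q}
    (hξ : Measurable ξ) (hζ : Measurable ζ) {δ : ℝ} (d0 : 0 < δ) (d1 : δ < 1) (n : ℕ)
    (U : Finset (Fin n → Fin q)) (hU : ∀ᵐ x ∂μ, (fun i : Fin n => ζ (T^[i] x)) ∈ U) :
    blockEntropy μ T ξ n ≤ Real.log U.card +
      n * (-Real.log (1 - δ) + Real.log (q / δ) * μ.real {x | ζ x ≠ ξ x}) := by
  classical
  have q0 : (0 : ℝ) < q := by exact_mod_cast hq
  obtain ⟨x₀, hx₀⟩ := hU.exists
  have U0 : (0 : ℝ) < U.card := by exact_mod_cast Finset.card_pos.2 ⟨_, hx₀⟩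
  set κ : Fin q → Fin q → ℝ := fun a b => (if a = b then 1 - δ else 0) + δ / q with hκ
  have k0 : ∀ a b, 0 < κ a b := fun a b =>
    add_pos_of_nonneg_of_pos (by split_ifs <;> linarith) (by positivity)
  have k1 : ∀ a, ∑ b, κ a b = 1 := fun a => by
    simp only [hκ, Finset.sum_add_distrib, Finset.sum_ite_eq, Finset.mem_univ, if_true,
      Finset.sum_const, Finset.card_univ, Fintype.card_fin, nsmul_eq_mul]
    field_simp
    ring
  have mE : MeasurableSet {x | ζ x ≠ ξ x} := (measurableSet_eq_fun hζ hξ).compl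
  have iE : ∀ i : Fin n, Integrable (fun x => -Real.log (1 - δ) + Real.log (q / δ) *
      (T^[i] ⁻¹' {x | ζ x ≠ ξ x}).indicator 1 x) μ := fun i => (integrable_const _).add
    (((integrable_const _).indicator ((hT.iterate i).measurable mE)).const_mul _)
  have k2 : ∀ (i : Fin n) x, -Real.log (κ (ζ (T^[i] x)) (ξ (T^[i] x))) ≤ -Real.log (1 - δ) +
      Real.log (q / δ) * (T^[i] ⁻¹' {x | ζ x ≠ ξ x}).indicator 1 x := fun i x => by
    by_cases c : ζ (T^[i] x) = ξ (T^[i] x)
    · rw [Set.indicator_of_notMem (by simpa using c), mul_zero, add_zero, neg_le_neg_iff]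
      refine Real.log_le_log (by linarith) ?_
      simp only [hκ, if_pos c]
      exact le_add_of_nonneg_right (by positivity)
    · rw [Set.indicator_of_mem (by simpa using c), Pi.one_apply, mul_one]
      simp only [hκ, if_neg c, zero_add]
      rw [← Real.log_inv, inv_div]
      linarith [Real.log_nonpos (show 0 ≤ 1 - δ by linarith) (by linarith)]
  have key := ent_gibbs μ (Z := fun x (i : Fin n) => ξ (T^[i] x))
    (measurable_pi_lambda _ fun i => hξ.comp (hT.iterate i).measurable)
    (Q := fun w => (∑ u ∈ U, ∏ i, κ (u i) (w i)) / U.card)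
    (fun w => div_pos (Finset.sum_pos (fun u _ => Finset.prod_pos fun i _ => k0 _ _) ⟨_, hx₀⟩) U0)
    (by
      rw [← Finset.sum_div, Finset.sum_comm, div_le_one U0, ← Fintype.piFinset_univ]
      simp only [← Finset.prod_univ_sum, k1]
      simp)
    ((integrable_const (Real.log U.card)).add (integrable_finsetSum _ fun i _ => iE i))
    (hU.mono fun x hx => by
      have h1 := Finset.single_le_sum (f := fun u : Fin n → Fin q => ∏ i, κ (u i) (ξ (T^[i] x)))
        (fun u _ => (Finset.prod_pos fun i _ => k0 _ _).le) hx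
      have h2 := Real.log_le_log (Finset.prod_pos fun i _ => k0 _ _) h1
      have h3 := Finset.sum_le_sum fun i (_ : i ∈ Finset.univ) => k2 i x
      rw [Real.log_prod fun i _ => (k0 _ _).ne'] at h2
      rw [Finset.sum_neg_distrib] at h3
      rw [Real.log_div ((Finset.prod_pos fun i _ => k0 _ _).trans_le h1).ne' U0.ne', Pi.add_apply]
      linarith)
  refine le_trans (le_of_eq (Finset.sum_congr rfl fun w _ => ?_)) (key.trans (le_of_eq ?_))
  · congr 2
    ext x
    simp [funext_iff]
  · rw [integral_add' (integrable_const _) (integrable_finsetSum _ fun i _ => iE i),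
      integral_finsetSum _ fun i _ => iE i, Finset.sum_congr rfl fun (i : Fin n) _ =>
        show _ = -Real.log (1 - δ) + Real.log (q / δ) * μ.real {x | ζ x ≠ ξ x} from ?_]
    · simp [mul_add]
    · rw [integral_add (integrable_const _)
        (((integrable_const _).indicator ((hT.iterate i).measurable mE)).const_mul _),
        integral_const_mul, integral_indicator_one ((hT.iterate i).measurable mE),
        (hT.iterate i).measureReal_preimage mE.nullMeasurableSet]
      simp

theorem ent_code {P : Params} {X : Type} [MeasurableSpace X] {μ : Measure X} {T : X → X}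
    {c : ℕ → X → ℕ × ℕ} (H : IsTower P μ T c) {k : ℕ} (hh : 0 < P.h k) {α : Type}
    (g : ℕ × ℕ → α) (n : ℕ) : ∃ U : Finset (Fin n → α),
      U.card ≤ P.h k * P.s k ^ (n / P.h k + 2) ∧
        ∀ᵐ x ∂μ, (fun i : Fin n => g (c k (T^[i] x))) ∈ U := by
  classical
  refine ⟨(Finset.range (P.h k) ×ˢ Fintype.piFinset fun _ : Fin (n / P.h k + 2) =>
    Finset.range (P.s k)).image fun z i => g (if h : (z.1 + i) / P.h k < n / P.h k + 2 then
      z.2 ⟨_, h⟩ else 0, (z.1 + i) % P.h k), Finset.card_image_le.trans (by simp), ?_⟩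
  have G := ae_all_iff.2 fun i : ℕ => (H.mp.iterate i).quasiMeasurePreserving.ae
    ((H.mem k).and ((H.succ k).and (H.pos k)))
  refine G.mono fun x hx => Finset.mem_image.2 ⟨((c k x).2, fun j =>
    (c k (T^[j * P.h k - (c k x).2] x)).1), Finset.mem_product.2 ⟨Finset.mem_range.2 (hx 0).1.2,
      Fintype.mem_piFinset.2 fun j => Finset.mem_range.2 (hx _).1.1⟩, funext fun i => ?_⟩
  have p0 : (c k x).2 < P.h k := (hx 0).1.2
  have e : ∀ i : ℕ, c k (T^[i] x) = ((c k (T^[((c k x).2 + i) / P.h k * P.h k - (c k x).2] x)).1,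
      ((c k x).2 + i) % P.h k) := fun i => by
    induction i with
    | zero => simp [Nat.div_eq_of_lt p0, Nat.mod_eq_of_lt p0]
    | succ i ih =>
      obtain ⟨-, h1, h2⟩ := hx i
      rw [← Function.iterate_succ_apply' T, ih] at h1 h2
      refine Prod.ext ?_ (by simpa [← add_assoc] using h2)
      rw [← add_assoc]
      by_cases c1 : P.h k ∣ (c k x).2 + i + 1
      · rw [Nat.div_mul_cancel c1, add_assoc, Nat.add_sub_cancel_left]
      · rw [Nat.succ_div_of_not_dvd c1]
        refine h1 (lt_of_le_of_ne (Nat.mod_lt _ hh) fun c2 => c1 ?_)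
        refine ⟨((c k x).2 + i) / P.h k + 1, ?_⟩
        have := Nat.div_add_mod ((c k x).2 + i) (P.h k)
        simp only [mul_add, mul_one] at c2 ⊢
        omega
  have b : ((c k x).2 + i) / P.h k < n / P.h k + 2 := by
    refine Nat.lt_succ_of_le ?_
    rw [← Nat.add_div_left n hh]
    exact Nat.div_le_div_right (by omega)
  rw [e i]
  simp only [dif_pos b]

theorem IsTower.ksEntropy_eq_zero {P : Params} {X : Type} [MeasurableSpace X] {μ : Measure X}
    [IsProbabilityMeasure μ] {T : X → X} {c : ℕ → X → ℕ × ℕ} (H : IsTower P μ T c)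
    (hs : ∀ k, 1 ≤ P.s k) (hm : ∀ k, 1 ≤ P.m k)
    (hlim : Tendsto (fun k => Real.log ((P.s k : ℝ) * P.h k) / P.h k) atTop (𝓝 0)) :
    ksEntropy μ T = 0 := by
  classical
  have hh : ∀ k, 0 < P.h k := fun k => by
    induction k with
    | zero => exact one_pos
    | succ k ih => exact Nat.mul_pos (hs k) (Nat.mul_pos (hm k) ih)
  refine le_antisymm (iSup_le fun q => iSup_le fun ξ => iSup_le fun hξ =>
    ENNReal.le_of_forall_pos_le_add fun ε hε _ => ?_) zero_le
  obtain ⟨x₀⟩ := nonempty_of_isProbabilityMeasure μ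
  have hq : 0 < q := (ξ x₀).pos
  have q1 : (1 : ℝ) ≤ q := by exact_mod_cast hq
  obtain ⟨e, e0, ee⟩ : ∃ e : ℝ, 0 < e ∧ 4 * e = ε := ⟨ε / 4, by positivity, by ring⟩
  set δ := 1 - Real.exp (-e) with hδ
  have d0 : 0 < δ := sub_pos.2 (Real.exp_lt_one_iff.2 (by linarith))
  have d1 : δ < 1 := sub_lt_self _ (Real.exp_pos _)
  have B0 : 0 < Real.log (q / δ) := Real.log_pos ((one_lt_div d0).2 (by linarith))
  choose k0 hk0 using fun a : Fin q => H.gen _ (hξ (measurableSet_singleton a))
    (ENNReal.ofReal (e / Real.log (q / δ) / q)) (by simp only [ENNReal.ofReal_pos]; positivity)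
  obtain ⟨k, k1, k2⟩ := ((hlim.eventually (gt_mem_nhds e0)).and
    (eventually_all.2 fun a => eventually_ge_atTop (k0 a))).exists
  choose F hF using fun a => hk0 a k (k2 a)
  set g : ℕ × ℕ → Fin q := fun z => if h : ∃ a, z ∈ F a then h.choose else ξ x₀ with hg
  have mE : μ.real {x | g (c k x) ≠ ξ x} ≤ e / Real.log (q / δ) := by
    refine (measureReal_mono (s₂ := ⋃ a, (ξ ⁻¹' {a}) ∆ (c k ⁻¹' F a)) fun x hx => ?_).trans
      ((measureReal_iUnion_fintype_le _).trans ((Finset.sum_le_sum fun a _ =>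
        ENNReal.toReal_le_of_le_ofReal (by positivity) (hF a).le).trans (le_of_eq ?_)))
    · by_cases c1 : c k x ∈ F (ξ x)
      · have c2 : ∃ a, c k x ∈ F a := ⟨_, c1⟩
        simp only [hg, dif_pos c2, Set.mem_ofPred_eq] at hx
        exact Set.mem_iUnion.2 ⟨_, Or.inr ⟨c2.choose_spec, fun h => hx (Eq.symm h)⟩⟩
      · exact Set.mem_iUnion.2 ⟨ξ x, Or.inl ⟨rfl, c1⟩⟩
    · simp only [Finset.sum_const, Finset.card_univ, Fintype.card_fin, nsmul_eq_mul]
      field_simp
  have h1 : (1 : ℝ) ≤ P.h k := by exact_mod_cast hh k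
  have s1 : (1 : ℝ) ≤ P.s k := by exact_mod_cast hs k
  have L0 : 0 ≤ Real.log ((P.s k : ℝ) * P.h k) := Real.log_nonneg (by nlinarith)
  refine limsup_le_of_le (by isBoundedDefault) ?_
  filter_upwards [(tendsto_const_div_atTop_nhds_zero_nat
    (2 * Real.log ((P.s k : ℝ) * P.h k))).eventually (gt_mem_nhds e0), eventually_gt_atTop 0]
    with n n1 n0
  have n2 : (0 : ℝ) < n := by exact_mod_cast n0
  obtain ⟨U, U1, U2⟩ := ent_code H (hh k) g n
  have b1 := ent_pred H.mp hq hξ (ζ := fun x => g (c k x))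
    ((Measurable.of_discrete (f := g)).comp (H.meas k)) d0 d1 n U U2
  have b2 : Real.log U.card ≤ (n / P.h k + 2) * Real.log ((P.s k : ℝ) * P.h k) := by
    have U0 : (0 : ℝ) < U.card := by exact_mod_cast Finset.card_pos.2 ⟨_, U2.exists.choose_spec⟩
    have U3 : U.card ≤ (P.s k * P.h k) ^ (n / P.h k + 2) := by
      rw [mul_pow, mul_comm]
      exact U1.trans (Nat.mul_le_mul_right _ (Nat.le_self_pow (Nat.succ_ne_zero _) _))
    refine (Real.log_le_log U0 (by exact_mod_cast U3 :
      (U.card : ℝ) ≤ ((P.s k : ℝ) * P.h k) ^ (n / P.h k + 2))).trans ?_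
    rw [Real.log_pow]
    push_cast
    exact mul_le_mul_of_nonneg_right (add_le_add Nat.cast_div_le le_rfl) L0
  have b3 := mul_le_mul_of_nonneg_left mE B0.le
  rw [mul_div_cancel₀ _ B0.ne'] at b3
  rw [hδ, sub_sub_cancel, Real.log_exp, neg_neg, ← hδ] at b1
  rw [zero_add, ← ENNReal.ofReal_coe_nnreal, ← ee]
  refine ENNReal.ofReal_le_ofReal ((div_le_iff₀ n2).2 ?_)
  rw [div_lt_iff₀ n2] at n1
  have b4 := mul_le_mul_of_nonneg_left k1.le n2.le
  have b5 := mul_le_mul_of_nonneg_left b3 n2.le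
  rw [← mul_div_assoc, mul_div_right_comm] at b4
  linarith

end Pool.Agent.Lib.MP_1df8f0_an
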