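import Pool.Agent.Lib.MP_1df8f0_an.Edit
import Pool.Agent.Lib.MP_1df8f0_an.Once

/-! Tower systems are ergodic. -/

open MeasureTheory Filter Topology Finset
open scoped ENNReal symmDiff

noncomputable section

namespace Pool.Agent.Lib.MP_1df8f0_an

theorem erg_down {s m h : ℕ} (σ : ℕ → ℕ → ℕ) {i p r : ℕ} (hi : i < s) (hp : p < h) (hr : r < m)
    (I : ℕ) : ∃ q, q < s * (m * h) ∧ q / h % m = r ∧ down s m h σ (I, q) = (i, p) := by
  have hs : 0 < s := by omega
  obtain ⟨t, ht⟩ : ∃ t, t = (i + s - σ I r % s) % s := ⟨_, rfl⟩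
  have ht1 : t < s := ht ▸ Nat.mod_lt _ hs
  have e1 : (p + (r + t * m) * h) / h = r + t * m := by
    rw [Nat.add_mul_div_right _ _ (by omega), Nat.div_eq_of_lt hp, zero_add]
  have e2 : (r + t * m) % m = r := by rw [Nat.add_mul_mod_self_right, Nat.mod_eq_of_lt hr]
  have e3 : (p + (r + t * m) * h) / (m * h) = t := by
    rw [mul_comm m h, ← Nat.div_div_eq_div_mul, e1, Nat.add_mul_div_right _ _ (by omega),
      Nat.div_eq_of_lt hr, zero_add]
  refine ⟨p + (r + t * m) * h, ?_, by rw [e1, e2], ?_⟩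
  · have h1 : (t + 1) * m ≤ s * m := Nat.mul_le_mul_right _ ht1
    have h2 : (r + t * m + 1) * h ≤ s * m * h := Nat.mul_le_mul_right _ (by nlinarith)
    nlinarith
  · have h1 := Nat.mod_lt (σ I r) hs
    simp only [down, e1, e2, e3, Nat.add_mul_mod_self_right, Nat.mod_eq_of_lt hp]
    rw [ht, Nat.add_mod_mod, ← Nat.mod_add_mod,
      show σ I r % s + (i + s - σ I r % s) = i + s by omega, Nat.add_mod_right,
      Nat.mod_eq_of_lt hi]

variable {P : Params} {X : Type} [MeasurableSpace X] {μ ν ν' : Measure X} {T : X → X}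
  {c : ℕ → X → ℕ × ℕ}

theorem erg_step (H : IsTower P μ T c) (hν : ν ≪ μ) (hT : MeasurePreserving T ν ν) {k I p : ℕ}
    (hp : p + 1 < P.h k) : ν (c k ⁻¹' {(I, p)}) ≤ ν (c k ⁻¹' {(I, p + 1)}) := by
  rw [← hT.measure_preimage (s := c k ⁻¹' {(I, p + 1)})
    (H.meas k (measurableSet_singleton _)).nullMeasurableSet]
  refine measure_mono_ae ?_
  filter_upwards [hν.ae_le (H.succ k), hν.ae_le (H.pos k)] with x h1 h2 hx
  have h3 : c k x = (I, p) := hx
  rw [h3] at h1 h2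
  exact Prod.ext (h1 hp) (h2.trans (Nat.mod_eq_of_lt hp))

theorem erg_level [IsFiniteMeasure μ] (H : IsTower P μ T c) (hμ : ν + ν' = μ)
    (hT : MeasurePreserving T ν ν) (hT' : MeasurePreserving T ν' ν') {k I : ℕ} (hI : I < P.s k)
    (p : ℕ) (hp : p < P.h k) : ν (c k ⁻¹' {(I, p)}) = ν (c k ⁻¹' {(I, 0)}) := by
  have h1 : ν ≤ μ := hμ ▸ Measure.le_add_right le_rfl
  have h2 : ν' ≤ μ := hμ ▸ Measure.le_add_left le_rfl
  induction p with
  | zero => rfl
  | succ p ih =>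
    rw [← ih (by omega)]
    refine le_antisymm ?_ (erg_step H h1.absolutelyContinuous hT hp)
    have h3 := (H.unif k I (p + 1) hI hp).trans (H.unif k I p hI (by omega)).symm
    rw [← hμ, Measure.add_apply, Measure.add_apply] at h3
    exact (ENNReal.add_le_add_iff_right ((h2 _).trans_lt (measure_lt_top _ _)).ne).1
      (h3.le.trans (add_le_add le_rfl (erg_step H h2.absolutelyContinuous hT' hp)))

theorem erg_cell [IsFiniteMeasure μ] (H : IsTower P μ T c) (hμ : ν + ν' = μ)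
    (hT : MeasurePreserving T ν ν) (hT' : MeasurePreserving T ν' ν') {k i p : ℕ}
    (hi : i < P.s k) (hp : p < P.h k) :
    ν Set.univ * μ (c k ⁻¹' {(i, p)}) ≤ ν (c k ⁻¹' {(i, p)}) := by
  have h1 : ν ≪ μ := Measure.absolutelyContinuous_of_le (hμ ▸ Measure.le_add_right le_rfl)
  have hsum : ∀ G : Finset (ℕ × ℕ), ∑ g ∈ G, ν (c (k + 1) ⁻¹' {g}) = ν (c (k + 1) ⁻¹' G) :=
    fun G => sum_measure_preimage_singleton G fun g _ => H.meas _ (measurableSet_singleton g)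
  choose! q hq1 hq2 hq3 using fun r (hr : r < P.m k) I => erg_down (P.σ k) hi hp hr I
  have h2 : ν Set.univ ≤ P.h (k + 1) * ∑ I ∈ range (P.s (k + 1)), ν (c (k + 1) ⁻¹' {(I, 0)}) := by
    refine le_trans (measure_mono_ae (t := c (k + 1) ⁻¹'
      (range (P.s (k + 1)) ×ˢ range (P.h (k + 1)) : Finset (ℕ × ℕ))) ?_) (le_of_eq ?_)
    · filter_upwards [h1.ae_le (H.mem (k + 1))] with x hx _
      exact mem_coe.2 (mem_product.2 ⟨mem_range.2 hx.1, mem_range.2 hx.2⟩)
    · rw [← hsum, sum_product, mul_sum]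
      refine sum_congr rfl fun I hI => ?_
      rw [sum_congr rfl fun p hp => erg_level H hμ hT hT' (mem_range.1 hI) p (mem_range.1 hp),
        sum_const, card_range, nsmul_eq_mul]
  have h3 : P.m k * ∑ I ∈ range (P.s (k + 1)), ν (c (k + 1) ⁻¹' {(I, 0)}) ≤
      ν (c k ⁻¹' {(i, p)}) := by
    refine le_trans (le_of_eq ?_) (measure_mono_ae (s := c (k + 1) ⁻¹'
      ((range (P.s (k + 1)) ×ˢ range (P.m k)).image fun x => (x.1, q x.2 x.1) :
        Finset (ℕ × ℕ))) ?_)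
    · rw [← hsum, sum_image, sum_product, mul_sum]
      · refine sum_congr rfl fun I hI => ?_
        rw [sum_congr rfl fun r hr =>
          erg_level H hμ hT hT' (mem_range.1 hI) _ (hq1 r (mem_range.1 hr) I),
          sum_const, card_range, nsmul_eq_mul]
      · rintro ⟨I, r⟩ hx ⟨I', r'⟩ hy hxy
        obtain ⟨rfl, h4⟩ := Prod.mk.inj hxy
        have h5 := hq2 r (mem_range.1 (mem_product.1 hx).2) I
        rw [h4, hq2 r' (mem_range.1 (mem_product.1 hy).2) I] at h5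
        rw [h5]
    · filter_upwards [h1.ae_le (H.comp k)] with x hx hG
      obtain ⟨y, hy, h4⟩ := mem_image.1 (mem_coe.1 hG)
      exact hx.trans (h4 ▸ hq3 y.2 (mem_range.1 (mem_product.1 hy).2) y.1)
  have h4 : ((P.s k * P.h k : ℕ) : ℝ≥0∞) ≠ 0 :=
    Nat.cast_ne_zero.2 (Nat.mul_pos (by omega) (by omega)).ne'
  rw [H.unif k i p hi hp, ← div_eq_mul_inv,
    ENNReal.div_le_iff h4 (ENNReal.natCast_ne_top _)]
  refine h2.trans (le_trans (le_of_eq ?_) (mul_le_mul_left h3 _))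
  rw [Params.h]
  push_cast
  ring

theorem erg_set [IsFiniteMeasure μ] (H : IsTower P μ T c) (hμ : ν + ν' = μ)
    (hT : MeasurePreserving T ν ν) (hT' : MeasurePreserving T ν' ν') (k : ℕ)
    (F : Set (ℕ × ℕ)) : ν Set.univ * μ (c k ⁻¹' F) ≤ ν (c k ⁻¹' F) := by
  classical
  have hsum : ∀ (κ : Measure X) (G : Finset (ℕ × ℕ)),
      ∑ g ∈ G, κ (c k ⁻¹' {g}) = κ (c k ⁻¹' G) := fun κ G =>
    sum_measure_preimage_singleton G fun g _ => H.meas _ (measurableSet_singleton g)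
  have h1 : μ (c k ⁻¹' F) ≤
      μ (c k ⁻¹' ((range (P.s k) ×ˢ range (P.h k)).filter (· ∈ F) : Finset (ℕ × ℕ))) := by
    refine measure_mono_ae ?_
    filter_upwards [H.mem k] with x hx hF
    exact mem_coe.2 (mem_filter.2 ⟨mem_product.2 ⟨mem_range.2 hx.1, mem_range.2 hx.2⟩, hF⟩)
  refine (mul_le_mul_right h1 _).trans (le_trans ?_ (measure_mono (s := c k ⁻¹'
    ((range (P.s k) ×ˢ range (P.h k)).filter (· ∈ F) : Finset (ℕ × ℕ)))
    fun x hx => (mem_filter.1 (mem_coe.1 hx)).2))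
  rw [← hsum, ← hsum, mul_sum]
  refine sum_le_sum fun g hg => ?_
  obtain ⟨h2, h3⟩ := mem_product.1 (mem_filter.1 hg).1
  exact erg_cell H hμ hT hT' (mem_range.1 h2) (mem_range.1 h3)

theorem IsTower.ergodic {P : Params} {X : Type} [MeasurableSpace X] {μ : Measure X}
    [IsProbabilityMeasure μ] {T : X → X} {c : ℕ → X → ℕ × ℕ} (H : IsTower P μ T c)
    (_hs : ∀ k, 1 ≤ P.s k) (_hm : ∀ k, 1 ≤ P.m k) : Ergodic T μ := by
  refine ⟨H.mp, ⟨fun E hE hTE => ?_⟩⟩
  have hT := H.mp.restrict_preimage hE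
  have hT' := H.mp.restrict_preimage hE.compl
  rw [hTE] at hT
  rw [Set.preimage_compl, hTE] at hT'
  have h0 : μ E * μ Eᶜ = 0 := by
    by_contra h
    obtain ⟨k, hk⟩ := H.gen Eᶜ hE.compl (μ E * μ Eᶜ / 2) (ENNReal.half_pos h)
    obtain ⟨F, hF⟩ := hk k le_rfl
    have h1 := erg_set H (Measure.restrict_add_restrict_compl hE) hT hT' k F
    rw [Measure.restrict_apply_univ, Measure.restrict_apply' hE] at h1
    have h2 : μ (c k ⁻¹' F ∩ E) ≤ μ (Eᶜ ∆ (c k ⁻¹' F)) :=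
      measure_mono fun x hx => Or.inr ⟨hx.1, fun h => h hx.2⟩
    have h3 : μ Eᶜ ≤ μ (c k ⁻¹' F) + μ (Eᶜ ∆ (c k ⁻¹' F)) := by
      refine le_trans (measure_mono fun x hx => ?_) (measure_union_le _ _)
      by_cases h : x ∈ c k ⁻¹' F
      · exact Or.inl h
      · exact Or.inr (Or.inl ⟨hx, h⟩)
    have h4 : μ E * μ Eᶜ ≤ μ (Eᶜ ∆ (c k ⁻¹' F)) + μ (Eᶜ ∆ (c k ⁻¹' F)) := by
      refine (mul_le_mul_right h3 _).trans ?_
      rw [mul_add]
      exact add_le_add (h1.trans h2) (mul_le_of_le_one_left zero_le prob_le_one)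
    exact absurd ((ENNReal.add_lt_add hF hF).trans_eq (ENNReal.add_halves _)) h4.not_gt
  rw [eventuallyConst_set]
  rcases mul_eq_zero.1 h0 with h | h
  · exact Or.inr (measure_eq_zero_iff_ae_notMem.1 h)
  · exact Or.inl h

end Pool.Agent.Lib.MP_1df8f0_an
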