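import Pool.Agent.Lib.MP_1df8f0_an.Edit

/-!
Names in tower systems, return times, visits.
-/

open Finset MeasureTheory Filter Topology
open scoped ENNReal

noncomputable section

namespace Pool.Agent.Lib.MP_1df8f0_an

variable {α X Y : Type}

/-- The name of length `R` of the point `x`. -/
def name (a : X → α) (T : X → X) (x : X) (R : ℕ) : List α :=
  (List.range R).map fun i => a (T^[i] x)

lemma name_add (a : X → α) (T : X → X) (x : X) (R R' : ℕ) :
    name a T x (R + R') = name a T x R ++ name a T (T^[R] x) R' := by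
  simp only [name, List.range_add, List.map_append, List.map_map]
  congr 1
  refine List.map_congr_left fun i _ => ?_
  simp only [Function.comp_apply]
  rw [add_comm, Function.iterate_add_apply]

lemma Params.h_pos (P : Params) (hs : ∀ k, 1 ≤ P.s k) (hm : ∀ k, 1 ≤ P.m k) (k : ℕ) :
    0 < P.h k := by
  induction k with
  | zero => exact Nat.one_pos
  | succ k ih => exact Nat.mul_pos (hs k) (Nat.mul_pos (hm k) ih)

lemma IsTower.word_factor {P : Params} [MeasurableSpace X] {μ : Measure X} {T : X → X}
    {c : ℕ → X → ℕ × ℕ} (H : IsTower P μ T c) (e : ℕ → α) :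
    ∀ᵐ x ∂μ, ∀ k, (c k (T^[P.h k] x)).1 < P.s k ∧ ∀ R, 2 * P.h k ≤ R →
      P.word e k (c k (T^[P.h k] x)).1 <:+: name (fun z => e (c 0 z).1) T x R := by
  have hG : ∀ᵐ z ∂μ, ∀ k, ((c k z).1 < P.s k ∧ (c k z).2 < P.h k) ∧ c k z = P.pr k (c (k + 1) z) ∧
      ((c k z).2 + 1 < P.h k → (c k (T z)).1 = (c k z).1) ∧
      (c k (T z)).2 = ((c k z).2 + 1) % P.h k :=
    ae_all_iff.2 fun k => (H.mem k).and ((H.comp k).and ((H.succ k).and (H.pos k)))
  have hG' := ae_all_iff.2 fun i : ℕ => (H.mp.iterate i).quasiMeasurePreserving.ae hG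
  filter_upwards [hG'] with x hx k
  refine ⟨(hx _ k).1.1, fun R hR => ?_⟩
  have hlt : ∀ i k, (c 0 (T^[i] x)).1 = P.lt k (c k (T^[i] x)) := by
    intro i k
    induction k with
    | zero => rfl
    | succ k ih => rw [ih, (hx i k).2.1]; rfl
  have hp : (c k x).2 < P.h k := (hx 0 k).1.2
  have hpos : ∀ i, (c k (T^[i] x)).2 = ((c k x).2 + i) % P.h k := by
    intro i
    induction i with
    | zero => simp [Nat.mod_eq_of_lt hp]
    | succ i ih => rw [Function.iterate_succ_apply', (hx i k).2.2.2, ih, Nat.mod_add_mod, add_assoc]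
  set n := P.h k - (c k x).2 with hn
  have hpos' : ∀ j, j < P.h k → (c k (T^[n + j] x)).2 = j := by
    intro j hj
    rw [hpos, show (c k x).2 + (n + j) = j + P.h k by omega, Nat.add_mod_right,
      Nat.mod_eq_of_lt hj]
  have hfst : ∀ j, j < P.h k → (c k (T^[n + j] x)).1 = (c k (T^[n] x)).1 := by
    intro j
    induction j with
    | zero => intro _; rfl
    | succ j ih =>
      intro hj
      rw [← add_assoc, Function.iterate_succ_apply', (hx (n + j) k).2.2.1 (by
        rw [hpos' j (by omega)]; exact hj), ih (by omega)]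
  have hI : (c k (T^[P.h k] x)).1 = (c k (T^[n] x)).1 := by
    rw [← hfst _ hp, show n + (c k x).2 = P.h k by omega]
  have hw : P.word e k (c k (T^[P.h k] x)).1 =
      name (fun z => e (c 0 z).1) T (T^[n] x) (P.h k) := by
    unfold Params.word name
    refine List.map_congr_left fun j hj => ?_
    have hj' := List.mem_range.1 hj
    rw [← Function.iterate_add_apply, add_comm j]
    beta_reduce
    rw [hlt (n + j) k, hI, ← hfst j hj']
    congr 2
    exact Prod.ext rfl (hpos' j hj').symm
  rw [hw, show R = n + (P.h k + (R - n - P.h k)) by omega, name_add, name_add]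
  exact ⟨_, _, List.append_assoc _ _ _⟩

lemma measurable_retTime [MeasurableSpace X] {T : X → X} (hT : Measurable T) {A : Set X}
    (hA : MeasurableSet A) : Measurable (retTime T A) := by
  have h1 : ∀ i, Measurable fun x => 1 ≤ i ∧ T^[i] x ∈ A := fun i =>
    measurable_const.and (hA.mem.comp (hT.iterate i))
  refine measurable_to_countable' fun n => ?_
  have : retTime T A ⁻¹' {n} = {x | ((1 ≤ n ∧ T^[n] x ∈ A) ∧ ∀ i, i < n → ¬ (1 ≤ i ∧ T^[i] x ∈ A))
      ∨ (n = 0 ∧ ∀ i, ¬ (1 ≤ i ∧ T^[i] x ∈ A))} := by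
    ext x
    simp only [Set.mem_preimage, Set.mem_singleton_iff, Set.mem_ofPred_eq, retTime]
    constructor
    · intro h
      by_cases hne : {n | 1 ≤ n ∧ T^[n] x ∈ A}.Nonempty
      · left
        rw [← h]
        exact ⟨Nat.sInf_mem hne, fun i hi => Nat.notMem_of_lt_sInf hi⟩
      · right
        rw [Set.not_nonempty_iff_eq_empty] at hne
        rw [hne, Nat.sInf_empty] at h
        exact ⟨h.symm, fun i hi => (Set.eq_empty_iff_forall_notMem.1 hne) i hi⟩
    · rintro (⟨h2, h3⟩ | ⟨h2, h3⟩)
      · refine le_antisymm (Nat.sInf_le h2) (not_lt.1 fun h4 => ?_)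
        exact h3 _ h4 (Nat.sInf_mem (s := {n | 1 ≤ n ∧ T^[n] x ∈ A}) ⟨n, h2⟩)
      · have h4 : {n | 1 ≤ n ∧ T^[n] x ∈ A} = ∅ := Set.eq_empty_iff_forall_notMem.2 h3
        rw [h4, Nat.sInf_empty, h2]
  rw [this]
  exact (((h1 n).and (Measurable.forall fun i => measurable_const.imp (h1 i).not)).or
    (measurable_const.and (Measurable.forall fun i => (h1 i).not))).setOf

lemma kac_le [MeasurableSpace X] {μ : Measure X} [IsProbabilityMeasure μ] {T : X → X}
    (hT : MeasurePreserving T μ μ) {A : Set X} (hA : MeasurableSet A) :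
    ∫⁻ x in A, (retTime T A x : ℝ≥0∞) ∂μ ≤ 1 := by
  let D : ℕ → Set X := fun n => {x | ∀ i, 1 ≤ i → i ≤ n → T^[i] x ∉ A}
  have hD : ∀ n, MeasurableSet (D n) := fun n =>
    (Measurable.forall fun i => measurable_const.imp (measurable_const.imp
      (hA.mem.comp (hT.measurable.iterate i)).not)).setOf
  have h1 : ∀ n, μ (D n ∩ A) + μ (D (n + 1)) = μ (D n) := by
    intro n
    have e : D (n + 1) = T ⁻¹' (D n \ A) := by
      ext x
      simp only [D, Set.mem_preimage, Set.mem_sdiff, Set.mem_ofPred_eq]
      constructor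
      · intro h
        refine ⟨fun i _ h3 => ?_, h 1 le_rfl (by omega)⟩
        exact h (i + 1) (by omega) (by omega)
      · rintro ⟨h2, h3⟩ i h4 h5
        obtain ⟨j, rfl⟩ : ∃ j, i = j + 1 := ⟨i - 1, by omega⟩
        rcases Nat.eq_zero_or_pos j with rfl | hj
        · exact h3
        · exact h2 j hj (by omega)
    rw [e, hT.measure_preimage ((hD n).diff hA).nullMeasurableSet, measure_inter_add_sdiff _ hA]
  have h2 : ∀ K, ∑ n ∈ range K, μ (D n ∩ A) + μ (D K) = μ (D 0) := by
    intro K
    induction K with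
    | zero => simp
    | succ K ih => rw [sum_range_succ, add_assoc, h1, ih]
  calc ∫⁻ x in A, (retTime T A x : ℝ≥0∞) ∂μ ≤ ∫⁻ x in A, ∑' n, (D n).indicator 1 x ∂μ := by
        refine lintegral_mono fun x => ?_
        refine le_trans (le_of_eq ?_) (ENNReal.sum_le_tsum (range (retTime T A x)))
        rw [sum_congr rfl (g := fun _ => (1 : ℝ≥0∞))]
        · simp
        · intro n hn
          refine Set.indicator_of_mem (s := D n) (fun i h3 h4 h5 => ?_) _
          exact Nat.notMem_of_lt_sInf (s := {n | 1 ≤ n ∧ T^[n] x ∈ A})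
            (lt_of_le_of_lt h4 (mem_range.1 hn)) ⟨h3, h5⟩
    _ = ∑' n, μ (D n ∩ A) := by
        rw [lintegral_tsum fun n => (measurable_one.indicator (hD n)).aemeasurable]
        refine tsum_congr fun n => ?_
        rw [lintegral_indicator_one (hD n), Measure.restrict_apply (hD n)]
    _ ≤ 1 := by
        refine ENNReal.summable.tsum_le_of_sum_range_le fun K => ?_
        exact le_trans (le_trans le_self_add (h2 K).le) prob_le_one

lemma meas_append [Countable α] [MeasurableSpace Y] {f g : Y → List α} (hf : Measurable f)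
    (hg : Measurable g) : Measurable fun y => f y ++ g y :=
  (measurable_of_countable fun p : List α × List α => p.1 ++ p.2).comp (hf.prodMk hg)

lemma measurable_name [Countable α] [MeasurableSpace X] {T : X → X} (hT : Measurable T)
    {a : X → ℕ} (ha : Measurable a) (e : ℕ → α) :
    Measurable fun p : X × ℕ => name (fun z => e (a z)) T p.1 p.2 := by
  refine measurable_from_prod_countable_left fun R => ?_
  induction R with
  | zero => exact measurable_const
  | succ R ih =>
    simp only [name_add]
    refine meas_append ih ?_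
    exact (measurable_of_countable fun n : ℕ => [e n]).comp (ha.comp (hT.iterate R))

lemma emit_succ (w : Y → List α) (S : Y → Y) (M : ℕ) (y : Y) :
    emit w S (M + 1) y = emit w S M y ++ w (S^[M] y) := by
  simp [emit, List.range_succ]

lemma measurable_emit [Countable α] [MeasurableSpace Y] {w : Y → List α} (hw : Measurable w)
    {S : Y → Y} (hS : Measurable S) (M : ℕ) : Measurable (emit w S M) := by
  induction M with
  | zero => exact measurable_const
  | succ M ih =>
    have : emit w S (M + 1) = fun y => emit w S M y ++ w (S^[M] y) := funext (emit_succ w S M)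
    rw [this]
    exact meas_append ih (hw.comp (hS.iterate M))

lemma length_emit_le {w : Y → List α} {l : ℕ} (hw : ∀ y, (w y).length ≤ l) (S : Y → Y) (M : ℕ)
    (y : Y) : (emit w S M y).length ≤ M * l := by
  induction M with
  | zero => simp [emit]
  | succ M ih =>
    rw [emit_succ, List.length_append, Nat.succ_mul]
    exact Nat.add_le_add ih (hw _)

lemma ed_emit_le (w w' : Y → List α) (S S' : Y → Y) (M : ℕ) (y : Y) :
    ed (emit w S M y) (emit w' S' M y) ≤ ∑ i ∈ range M, ed (w (S^[i] y)) (w' (S'^[i] y)) := by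
  induction M with
  | zero => simp [emit, ed_self]
  | succ M ih =>
    rw [emit_succ, emit_succ, sum_range_succ]
    exact (ed_append_le _ _ _ _).trans (by omega)

open Classical in
lemma emit_eq_name (a : X → α) (T : X → X) (A : Set X) (S : Y → Y) (B : Set Y) (φ : Y → X)
    {y : Y} (hy : y ∈ B)
    (hg : ∀ i, S^[i] y ∈ B → φ (induced S B (S^[i] y)) = induced T A (φ (S^[i] y)) ∧
      1 ≤ retTime T A (φ (S^[i] y))) (M : ℕ) :
    ∃ R, emit (fun z => if z ∈ B then name a T (φ z) (retTime T A (φ z)) else []) S M y =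
      name a T (φ y) R ∧ ((range M).filter fun i => S^[i] y ∈ B).card ≤ R := by
  suffices h : ∃ R, emit (fun z => if z ∈ B then name a T (φ z) (retTime T A (φ z)) else []) S M y =
      name a T (φ y) R ∧ ((range M).filter fun i => S^[i] y ∈ B).card ≤ R ∧
      ∀ n, M ≤ n → S^[n] y ∈ B → (∀ i, M ≤ i → i < n → S^[i] y ∉ B) →
        φ (S^[n] y) = T^[R] (φ y) by
    obtain ⟨R, h1, h2, _⟩ := h
    exact ⟨R, h1, h2⟩
  induction M with
  | zero =>
    refine ⟨0, rfl, by simp, fun n _ _ h => ?_⟩
    rcases Nat.eq_zero_or_pos n with rfl | hn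
    · rfl
    · exact absurd hy (h 0 le_rfl hn)
  | succ M ih =>
    obtain ⟨R, h1, h2, h3⟩ := ih
    rw [emit_succ, h1, range_add_one, filter_insert]
    by_cases hB : S^[M] y ∈ B
    · have h4 := h3 M le_rfl hB fun i h5 h6 => absurd h5 (by omega)
      obtain ⟨h5, h6⟩ := hg M hB
      refine ⟨R + retTime T A (φ (S^[M] y)), ?_, ?_, fun n hn hnB hmin => ?_⟩
      · rw [if_pos hB, name_add, ← h4]
      · rw [if_pos hB]
        exact (card_insert_le _ _).trans (by omega)
      · have h7 : retTime S B (S^[M] y) = n - M := by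
          have hmem : n - M ∈ {j | 1 ≤ j ∧ S^[j] (S^[M] y) ∈ B} := by
            refine ⟨by omega, ?_⟩
            rwa [← Function.iterate_add_apply, Nat.sub_add_cancel (by omega)]
          refine le_antisymm (Nat.sInf_le hmem) (not_lt.1 fun h8 => ?_)
          obtain ⟨h9, h10⟩ := Nat.sInf_mem (s := {j | 1 ≤ j ∧ S^[j] (S^[M] y) ∈ B}) ⟨_, hmem⟩
          rw [← Function.iterate_add_apply] at h10
          unfold retTime at h8
          exact hmin _ (by omega) (by omega) h10
        unfold induced at h5
        rw [h7, ← Function.iterate_add_apply, Nat.sub_add_cancel (by omega)] at h5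
        rw [h5, add_comm R, Function.iterate_add_apply, ← h4]
    · refine ⟨R, by rw [if_neg hB, List.append_nil], by rw [if_neg hB]; exact h2,
        fun n hn hnB hmin => h3 n (by omega) hnB fun i h5 h6 => ?_⟩
      rcases h5.eq_or_lt with rfl | h7
      · exact hB
      · exact hmin i h7 h6

end Pool.Agent.Lib.MP_1df8f0_an
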