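import Pool.Agent.Lib.MP_1df8f0_an.Kak1

/-!
A factor map between induced systems forces a capture of the tower words.
-/

open Finset MeasureTheory Filter Topology ProbabilityTheory
open scoped ENNReal

noncomputable section

namespace Pool.Agent.Lib.MP_1df8f0_an

variable {α X Y : Type}

open Classical in
lemma visits_le [MeasurableSpace Y] {ν : Measure Y} [IsProbabilityMeasure ν] {S : Y → Y}
    (hS : MeasurePreserving S ν ν) {B : Set Y} (hB : MeasurableSet B) (M L : ℕ) :
    (M : ℝ≥0∞) * ν {y | y ∈ B ∧ ((range M).filter fun i => S^[i] y ∈ B).card < L} ≤ L := by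
  set E := {y | y ∈ B ∧ ((range M).filter fun i => S^[i] y ∈ B).card < L} with hEdef
  have hE : MeasurableSet E := by
    refine hB.inter (s₂ := {y | ((range M).filter fun i => S^[i] y ∈ B).card < L}) ?_
    refine measurableSet_lt (f := fun y => ((range M).filter fun i => S^[i] y ∈ B).card) ?_
      measurable_const
    simp only [card_filter]
    refine Finset.measurable_sum _ fun i _ => ?_
    exact Measurable.ite (hS.measurable.iterate i hB) measurable_const measurable_const
  have hpt : ∀ y, ((range M).filter fun i => S^[i] y ∈ E).card ≤ L := by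
    intro y
    rcases ((range M).filter fun i => S^[i] y ∈ E).eq_empty_or_nonempty with h | h
    · simp [h]
    · have h1 := (mem_filter.1 (min'_mem _ h)).2
      set i0 := ((range M).filter fun i => S^[i] y ∈ E).min' h with hi0
      refine le_trans (card_le_card_of_injOn (fun i => i - i0) ?_ ?_) h1.2.le
      · intro i hi
        have hi' := mem_filter.1 (mem_coe.1 hi)
        have h2 : i0 ≤ i := min'_le _ _ (mem_coe.1 hi)
        refine mem_coe.2 (mem_filter.2 ⟨mem_range.2 ?_, ?_⟩)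
        · have := mem_range.1 hi'.1
          beta_reduce
          omega
        · beta_reduce
          rw [← Function.iterate_add_apply, Nat.sub_add_cancel h2]
          exact hi'.2.1
      · intro i hi j hj hij
        have h2 : i0 ≤ i := min'_le _ _ (mem_coe.1 hi)
        have h3 : i0 ≤ j := min'_le _ _ (mem_coe.1 hj)
        simp only at hij
        omega
  calc (M : ℝ≥0∞) * ν E = ∑ i ∈ range M, ∫⁻ y, (S^[i] ⁻¹' E).indicator 1 y ∂ν := by
        rw [sum_congr rfl (g := fun _ => ν E)]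
        · simp
        · intro i _
          rw [lintegral_indicator_one (hS.measurable.iterate i hE),
            (hS.iterate i).measure_preimage hE.nullMeasurableSet]
    _ = ∫⁻ y, ∑ i ∈ range M, (S^[i] ⁻¹' E).indicator 1 y ∂ν :=
        (lintegral_finsetSum _ fun i _ =>
          measurable_one.indicator (hS.measurable.iterate i hE)).symm
    _ ≤ ∫⁻ _y, (L : ℝ≥0∞) ∂ν := by
        refine lintegral_mono fun y => ?_
        refine le_trans (le_of_eq ?_) (Nat.cast_le.2 (hpt y))
        rw [← sum_boole]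
        exact sum_congr rfl fun i _ => by simp [Set.indicator_apply]
    _ = L := by simp

lemma orbit_close [PseudoMetricSpace Y] {S S' : Y → Y} {L N δ : ℝ} (hN : 1 ≤ N) (hL : L + 1 ≤ N)
    (hS : ∀ y y', dist (S y) (S y') ≤ L * dist y y') (hδ : ∀ y, dist (S y) (S' y) ≤ δ) (y : Y)
    (i : ℕ) : dist (S^[i] y) (S'^[i] y) ≤ δ * N ^ i := by
  have h0 : 0 ≤ δ := dist_nonneg.trans (hδ y)
  induction i with
  | zero => simpa using h0
  | succ i ih =>
    rw [Function.iterate_succ_apply', Function.iterate_succ_apply']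
    have h1 := dist_triangle (S (S^[i] y)) (S (S'^[i] y)) (S' (S'^[i] y))
    have h2 := hS (S^[i] y) (S'^[i] y)
    have h3 := hδ (S'^[i] y)
    have h4 : 1 ≤ N ^ i := one_le_pow₀ hN
    have h5 : L * dist (S^[i] y) (S'^[i] y) ≤ (N - 1) * (δ * N ^ i) :=
      (mul_le_mul_of_nonneg_right (by linarith) dist_nonneg).trans
        (mul_le_mul_of_nonneg_left ih (by linarith))
    rw [pow_succ]
    nlinarith

lemma IsTower.index_le {P : Params} [MeasurableSpace X] {μ : Measure X} {T : X → X}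
    {c : ℕ → X → ℕ × ℕ} (H : IsTower P μ T c) (k I n : ℕ) (hI : I < P.s k) (hh : 0 < P.h k) :
    μ {x | (c k (T^[n] x)).1 = I} ≤ ((P.s k : ℝ≥0∞))⁻¹ := by
  have h1 : {x | (c k (T^[n] x)).1 = I} = T^[n] ⁻¹' {x | (c k x).1 = I} := rfl
  have h2 : MeasurableSet {x | (c k x).1 = I} := (H.meas k).fst (measurableSet_singleton I)
  rw [h1, (H.mp.iterate n).measure_preimage h2.nullMeasurableSet]
  calc μ {x | (c k x).1 = I} ≤ μ (⋃ p ∈ range (P.h k), c k ⁻¹' {(I, p)}) := by
        refine measure_mono_ae ?_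
        filter_upwards [H.mem k] with x hx h3
        exact Set.mem_biUnion (mem_coe.2 (mem_range.2 hx.2)) (Prod.ext h3 rfl)
    _ ≤ ∑ p ∈ range (P.h k), μ (c k ⁻¹' {(I, p)}) := measure_biUnion_finset_le _ _
    _ = ∑ _p ∈ range (P.h k), (((P.s k * P.h k : ℕ) : ℝ≥0∞))⁻¹ :=
        sum_congr rfl fun p hp => H.unif k I p hI (mem_range.1 hp)
    _ = _ := by
        have a1 : (P.h k : ℝ≥0∞) ≠ 0 := by exact_mod_cast hh.ne'
        have a2 : (P.h k : ℝ≥0∞) ≠ ⊤ := ENNReal.natCast_ne_top _
        rw [sum_const, card_range, nsmul_eq_mul, Nat.cast_mul,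
          ENNReal.mul_inv (Or.inr a2) (Or.inr a1), mul_left_comm, ENNReal.mul_inv_cancel a1 a2,
          mul_one]

lemma restrict_eq_smul_cond [MeasurableSpace Y] (ν : Measure Y) [IsFiniteMeasure ν] {B : Set Y}
    (hB : 0 < ν B) : ν.restrict B = ν B • cond ν B := by
  rw [ProbabilityTheory.cond, smul_smul, ENNReal.mul_inv_cancel hB.ne' (measure_ne_top _ _),
    one_smul]

theorem kak {P : Params} [MeasurableSpace X] {μ : Measure X} [IsProbabilityMeasure μ]
    {T : X → X} {c : ℕ → X → ℕ × ℕ} (H : IsTower P μ T c) (hs : ∀ k, 1 ≤ P.s k)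
    (hm : ∀ k, 1 ≤ P.m k) [Countable α] (e : ℕ → α) [PseudoMetricSpace Y] [MeasurableSpace Y]
    {ν : Measure Y} [IsProbabilityMeasure ν] {S : Y → Y} (hS : MeasurePreserving S ν ν) (L : ℝ)
    (hL : ∀ y y', dist (S y) (S y') ≤ L * dist y y') (𝒲 : ℕ → Y → List α)
    (h𝒲m : ∀ d, Measurable (𝒲 d))
    (h𝒲 : ∀ w : Y → List α, Measurable w → ∫⁻ y, ((w y).length : ℝ≥0∞) ∂ν ≠ ⊤ →
      ∀ ε : ℝ≥0∞, 0 < ε → ∃ (d l : ℕ) (η : ℝ), 0 < η ∧ (∀ y, (𝒲 d y).length ≤ l) ∧
        ∃ err : Y → ℝ≥0∞, Measurable err ∧ ∫⁻ y, err y ∂ν ≤ ε ∧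
          ∀ y y', dist y y' ≤ η → ((ed (w y) (𝒲 d y') : ℕ) : ℝ≥0∞) ≤ err y)
    (hF : InducedFactor μ T ν S) :
    ∃ d C N : ℕ, 1 ≤ C ∧ 2 ≤ N ∧ ∀ k, ∀ S' : Y → Y, Measurable S' →
      (∀ y, dist (S y) (S' y) ≤ (1 / (N : ℝ)) ^ (C * P.h k + 1)) →
      Captures P e k N (ν.map (emit (𝒲 d) S' (C * P.h k))) := by
  classical
  obtain ⟨A, B, φ, hA, hB, hA0, hB0, hφ, hint⟩ := hF
  have hres := restrict_eq_smul_cond ν hB0
  have hae : ∀ {p : Y → Prop}, (∀ᵐ y ∂(cond ν B), p y) → ∀ᵐ y ∂ν, y ∈ B → p y := by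
    intro p hp
    rw [← ae_restrict_iff' hB, hres]
    exact Measure.ae_smul_measure hp _
  have haeX : ∀ {p : X → Prop}, (∀ᵐ x ∂μ, x ∈ A → p x) → ∀ᵐ y ∂ν, y ∈ B → p (φ y) := by
    intro p hp
    refine hae (hφ.quasiMeasurePreserving.ae (p := p) ?_)
    rw [← ae_restrict_iff' hA] at hp
    exact Measure.ae_smul_measure hp _
  let a : X → α := fun z => e (c 0 z).1
  let w : Y → List α := fun z => if z ∈ B then name a T (φ z) (retTime T A (φ z)) else []
  have hret : Measurable (retTime T A) := measurable_retTime H.mp.measurable hA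
  have hw : Measurable w := by
    refine Measurable.ite hB ?_ measurable_const
    exact (measurable_name H.mp.measurable (H.meas 0).fst e).comp
      (hφ.measurable.prodMk (hret.comp hφ.measurable))
  have hwint : ∫⁻ y, ((w y).length : ℝ≥0∞) ∂ν ≠ ⊤ := by
    have h1 : (fun y => ((w y).length : ℝ≥0∞)) =
        B.indicator fun y => (retTime T A (φ y) : ℝ≥0∞) := by
      funext y
      by_cases hy : y ∈ B <;> simp [w, hy, name]
    have h2 : Measurable fun x => (retTime T A x : ℝ≥0∞) :=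
      (measurable_of_countable fun n : ℕ => (n : ℝ≥0∞)).comp hret
    rw [h1, lintegral_indicator hB, hres, lintegral_smul_measure, hφ.lintegral_comp h2,
      ProbabilityTheory.cond, lintegral_smul_measure]
    exact ENNReal.mul_ne_top (measure_ne_top _ _) (ENNReal.mul_ne_top
      (ENNReal.inv_ne_top.2 hA0.ne') (ne_top_of_le_ne_top ENNReal.one_ne_top (kac_le H.mp hA)))
  have hβ : 0 < ν.real B := ENNReal.toReal_pos hB0.ne' (measure_ne_top _ _)
  have hα : 0 < μ.real A := ENNReal.toReal_pos hA0.ne' (measure_ne_top _ _)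
  obtain ⟨C, hC⟩ := exists_nat_ge (8 / ν.real B)
  have hC0 : (0 : ℝ) < C := lt_of_lt_of_le (by positivity) hC
  obtain ⟨d, l, η, hη, hl, err, herr, hierr, hed⟩ := h𝒲 w hw hwint
    (ENNReal.ofReal (ν.real B / (16 * C))) (ENNReal.ofReal_pos.2 (by positivity))
  obtain ⟨N, hN⟩ := exists_nat_ge (max (max (max 2 (L + 1)) (max (1 / η) (C * l)))
    (max (1 / μ.real A) (1 / ν.real B)))
  simp only [max_le_iff] at hN
  obtain ⟨⟨⟨hN1, hN2⟩, hN3, hN4⟩, hN5, hN6⟩ := hN
  have hN0 : (0 : ℝ) < N := by linarith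
  refine ⟨d, C, N, by exact_mod_cast hC0, by exact_mod_cast hN1, fun k S' hS' hclose => ?_⟩
  have hh := P.h_pos hs hm k
  have hhr : (0 : ℝ) < P.h k := by exact_mod_cast hh
  have hsr : (0 : ℝ) < P.s k := by exact_mod_cast hs k
  set M := C * P.h k with hM
  let E1 : Set Y := {y | y ∈ B ∧ ((range M).filter fun i => S^[i] y ∈ B).card < 2 * P.h k}
  let E2 : Set Y := {y | ENNReal.ofReal (P.h k / 4) ≤ ∑ i ∈ range M, err (S^[i] y)}
  let G : ℕ → Set Y := fun I => B ∩ φ ⁻¹' {x | (c k (T^[P.h k] x)).1 = I}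
  have hE1 : ν.real E1 ≤ ν.real B / 4 := by
    have h1 := ENNReal.toReal_mono (ENNReal.natCast_ne_top _) (visits_le hS hB M (2 * P.h k))
    rw [ENNReal.toReal_mul, ENNReal.toReal_natCast, ENNReal.toReal_natCast, hM] at h1
    have h2 : (C : ℝ) * P.h k * ν.real E1 ≤ 2 * P.h k := by
      push_cast at h1
      exact h1
    rw [div_le_iff₀ hβ] at hC
    have h3 : (C : ℝ) * ν.real E1 ≤ 2 := by nlinarith
    have h4 : 0 ≤ ν.real E1 := measureReal_nonneg
    nlinarith
  have hE2 : ν.real E2 ≤ ν.real B / 4 := by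
    have h1 : Measurable fun y => ∑ i ∈ range M, err (S^[i] y) :=
      Finset.measurable_sum _ fun i _ => herr.comp (hS.measurable.iterate i)
    have h2 := mul_meas_ge_le_lintegral₀ (μ := ν) h1.aemeasurable (ENNReal.ofReal (P.h k / 4))
    have h3 : ∫⁻ y, ∑ i ∈ range M, err (S^[i] y) ∂ν ≤ M * ENNReal.ofReal (ν.real B / (16 * C)) := by
      rw [lintegral_finsetSum (f := fun i y => err (S^[i] y)) _
        fun i _ => herr.comp (hS.measurable.iterate i)]
      calc _ ≤ ∑ _i ∈ range M, ENNReal.ofReal (ν.real B / (16 * C)) :=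
            sum_le_sum fun i _ => ((hS.iterate i).lintegral_comp herr).trans_le hierr
        _ = _ := by simp
    have h4 := ENNReal.toReal_mono
      (ENNReal.mul_ne_top (ENNReal.natCast_ne_top _) ENNReal.ofReal_ne_top) (h2.trans h3)
    rw [ENNReal.toReal_mul, ENNReal.toReal_mul, ENNReal.toReal_ofReal (by positivity),
      ENNReal.toReal_ofReal (by positivity), ENNReal.toReal_natCast, hM] at h4
    have h5 : (P.h k : ℝ) / 4 * ν.real E2 ≤ P.h k / 4 * (ν.real B / 4) := by
      refine h4.trans (le_of_eq ?_)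
      push_cast
      field_simp
      norm_num
    exact le_of_mul_le_mul_left h5 (by positivity)
  have hG : ∀ I, I < P.s k → ν.real (G I) ≤ N / P.s k := by
    intro I hI
    have h0 : MeasurableSet {x | (c k (T^[P.h k] x)).1 = I} :=
      ((H.meas k).comp (H.mp.measurable.iterate _)).fst (measurableSet_singleton I)
    have h1 : ν (G I) ≤ (μ A)⁻¹ * ((P.s k : ℝ≥0∞))⁻¹ := by
      calc ν (G I) = ν.restrict B (φ ⁻¹' {x | (c k (T^[P.h k] x)).1 = I}) := by
            rw [Measure.restrict_apply (hφ.measurable h0), Set.inter_comm]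
        _ = ν B * ((μ A)⁻¹ * μ (A ∩ {x | (c k (T^[P.h k] x)).1 = I})) := by
            rw [hres, Measure.smul_apply, hφ.measure_preimage h0.nullMeasurableSet,
              cond_apply hA, smul_eq_mul]
        _ ≤ 1 * ((μ A)⁻¹ * ((P.s k : ℝ≥0∞))⁻¹) := by
            gcongr
            · exact prob_le_one
            · exact (measure_mono Set.inter_subset_right).trans (H.index_le k I _ hI hh)
        _ = _ := one_mul _
    have h2 := ENNReal.toReal_mono (ENNReal.mul_ne_top (ENNReal.inv_ne_top.2 hA0.ne')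
      (ENNReal.inv_ne_top.2 (by have := hs k; exact_mod_cast (by omega)))) h1
    rw [ENNReal.toReal_mul, ENNReal.toReal_inv, ENNReal.toReal_inv, ENNReal.toReal_natCast] at h2
    refine le_trans h2 ?_
    rw [div_eq_mul_inv]
    refine mul_le_mul_of_nonneg_right ?_ (by positivity)
    rw [one_div] at hN5
    exact hN5
  have hgood1 : ∀ᵐ y ∂ν, ∀ i, S^[i] y ∈ B →
      φ (induced S B (S^[i] y)) = induced T A (φ (S^[i] y)) ∧ 1 ≤ retTime T A (φ (S^[i] y)) := by
    refine ae_all_iff.2 fun i => (hS.iterate i).quasiMeasurePreserving.ae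
      (p := fun z => z ∈ B → φ (induced S B z) = induced T A (φ z) ∧ 1 ≤ retTime T A (φ z)) ?_
    have h1 : ∀ᵐ x ∂μ, x ∈ A → 1 ≤ retTime T A x := by
      filter_upwards [H.mp.conservative.ae_mem_imp_frequently_image_mem hA.nullMeasurableSet]
        with x hx hxA
      obtain ⟨n, hn1, hn2⟩ := ((hx hxA).and_eventually (eventually_ge_atTop 1)).exists
      exact (Nat.sInf_mem (s := {n | 1 ≤ n ∧ T^[n] x ∈ A}) ⟨n, hn2, hn1⟩).1
    filter_upwards [hae hint, haeX h1] with z h2 h3 hz
    exact ⟨h2 hz, h3 hz⟩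
  have hgood2 := haeX ((H.word_factor e).mono fun x hx _ => hx k)
  have hem := measurable_emit (h𝒲m d) hS' M
  have hnear : ∀ I, ν.real (G I \ (E1 ∪ E2)) ≤ (ν.map (emit (𝒲 d) S' M)).real
      (Near (P.word e k I) (N * P.h k) ((P.h k : ℝ) / 4)) := by
    intro I
    rw [map_measureReal_apply hem MeasurableSet.of_discrete]
    refine ENNReal.toReal_mono (measure_ne_top _ _) (measure_mono_ae ?_)
    filter_upwards [hgood1, hgood2] with y h1 h2 hy
    obtain ⟨⟨hyB, hyI⟩, hyE⟩ := hy
    rw [Set.mem_union, not_or] at hyE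
    refine ⟨(length_emit_le hl S' M y).trans ?_, ?_⟩
    · have : C * l ≤ N := by exact_mod_cast hN4
      calc M * l = C * l * P.h k := by rw [hM]; ring
        _ ≤ _ := Nat.mul_le_mul_right _ this
    · obtain ⟨R, hR1, hR2⟩ := emit_eq_name a T A S B φ hyB h1 M
      have h3 : 2 * P.h k ≤ R := le_trans (not_lt.1 fun h => hyE.1 ⟨hyB, h⟩) hR2
      have h4 := (h2 hyB).2 R h3
      have h5 : (c k (T^[P.h k] (φ y))).1 = I := hyI
      rw [h5, ← hR1] at h4
      obtain ⟨V, hV1, hV2⟩ := ed_factor h4 (emit (𝒲 d) S' M y)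
      refine ⟨V, hV1, ?_⟩
      have h6 : ((ed (P.word e k I) V : ℕ) : ℝ≥0∞) ≤ ∑ i ∈ range M, err (S^[i] y) := by
        refine le_trans (Nat.cast_le.2 (hV2.trans (ed_emit_le w (𝒲 d) S S' M y))) ?_
        rw [Nat.cast_sum]
        refine sum_le_sum fun i hi => hed _ _ ?_
        refine (orbit_close (by linarith) hN2 hL hclose y i).trans ?_
        calc (1 / (N : ℝ)) ^ (M + 1) * (N : ℝ) ^ i ≤ (1 / (N : ℝ)) ^ (M + 1) * (N : ℝ) ^ M :=
              mul_le_mul_of_nonneg_left
                (pow_le_pow_right₀ (by linarith) (mem_range.1 hi).le) (by positivity)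
          _ = 1 / N := by
              rw [pow_succ, mul_right_comm, ← mul_pow, one_div_mul_cancel hN0.ne', one_pow,
                one_mul]
          _ ≤ η := by
              rw [div_le_iff₀ hN0]
              rw [div_le_iff₀ hη] at hN3
              linarith
      have h7 := h6.trans_lt (not_le.1 hyE.2)
      rw [← ENNReal.ofReal_natCast, ENNReal.ofReal_lt_ofReal_iff (by positivity)] at h7
      exact h7
  have hsum : ν.real B / 2 ≤ ∑ I ∈ range (P.s k), ν.real (G I \ (E1 ∪ E2)) := by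
    have h1 : ν.real B ≤ ν.real ((⋃ I ∈ range (P.s k), G I \ (E1 ∪ E2)) ∪ (E1 ∪ E2)) := by
      refine ENNReal.toReal_mono (measure_ne_top _ _) (measure_mono_ae ?_)
      filter_upwards [hgood2] with y h2 hy
      by_cases h3 : y ∈ E1 ∪ E2
      · exact Or.inr h3
      · exact Or.inl (Set.mem_biUnion (mem_coe.2 (mem_range.2 (h2 hy).1)) ⟨⟨hy, rfl⟩, h3⟩)
    have h2 := measureReal_union_le (μ := ν) (⋃ I ∈ range (P.s k), G I \ (E1 ∪ E2)) (E1 ∪ E2)
    have h3 := measureReal_union_le (μ := ν) E1 E2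
    have h4 := measureReal_biUnion_finset_le (μ := ν) (range (P.s k)) fun I => G I \ (E1 ∪ E2)
    linarith
  unfold Captures
  calc (P.s k : ℝ) / (2 * (N : ℝ) ^ 2) ≤ P.s k / N * (ν.real B / 2) := by
        have h1 : 1 / (N : ℝ) ≤ ν.real B := by
          rw [div_le_iff₀ hN0]
          rw [div_le_iff₀ hβ] at hN6
          linarith
        calc (P.s k : ℝ) / (2 * (N : ℝ) ^ 2) = P.s k / N * (1 / N / 2) := by field_simp
          _ ≤ _ := by gcongr
    _ ≤ ∑ I ∈ range (P.s k), P.s k / N * ν.real (G I \ (E1 ∪ E2)) := by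
        rw [← mul_sum]
        gcongr
    _ ≤ _ := by
        refine sum_le_sum fun I hI => le_min ?_ ?_
        · have h1 : ν.real (G I \ (E1 ∪ E2)) ≤ N / P.s k :=
            (measureReal_mono Set.sdiff_subset).trans (hG I (mem_range.1 hI))
          calc _ ≤ (P.s k : ℝ) / N * (N / P.s k) := by gcongr
            _ = 1 := by field_simp
        · exact mul_le_mul_of_nonneg_left (hnear I) (by positivity)

end Pool.Agent.Lib.MP_1df8f0_an
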