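import Pool.Agent.Lib.MP_1df8f0_an.Edit
import Pool.Agent.Lib.MP_1df8f0_an.Once

/-!
Cutting and stacking on the unit interval.
-/

open MeasureTheory Filter Topology
open scoped ENNReal symmDiff ContDiff unitInterval

noncomputable section

namespace Pool.Agent.Lib.MP_1df8f0_an

/-- Number of cells of level `k`. -/
def towerN (P : Params) (k : ℕ) : ℕ := P.s k * P.h k

/-- The position of a level `k + 1` cell inside the level `k` cell that contains it. -/
def towerRem (P : Params) (k : ℕ) (c : ℕ × ℕ) : ℕ := c.1 * P.m k + c.2 / P.h k % P.m k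

/-- The number of a cell. -/
def towerEnc (P : Params) : ℕ → ℕ × ℕ → ℕ
  | 0, c => c.1
  | k + 1, c => towerEnc P k (P.pr k c) * (P.s (k + 1) * P.m k) + towerRem P k c

/-- The cells of level `k`. -/
def towerV (P : Params) (k : ℕ) (c : ℕ × ℕ) : Prop := c.1 < P.s k ∧ c.2 < P.h k

open Classical in
/-- The cell with a given number. -/
def towerDec (P : Params) (k n : ℕ) : ℕ × ℕ :=
  if h : ∃ c, towerV P k c ∧ towerEnc P k c = n then h.choose else (0, 0)

/-- The number of the interval that contains `x`. -/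
def towerIdx (P : Params) (k : ℕ) (x : I) : ℕ := ⌊(towerN P k : ℝ) * (x : ℝ)⌋₊

/-- The cell that contains `x`. -/
def towerC (P : Params) (k : ℕ) (x : I) : ℕ × ℕ := towerDec P k (towerIdx P k x)

/-- The hypotheses on the parameters. -/
structure TowerOK (P : Params) : Prop where
  hs : ∀ k, 2 ≤ P.s k
  hm : ∀ k, 1 ≤ P.m k

variable {P : Params}

theorem tower_h_ge (H : TowerOK P) (k : ℕ) : k + 1 ≤ P.h k := by
  induction k with
  | zero => simp [Params.h]
  | succ k ih =>
    rw [Params.h]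
    have h1 : P.h k ≤ P.m k * P.h k := Nat.le_mul_of_pos_left _ (H.hm k)
    have h2 : 2 * (P.m k * P.h k) ≤ P.s k * (P.m k * P.h k) := Nat.mul_le_mul_right _ (H.hs k)
    omega

theorem tower_h_pos (H : TowerOK P) (k : ℕ) : 0 < P.h k := lt_of_lt_of_le k.succ_pos (tower_h_ge H k)

theorem tower_s_pos (H : TowerOK P) (k : ℕ) : 0 < P.s k := lt_of_lt_of_le two_pos (H.hs k)

theorem tower_N_pos (H : TowerOK P) (k : ℕ) : 0 < towerN P k :=
  Nat.mul_pos (tower_s_pos H k) (tower_h_pos H k)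

theorem tower_N_ge (H : TowerOK P) (k : ℕ) : k + 1 ≤ towerN P k :=
  (tower_h_ge H k).trans (Nat.le_mul_of_pos_left _ (tower_s_pos H k))

theorem tower_N_succ (k : ℕ) : towerN P (k + 1) = towerN P k * (P.s (k + 1) * P.m k) := by
  simp only [towerN, Params.h]
  ring

theorem tower_q_pos (H : TowerOK P) (k : ℕ) : 0 < P.s (k + 1) * P.m k :=
  Nat.mul_pos (tower_s_pos H _) (H.hm k)

theorem tower_pr_V (H : TowerOK P) (k : ℕ) (c : ℕ × ℕ) : towerV P k (P.pr k c) :=
  ⟨Nat.mod_lt _ (tower_s_pos H k), Nat.mod_lt _ (tower_h_pos H k)⟩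

theorem tower_rem_lt (H : TowerOK P) {k : ℕ} {c : ℕ × ℕ} (hc : towerV P (k + 1) c) :
    towerRem P k c < P.s (k + 1) * P.m k := by
  have h1 : c.2 / P.h k % P.m k < P.m k := Nat.mod_lt _ (H.hm k)
  have h2 : (c.1 + 1) * P.m k ≤ P.s (k + 1) * P.m k := Nat.mul_le_mul_right _ hc.1
  rw [towerRem]
  nlinarith

theorem tower_enc_lt (H : TowerOK P) {k : ℕ} {c : ℕ × ℕ} (hc : towerV P k c) :
    towerEnc P k c < towerN P k := by
  induction k generalizing c with
  | zero => simpa [towerEnc, towerN, Params.h] using hc.1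
  | succ k ih =>
    have h1 := ih (tower_pr_V H k c)
    have h2 := tower_rem_lt H hc
    have h3 : (towerEnc P k (P.pr k c) + 1) * (P.s (k + 1) * P.m k) ≤
        towerN P k * (P.s (k + 1) * P.m k) := Nat.mul_le_mul_right _ h1
    rw [towerEnc, tower_N_succ]
    nlinarith

theorem tower_enc_div (H : TowerOK P) {k : ℕ} {c : ℕ × ℕ} (hc : towerV P (k + 1) c) :
    towerEnc P (k + 1) c / (P.s (k + 1) * P.m k) = towerEnc P k (P.pr k c) := by
  rw [towerEnc, Nat.add_comm, Nat.add_mul_div_right _ _ (tower_q_pos H k),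
    Nat.div_eq_of_lt (tower_rem_lt H hc), Nat.zero_add]

theorem tower_enc_inj (H : TowerOK P) {k : ℕ} {c c' : ℕ × ℕ} (hc : towerV P k c)
    (hc' : towerV P k c') (h : towerEnc P k c = towerEnc P k c') : c = c' := by
  induction k generalizing c c' with
  | zero =>
    have h1 := hc.2
    have h2 := hc'.2
    simp only [Params.h] at h1 h2
    exact Prod.ext h (by omega)
  | succ k ih =>
    have h1 : towerEnc P k (P.pr k c) = towerEnc P k (P.pr k c') := by
      rw [← tower_enc_div H hc, ← tower_enc_div H hc', h]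
    have h2 : towerRem P k c = towerRem P k c' := by
      rw [towerEnc, towerEnc, h1] at h
      omega
    have h3 := ih (tower_pr_V H k c) (tower_pr_V H k c') h1
    have hm := H.hm k
    have hr : ∀ d : ℕ × ℕ, towerRem P k d / P.m k = d.1 ∧
        towerRem P k d % P.m k = d.2 / P.h k % P.m k := fun d => by
      have h4 : d.2 / P.h k % P.m k < P.m k := Nat.mod_lt _ hm
      constructor
      · rw [towerRem, Nat.add_comm, Nat.add_mul_div_right _ _ hm, Nat.div_eq_of_lt h4, Nat.zero_add]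
      · rw [towerRem, Nat.add_comm, Nat.add_mul_mod_self_right, Nat.mod_mod]
    have e1 : c.1 = c'.1 := by rw [← (hr c).1, ← (hr c').1, h2]
    have e2 : c.2 / P.h k % P.m k = c'.2 / P.h k % P.m k := by rw [← (hr c).2, ← (hr c').2, h2]
    have e3 : c.2 % P.h k = c'.2 % P.h k := congrArg Prod.snd h3
    have e4 := congrArg Prod.fst h3
    simp only [Params.pr, down] at e4
    rw [e1, e2] at e4
    have ht : ∀ d : ℕ × ℕ, towerV P (k + 1) d → d.2 / (P.m k * P.h k) < P.s k := fun d hd =>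
      (Nat.div_lt_iff_lt_mul (Nat.mul_pos hm (tower_h_pos H k))).2 hd.2
    have e5 : c.2 / (P.m k * P.h k) = c'.2 / (P.m k * P.h k) :=
      Nat.ModEq.eq_of_lt_of_lt (Nat.ModEq.add_left_cancel' _ e4) (ht c hc) (ht c' hc')
    rw [Nat.mul_comm, ← Nat.div_div_eq_div_mul, ← Nat.div_div_eq_div_mul] at e5
    have e6 : c.2 / P.h k = c'.2 / P.h k := by
      rw [← Nat.div_add_mod (c.2 / P.h k) (P.m k), ← Nat.div_add_mod (c'.2 / P.h k) (P.m k), e5, e2]
    refine Prod.ext e1 ?_
    rw [← Nat.div_add_mod c.2 (P.h k), ← Nat.div_add_mod c'.2 (P.h k), e6, e3]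

theorem tower_enc_surj (H : TowerOK P) {k n : ℕ} (hn : n < towerN P k) :
    ∃ c, towerV P k c ∧ towerEnc P k c = n := by
  have hV : ∀ c, c ∈ Finset.range (P.s k) ×ˢ Finset.range (P.h k) ↔ towerV P k c := fun c => by
    simp [towerV]
  have h := Finset.surjOn_of_injOn_of_card_le
    (s := Finset.range (P.s k) ×ˢ Finset.range (P.h k)) (t := Finset.range (towerN P k))
    (towerEnc P k) (fun c hc => by simpa using tower_enc_lt H ((hV c).1 hc))
    (fun c hc c' hc' h => tower_enc_inj H ((hV c).1 hc) ((hV c').1 hc') h) (by simp [towerN])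
  obtain ⟨c, hc, e⟩ := h (show n ∈ (Finset.range (towerN P k) : Set ℕ) by simpa using hn)
  exact ⟨c, (hV c).1 hc, e⟩

theorem tower_dec_spec (H : TowerOK P) {k n : ℕ} (hn : n < towerN P k) :
    towerV P k (towerDec P k n) ∧ towerEnc P k (towerDec P k n) = n := by
  have h := tower_enc_surj H hn
  rw [towerDec, dif_pos h]
  exact h.choose_spec

theorem tower_dec_enc (H : TowerOK P) {k : ℕ} {c : ℕ × ℕ} (hc : towerV P k c) :
    towerDec P k (towerEnc P k c) = c :=
  tower_enc_inj H (tower_dec_spec H (tower_enc_lt H hc)).1 hc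
    (tower_dec_spec H (tower_enc_lt H hc)).2

theorem tower_idx_lt (H : TowerOK P) (k : ℕ) {x : I} (hx : (x : ℝ) < 1) :
    towerIdx P k x < towerN P k := by
  have h : (0 : ℝ) < towerN P k := by exact_mod_cast tower_N_pos H k
  rw [towerIdx, Nat.floor_lt (mul_nonneg h.le x.2.1)]
  nlinarith

theorem tower_idx_div (H : TowerOK P) (k : ℕ) (x : I) :
    towerIdx P (k + 1) x / (P.s (k + 1) * P.m k) = towerIdx P k x := by
  have h : ((P.s (k + 1) * P.m k : ℕ) : ℝ) ≠ 0 := by exact_mod_cast (tower_q_pos H k).ne'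
  rw [towerIdx, towerIdx, ← Nat.floor_div_natCast, tower_N_succ, Nat.cast_mul (towerN P k)]
  congr 1
  field_simp

theorem tower_C_V (H : TowerOK P) (k : ℕ) {x : I} (hx : (x : ℝ) < 1) :
    towerV P k (towerC P k x) := (tower_dec_spec H (tower_idx_lt H k hx)).1

theorem tower_enc_C (H : TowerOK P) (k : ℕ) {x : I} (hx : (x : ℝ) < 1) :
    towerEnc P k (towerC P k x) = towerIdx P k x := (tower_dec_spec H (tower_idx_lt H k hx)).2

theorem tower_comp (H : TowerOK P) (k : ℕ) {x : I} (hx : (x : ℝ) < 1) :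
    towerC P k x = P.pr k (towerC P (k + 1) x) := by
  refine tower_enc_inj H (tower_C_V H k hx) (tower_pr_V H k _) ?_
  rw [← tower_enc_div H (tower_C_V H _ hx), tower_enc_C H _ hx, tower_enc_C H _ hx,
    tower_idx_div H]

theorem tower_meas_idx (k : ℕ) : Measurable (towerIdx P k) :=
  (measurable_const.mul measurable_subtype_coe).nat_floor

theorem tower_meas_C (k : ℕ) : Measurable (towerC P k) :=
  (measurable_of_countable (towerDec P k)).comp (tower_meas_idx k)

theorem tower_ae_lt : ∀ᵐ x : I, (x : ℝ) < 1 := by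
  have h : ∀ᵐ x : I, x ∉ ({1} : Set I) := compl_mem_ae_iff.2 (measure_singleton _)
  filter_upwards [h] with x hx
  exact lt_of_le_of_ne x.2.2 fun e => hx (Subtype.ext e)

theorem tower_idx_iff (H : TowerOK P) (k n : ℕ) (x : I) :
    towerIdx P k x = n ↔ (x : ℝ) ∈ Set.Ico ((n : ℝ) / towerN P k) ((n + 1 : ℝ) / towerN P k) := by
  have h : (0 : ℝ) < towerN P k := by exact_mod_cast tower_N_pos H k
  rw [towerIdx, Nat.floor_eq_iff (mul_nonneg h.le x.2.1), Set.mem_Ico, div_le_iff₀' h,
    lt_div_iff₀' h]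

theorem tower_vol_cell (H : TowerOK P) {k : ℕ} {c : ℕ × ℕ} (hc : towerV P k c) :
    volume (towerC P k ⁻¹' {c}) = ((towerN P k : ℕ) : ℝ≥0∞)⁻¹ := by
  have h : (0 : ℝ) < towerN P k := by exact_mod_cast tower_N_pos H k
  have hn : (towerEnc P k c : ℝ) + 1 ≤ towerN P k := by exact_mod_cast tower_enc_lt H hc
  have h1 : towerC P k ⁻¹' {c} =ᵐ[volume] towerIdx P k ⁻¹' {towerEnc P k c} := by
    filter_upwards [tower_ae_lt] with x hx
    refine propext ⟨fun e => ?_, fun e => ?_⟩
    · have e' : towerC P k x = c := e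
      show towerIdx P k x = _
      rw [← tower_enc_C H k hx, e']
    · have e' : towerIdx P k x = towerEnc P k c := e
      show towerC P k x = c
      rw [towerC, e', tower_dec_enc H hc]
  rw [measure_congr h1, unitInterval.volume_apply]
  have h2 : Subtype.val '' (towerIdx P k ⁻¹' {towerEnc P k c}) =
      Set.Ico ((towerEnc P k c : ℝ) / towerN P k) ((towerEnc P k c + 1 : ℝ) / towerN P k) := by
    ext y
    constructor
    · rintro ⟨x, hx, rfl⟩
      exact (tower_idx_iff H k _ x).1 hx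
    · intro hy
      have h3 : y ∈ I :=
        ⟨le_trans (by positivity) hy.1, hy.2.le.trans ((div_le_one h).2 hn)⟩
      exact ⟨⟨y, h3⟩, (tower_idx_iff H k _ ⟨y, h3⟩).2 hy, rfl⟩
  rw [h2, Real.volume_Ico, ← sub_div, add_sub_cancel_left, one_div, ENNReal.ofReal_inv_of_pos h,
    ENNReal.ofReal_natCast]

theorem tower_transl {A B : Set I} (a : ℝ) (h : ∀ x ∈ A, ∃ y ∈ B, (y : ℝ) = x + a) :
    volume A ≤ volume B := by
  rw [unitInterval.volume_apply, unitInterval.volume_apply,
    ← measure_preimage_add_right volume a (Subtype.val '' B)]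
  refine measure_mono ?_
  rintro _ ⟨x, hx, rfl⟩
  obtain ⟨y, hy, e⟩ := h x hx
  exact ⟨y, hy, e⟩

/-- A move of the cells that is compatible with the projections. -/
structure TowerMove (P : Params) (τ : ℕ × ℕ → ℕ × ℕ) (p₀ : ℕ → ℕ) : Prop where
  lt : ∀ k, p₀ k < P.h k
  valid : ∀ k c, towerV P k c → c.2 ≠ p₀ k → towerV P k (τ c)
  step : ∀ k c, towerV P (k + 1) c → (P.pr k c).2 ≠ p₀ k →
    c.2 ≠ p₀ (k + 1) ∧ P.pr k (τ c) = τ (P.pr k c) ∧ towerRem P k (τ c) = towerRem P k c
  inj : ∀ k c c', c.2 ≠ p₀ k → c'.2 ≠ p₀ k → τ c = τ c' → c = c'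

/-- The translation amount at level `k`. -/
def towerA (P : Params) (τ : ℕ × ℕ → ℕ × ℕ) (k : ℕ) (x : I) : ℝ :=
  ((towerEnc P k (τ (towerC P k x)) : ℝ) - towerEnc P k (towerC P k x)) / towerN P k

/-- The map defined by a move. -/
def towerT (P : Params) (τ : ℕ × ℕ → ℕ × ℕ) (x : I) : I :=
  Set.projIcc 0 1 zero_le_one ((x : ℝ) + limsup (fun k => towerA P τ k x) atTop)

variable {τ : ℕ × ℕ → ℕ × ℕ} {p₀ : ℕ → ℕ}

theorem tower_meas_T : Measurable (towerT P τ) := by
  refine continuous_projIcc.measurable.comp (measurable_subtype_coe.add (Measurable.limsup ?_))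
  intro k
  exact (measurable_of_countable fun c : ℕ × ℕ =>
    ((towerEnc P k (τ c) : ℝ) - towerEnc P k c) / towerN P k).comp (tower_meas_C k)

theorem tower_stable (H : TowerOK P) (M : TowerMove P τ p₀) {k : ℕ} {x : I} (hx : (x : ℝ) < 1)
    (hg : (towerC P k x).2 ≠ p₀ k) {K : ℕ} (hK : k ≤ K) :
    (towerC P K x).2 ≠ p₀ K ∧ towerA P τ K x = towerA P τ k x := by
  induction K, hK using Nat.le_induction with
  | base => exact ⟨hg, rfl⟩
  | succ K _ ih =>
    have h1 := ih.1
    rw [tower_comp H K hx] at h1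
    obtain ⟨h2, h3, h4⟩ := M.step K _ (tower_C_V H _ hx) h1
    refine ⟨h2, Eq.trans ?_ ih.2⟩
    have h : ((P.s (K + 1) * P.m K : ℕ) : ℝ) ≠ 0 := by exact_mod_cast (tower_q_pos H K).ne'
    have hN : (towerN P K : ℝ) ≠ 0 := by exact_mod_cast (tower_N_pos H K).ne'
    rw [towerA, towerA, towerEnc, towerEnc, h3, h4, ← tower_comp H K hx, tower_N_succ,
      Nat.cast_add, Nat.cast_add, Nat.cast_mul (towerN P K), Nat.cast_mul (towerEnc P K _),
      Nat.cast_mul (towerEnc P K _)]
    field_simp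
    ring

theorem tower_T_spec (H : TowerOK P) (M : TowerMove P τ p₀) {k : ℕ} {x : I} (hx : (x : ℝ) < 1)
    (hg : (towerC P k x).2 ≠ p₀ k) :
    (towerT P τ x : ℝ) = x + towerA P τ k x ∧ (towerT P τ x : ℝ) < 1 ∧
      towerC P k (towerT P τ x) = τ (towerC P k x) := by
  have h : (0 : ℝ) < towerN P k := by exact_mod_cast tower_N_pos H k
  have h1 : limsup (fun K => towerA P τ K x) atTop = towerA P τ k x := by
    rw [limsup_congr (v := fun _ => towerA P τ k x), limsup_const]
    filter_upwards [eventually_ge_atTop k] with K hK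
    exact (tower_stable H M hx hg hK).2
  have hV := M.valid k _ (tower_C_V H k hx) hg
  have hn : (towerEnc P k (τ (towerC P k x)) : ℝ) + 1 ≤ towerN P k := by
    exact_mod_cast tower_enc_lt H hV
  have h2 := (tower_idx_iff H k _ x).1 (tower_enc_C H k hx).symm
  have h3 : (x : ℝ) + towerA P τ k x ∈
      Set.Ico ((towerEnc P k (τ (towerC P k x)) : ℝ) / towerN P k)
        ((towerEnc P k (τ (towerC P k x)) + 1 : ℝ) / towerN P k) := by
    rw [towerA, sub_div]
    have := h2.1
    have := h2.2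
    rw [add_div] at *
    constructor <;> linarith
  have h4 : (x : ℝ) + towerA P τ k x < 1 := h3.2.trans_le ((div_le_one h).2 hn)
  have h5 : (towerT P τ x : ℝ) = x + towerA P τ k x := by
    rw [towerT, h1, Set.projIcc_of_mem _ ⟨le_trans (by positivity) h3.1, h4.le⟩]
  refine ⟨h5, h5 ▸ h4, ?_⟩
  rw [towerC, (tower_idx_iff H k _ _).2 (h5 ▸ h3), tower_dec_enc H hV]

theorem tower_vol_bad (H : TowerOK P) (M : TowerMove P τ p₀) (k : ℕ) :
    volume {x : I | (towerC P k x).2 = p₀ k} ≤ ((k : ℝ≥0∞))⁻¹ := by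
  have h1 : {x : I | (towerC P k x).2 = p₀ k} ≤ᵐ[volume]
      (⋃ i ∈ Finset.range (P.s k), towerC P k ⁻¹' {(i, p₀ k)} : Set I) := by
    filter_upwards [tower_ae_lt] with x hx hb
    exact Set.mem_biUnion (Finset.mem_coe.2 (Finset.mem_range.2 (tower_C_V H k hx).1))
      (Prod.ext rfl hb)
  refine (measure_mono_ae h1).trans ((measure_biUnion_finset_le _ _).trans ?_)
  rw [Finset.sum_congr rfl fun i hi =>
    tower_vol_cell H (c := (i, p₀ k)) ⟨Finset.mem_range.1 hi, M.lt k⟩]
  have hs : (P.s k : ℝ≥0∞) ≠ 0 := by exact_mod_cast (tower_s_pos H k).ne'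
  rw [Finset.sum_const, Finset.card_range, nsmul_eq_mul, towerN, Nat.cast_mul,
    ENNReal.mul_inv (Or.inl hs) (Or.inl (ENNReal.natCast_ne_top _)), ← mul_assoc,
    ENNReal.mul_inv_cancel hs (ENNReal.natCast_ne_top _), one_mul]
  refine ENNReal.inv_le_inv.2 ?_
  exact_mod_cast (Nat.le_succ k).trans (tower_h_ge H k)

theorem tower_ae_good (H : TowerOK P) (M : TowerMove P τ p₀) :
    ∀ᵐ x : I, ∃ k, (towerC P k x).2 ≠ p₀ k := by
  rw [ae_iff]
  refine le_antisymm (ge_of_tendsto' ENNReal.tendsto_inv_nat_nhds_zero fun k => ?_) bot_le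
  refine le_trans (measure_mono fun x hx => ?_) (tower_vol_bad H M k)
  simp only [Set.mem_ofPred_eq, not_exists, not_not] at hx ⊢
  exact hx k

theorem tower_pre_le (H : TowerOK P) (M : TowerMove P τ p₀) {E : Set I} (hE : MeasurableSet E) :
    volume (towerT P τ ⁻¹' E) ≤ volume E := by
  classical
  have key : ∀ k : ℕ, volume (towerT P τ ⁻¹' E) ≤ volume E + ((k : ℝ≥0∞))⁻¹ := by
    intro k
    set G : Finset (ℕ × ℕ) :=
      {c ∈ Finset.range (P.s k) ×ˢ Finset.range (P.h k) | c.2 ≠ p₀ k} with hG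
    have h1 : towerT P τ ⁻¹' E ≤ᵐ[volume]
        ((⋃ c ∈ G, {x : I | (x : ℝ) < 1 ∧ towerC P k x = c ∧ towerT P τ x ∈ E}) ∪
          {x : I | (towerC P k x).2 = p₀ k} : Set I) := by
      filter_upwards [tower_ae_lt] with x hx hb
      by_cases hg : (towerC P k x).2 = p₀ k
      · exact Or.inr hg
      · refine Or.inl (Set.mem_biUnion (x := towerC P k x) ?_ ⟨hx, rfl, hb⟩)
        simpa [hG, hg, towerV] using tower_C_V H k hx
    refine (measure_mono_ae h1).trans ((measure_union_le _ _).trans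
      (add_le_add ((measure_biUnion_finset_le _ _).trans ?_) (tower_vol_bad H M k)))
    have h2 : ∀ c ∈ G, volume {x : I | (x : ℝ) < 1 ∧ towerC P k x = c ∧ towerT P τ x ∈ E} ≤
        volume (towerC P k ⁻¹' {τ c} ∩ E) := by
      intro c hc
      refine tower_transl (((towerEnc P k (τ c) : ℝ) - towerEnc P k c) / towerN P k) ?_
      rintro x ⟨hx, rfl, hb⟩
      obtain ⟨e1, -, e3⟩ := tower_T_spec H M hx (Finset.mem_filter.1 hc).2
      exact ⟨towerT P τ x, ⟨e3, hb⟩, e1⟩
    refine (Finset.sum_le_sum h2).trans ?_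
    rw [← measure_biUnion_finset]
    · exact measure_mono (Set.iUnion₂_subset fun c _ => Set.inter_subset_right)
    · intro c hc c' hc' hne
      refine Set.disjoint_left.2 fun x h h' => hne ?_
      exact M.inj k c c' (Finset.mem_filter.1 hc).2 (Finset.mem_filter.1 hc').2
        (Eq.trans (Eq.symm h.1) h'.1)
    · exact fun c _ => (tower_meas_C k (measurableSet_singleton _)).inter hE
  have h := ENNReal.tendsto_inv_nat_nhds_zero.const_add (volume E)
  rw [add_zero] at h
  exact ge_of_tendsto' h key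

theorem tower_mp (H : TowerOK P) (M : TowerMove P τ p₀) :
    MeasurePreserving (towerT P τ) volume volume := by
  have : IsProbabilityMeasure (Measure.map (towerT P τ) volume) :=
    Measure.isProbabilityMeasure_map tower_meas_T.aemeasurable
  refine ⟨tower_meas_T, Measure.eq_of_le_of_isProbabilityMeasure ?_⟩
  refine Measure.le_iff.2 fun E hE => ?_
  rw [Measure.map_apply tower_meas_T hE]
  exact tower_pre_le H M hE

theorem tower_inv (H : TowerOK P) (M : TowerMove P τ p₀) {τ' : ℕ × ℕ → ℕ × ℕ} {p₁ : ℕ → ℕ}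
    (M' : TowerMove P τ' p₁)
    (h : ∀ k c, towerV P k c → c.2 ≠ p₀ k → (τ c).2 ≠ p₁ k ∧ τ' (τ c) = c) :
    towerT P τ' ∘ towerT P τ =ᵐ[volume] id := by
  filter_upwards [tower_ae_lt, tower_ae_good H M] with x hx ⟨k, hg⟩
  obtain ⟨e1, e2, e3⟩ := tower_T_spec H M hx hg
  obtain ⟨h1, h2⟩ := h k _ (tower_C_V H k hx) hg
  obtain ⟨e4, -, -⟩ := tower_T_spec H M' (k := k) e2 (e3 ▸ h1)
  refine Subtype.ext ?_
  simp only [Function.comp, id]
  rw [e4, e1, towerA, towerA, e3, h2]
  ring

theorem tower_div_succ {p h : ℕ} (hp : p % h + 1 < h) :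
    (p + 1) / h = p / h ∧ (p + 1) % h = p % h + 1 := by
  have h0 : 0 < h := by omega
  have e := Nat.div_add_mod p h
  exact (Nat.div_mod_unique h0).2 ⟨by omega, hp⟩

theorem tower_step_succ (k i p : ℕ) (hp : p % P.h k + 1 < P.h k) :
    P.pr k (i, p + 1) = ((P.pr k (i, p)).1, (P.pr k (i, p)).2 + 1) ∧
      towerRem P k (i, p + 1) = towerRem P k (i, p) := by
  obtain ⟨e1, e2⟩ := tower_div_succ hp
  have e3 : (p + 1) / (P.m k * P.h k) = p / (P.m k * P.h k) := by
    rw [Nat.mul_comm, ← Nat.div_div_eq_div_mul, ← Nat.div_div_eq_div_mul, e1]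
  simp only [Params.pr, down, towerRem, e1, e2, e3, and_self]

theorem tower_h_dvd (k : ℕ) : P.h k ∣ P.h (k + 1) := ⟨P.s k * P.m k, by rw [Params.h]; ring⟩

theorem tower_move_succ (H : TowerOK P) :
    TowerMove P (fun c => (c.1, c.2 + 1)) (fun k => P.h k - 1) where
  lt k := by have := tower_h_pos H k; omega
  valid k c hc h := ⟨hc.1, by have := hc.2; simp only at h ⊢; omega⟩
  step k c hc h := by
    have h1 := (tower_pr_V H k c).2
    have h2 : c.2 % P.h k + 1 < P.h k := by
      simp only [Params.pr, down] at h h1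
      omega
    refine ⟨fun e => ?_, tower_step_succ k c.1 c.2 h2⟩
    have h3 : c.2 + 1 = P.h (k + 1) := by have := hc.2; omega
    have h4 := (tower_div_succ h2).2
    rw [h3, Nat.mod_eq_zero_of_dvd (tower_h_dvd k)] at h4
    omega
  inj k c c' _ _ e := by
    simp only [Prod.mk.injEq] at e
    exact Prod.ext e.1 (by omega)

theorem tower_move_pred (H : TowerOK P) :
    TowerMove P (fun c => (c.1, c.2 - 1)) (fun _ => 0) where
  lt k := tower_h_pos H k
  valid k c hc _ := ⟨hc.1, by have := hc.2; simp only; omega⟩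
  step k c hc h := by
    obtain ⟨i, p⟩ := c
    have h0 : p % P.h k ≠ 0 := h
    rcases p with _ | p
    · simp at h0
    have h1 : p % P.h k + 1 < P.h k := by
      by_contra hn
      have h2 := Nat.mod_lt p (tower_h_pos H k)
      have h3 := Nat.div_add_mod p (P.h k)
      refine h0 (Nat.mod_eq_zero_of_dvd ⟨p / P.h k + 1, ?_⟩)
      rw [Nat.mul_add]
      omega
    obtain ⟨e1, e2⟩ := tower_step_succ (P := P) k i p h1
    refine ⟨Nat.succ_ne_zero p, ?_, e2.symm⟩
    simp only [Nat.add_sub_cancel, e1]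
  inj k c c' h h' e := by
    simp only [Prod.mk.injEq] at e h h'
    exact Prod.ext e.1 (by omega)

theorem tower_h_dvd_le {k K : ℕ} (hK : k ≤ K) : P.h k ∣ P.h K := by
  induction K, hK using Nat.le_induction with
  | base => exact dvd_rfl
  | succ K _ ih => exact ih.trans (tower_h_dvd K)

theorem tower_pos_mod (H : TowerOK P) {k K : ℕ} (hK : k ≤ K) {x : I} (hx : (x : ℝ) < 1) :
    (towerC P k x).2 = (towerC P K x).2 % P.h k := by
  induction K, hK using Nat.le_induction with
  | base => exact (Nat.mod_eq_of_lt (tower_C_V H k hx).2).symm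
  | succ K hK ih =>
    rw [ih, tower_comp H K hx]
    exact Nat.mod_mod_of_dvd _ (tower_h_dvd_le hK)

theorem tower_idx_lift (H : TowerOK P) {k K : ℕ} (hK : k ≤ K) (G : Set ℕ) :
    ∃ G' : Set ℕ, towerIdx P k ⁻¹' G = towerIdx P K ⁻¹' G' := by
  induction K, hK using Nat.le_induction with
  | base => exact ⟨G, rfl⟩
  | succ K _ ih =>
    obtain ⟨G', h⟩ := ih
    refine ⟨{n | n / (P.s (K + 1) * P.m K) ∈ G'}, h.trans ?_⟩
    ext x
    simp [tower_idx_div H]

theorem tower_gen (H : TowerOK P) (E : Set I) (hE : MeasurableSet E) (ε : ℝ≥0∞) (hε : 0 < ε) :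
    ∃ k0, ∀ k, k0 ≤ k → ∃ F : Set (ℕ × ℕ), volume (E ∆ (towerC P k ⁻¹' F)) < ε := by
  set C : Set (Set I) := {S | ∃ (k : ℕ) (G : Set ℕ), S = towerIdx P k ⁻¹' G} with hC
  have hring : IsSetRing C := by
    refine ⟨⟨0, ∅, rfl⟩, ?_, ?_⟩
    · rintro _ _ ⟨k, G, rfl⟩ ⟨k', G', rfl⟩
      obtain ⟨G1, h1⟩ := tower_idx_lift H (le_max_left k k') G
      obtain ⟨G2, h2⟩ := tower_idx_lift H (le_max_right k k') G'
      exact ⟨max k k', G1 ∪ G2, by rw [h1, h2, Set.preimage_union]⟩
    · rintro _ _ ⟨k, G, rfl⟩ ⟨k', G', rfl⟩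
      obtain ⟨G1, h1⟩ := tower_idx_lift H (le_max_left k k') G
      obtain ⟨G2, h2⟩ := tower_idx_lift H (le_max_right k k') G'
      exact ⟨max k k', G1 \ G2, by rw [h1, h2, Set.preimage_sdiff]⟩
  have hgen : (inferInstance : MeasurableSpace I) = MeasurableSpace.generateFrom C := by
    refine le_antisymm ?_ (MeasurableSpace.generateFrom_le ?_)
    · rw [BorelSpace.measurable_eq (α := I), borel_eq_generateFrom_Iio]
      refine MeasurableSpace.generateFrom_le ?_
      rintro _ ⟨a, rfl⟩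
      have e : Set.Iio a = ⋃ k, towerIdx P k ⁻¹' {n | ((n : ℝ) + 1) / towerN P k ≤ a} := by
        ext x
        simp only [Set.mem_Iio, Set.mem_iUnion, Set.mem_preimage, Set.mem_ofPred_eq]
        constructor
        · intro hx
          have hx' : (0 : ℝ) < a - x := sub_pos.2 hx
          obtain ⟨k, hk⟩ := exists_nat_one_div_lt hx'
          refine ⟨k, ?_⟩
          have h1 := ((tower_idx_iff H k _ x).1 rfl).1
          have h2 : (k : ℝ) + 1 ≤ towerN P k := by exact_mod_cast tower_N_ge H k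
          have h3 : (1 : ℝ) / towerN P k ≤ 1 / ((k : ℝ) + 1) := by gcongr
          rw [add_div]
          linarith
        · rintro ⟨k, hk⟩
          exact ((tower_idx_iff H k _ x).1 rfl).2.trans_le hk
      rw [e]
      exact MeasurableSet.iUnion fun k => MeasurableSpace.measurableSet_generateFrom ⟨k, _, rfl⟩
    · rintro _ ⟨k, G, rfl⟩
      exact tower_meas_idx k (Set.to_countable G).measurableSet
  obtain ⟨_, ⟨k0, G, rfl⟩, h⟩ := exists_measure_symmDiff_lt_of_generateFrom_isSetRing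
    (μ := (volume : Measure I)) hring
    ⟨{Set.univ}, Set.countable_singleton _, by
      rintro _ rfl
      exact ⟨0, Set.univ, rfl⟩, by simp⟩ hgen hE hε
  refine ⟨k0, fun k hk => ?_⟩
  obtain ⟨G', h'⟩ := tower_idx_lift H hk G
  refine ⟨towerEnc P k ⁻¹' G', ?_⟩
  rw [h', symmDiff_comm] at h
  refine lt_of_eq_of_lt (measure_congr ?_) h
  filter_upwards [tower_ae_lt] with x hx
  have e : x ∈ towerC P k ⁻¹' (towerEnc P k ⁻¹' G') ↔ x ∈ towerIdx P k ⁻¹' G' := by
    simp only [Set.mem_preimage, tower_enc_C H k hx]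
  refine propext ?_
  show x ∈ E ∆ _ ↔ x ∈ E ∆ _
  rw [Set.mem_symmDiff, Set.mem_symmDiff, e]

theorem exists_tower (P : Params) (hs : ∀ k, 2 ≤ P.s k) (hm : ∀ k, 1 ≤ P.m k) :
    ∃ (T T' : I → I) (c : ℕ → I → ℕ × ℕ), IsTower P volume T c ∧
      MeasurePreserving T' volume volume ∧ T' ∘ T =ᵐ[volume] id ∧ T ∘ T' =ᵐ[volume] id := by
  have H : TowerOK P := ⟨hs, hm⟩
  have M := tower_move_succ H
  have M' := tower_move_pred H
  refine ⟨towerT P _, towerT P _, towerC P, ?_, tower_mp H M', tower_inv H M M' ?_,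
    tower_inv H M' M ?_⟩
  · refine ⟨tower_mp H M, tower_meas_C, fun k i p hi hp => tower_vol_cell H ⟨hi, hp⟩,
      fun k => ?_, fun k => ?_, fun k => ?_, fun k => ?_, tower_gen H⟩
    · filter_upwards [tower_ae_lt] with x hx using tower_C_V H k hx
    · filter_upwards [tower_ae_lt] with x hx using tower_comp H k hx
    · filter_upwards [tower_ae_lt] with x hx hg
      rw [(tower_T_spec H M (k := k) hx (by omega)).2.2]
    · filter_upwards [tower_ae_lt, tower_ae_good H M] with x hx ⟨k', hg⟩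
      have h1 := (tower_stable H M hx hg (le_max_right k k')).1
      obtain ⟨-, e2, e3⟩ := tower_T_spec H M hx h1
      rw [tower_pos_mod H (le_max_left k k') e2, e3, tower_pos_mod H (le_max_left k k') hx,
        Nat.mod_add_mod]
  · intro k c _ _
    exact ⟨Nat.succ_ne_zero _, rfl⟩
  · intro k c hc h
    have := hc.2
    refine ⟨by simp only at h ⊢; omega, Prod.ext rfl (by simp only at h ⊢; omega)⟩

end Pool.Agent.Lib.MP_1df8f0_an
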