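import Pool.Agent.Lib.MP_1df8f0_an.Select
import Pool.Agent.Lib.MP_1df8f0_an.Kak2
import Pool.Agent.Lib.MP_1df8f0_an.Tower
import Pool.Agent.Lib.MP_1df8f0_an.Erg
import Pool.Agent.Lib.MP_1df8f0_an.Ent
import Pool.Agent.Lib.MP_1df8f0_an.Cover
import Pool.Agent.Lib.MP_1df8f0_an.Approx

/-!
Assembly.
-/

open Finset MeasureTheory Filter Topology
open scoped ENNReal unitInterval ContDiff

noncomputable section

namespace Pool.Agent.Lib.MP_1df8f0_an

lemma torus_prob (n : ℕ) : IsProbabilityMeasure (volume : Measure (Torus n)) := by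
  have : IsProbabilityMeasure (volume : Measure UnitAddCircle) := ⟨UnitAddCircle.measure_univ⟩
  exact Measure.pi.instIsProbabilityMeasure _

lemma log_natCast_mono {a b : ℕ} (h : a ≤ b) : Real.log a ≤ Real.log b := by
  rcases Nat.eq_zero_or_pos a with rfl | ha
  · simpa using Real.log_natCast_nonneg b
  · exact Real.log_le_log (by exact_mod_cast ha) (by exact_mod_cast h)

lemma exists_net (n : ℕ) (b : ℕ → ℝ) : ∃ F : ℝ → Finset (Torus n → Torus n),
    (∀ η, 0 < η → (∀ S' ∈ F η, S' ∈ SmoothClass n b) ∧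
      ∀ S ∈ SmoothClass n b, ∃ S' ∈ F η, ∀ y, dist (S y) (S' y) ≤ η) ∧
    ∀ θ : ℝ, 0 < θ → ∃ η0 : ℝ, 0 < η0 ∧ ∀ η, 0 < η → η < η0 →
      Real.log (F η).card ≤ η ^ (-θ) := by
  classical
  have h1 : ∀ η : ℝ, ∃ F : Finset (Torus n → Torus n), 0 < η →
      ((∀ S' ∈ F, S' ∈ SmoothClass n b) ∧
        ∀ S ∈ SmoothClass n b, ∃ S' ∈ F, ∀ y, dist (S y) (S' y) ≤ η) ∧
      ∀ F' : Finset (Torus n → Torus n), ((∀ S' ∈ F', S' ∈ SmoothClass n b) ∧
        ∀ S ∈ SmoothClass n b, ∃ S' ∈ F', ∀ y, dist (S y) (S' y) ≤ η) → F.card ≤ F'.card := by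
    intro η
    by_cases hη : 0 < η
    · have h2 : ∃ k : ℕ, ∃ F : Finset (Torus n → Torus n), ((∀ S' ∈ F, S' ∈ SmoothClass n b) ∧
          ∀ S ∈ SmoothClass n b, ∃ S' ∈ F, ∀ y, dist (S y) (S' y) ≤ η) ∧ F.card = k := by
        obtain ⟨η0, h0, h3⟩ := cover n b 1 one_pos
        obtain ⟨F, a1, a2, _⟩ := h3 (min η (η0 / 2)) (lt_min hη (by linarith))
          ((min_le_right _ _).trans_lt (by linarith))
        refine ⟨_, F, ⟨a1, fun S hS => ?_⟩, rfl⟩
        obtain ⟨S', a3, a4⟩ := a2 S hS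
        exact ⟨S', a3, fun y => (a4 y).trans (min_le_left _ _)⟩
      obtain ⟨F, a1, a2⟩ := Nat.find_spec h2
      exact ⟨F, fun _ => ⟨a1, fun F' hF' => a2 ▸ Nat.find_min' h2 ⟨F', hF', rfl⟩⟩⟩
    · exact ⟨∅, fun h => absurd h hη⟩
  choose F hF using h1
  refine ⟨F, fun η hη => (hF η hη).1, fun θ hθ => ?_⟩
  obtain ⟨η0, h0, h3⟩ := cover n b θ hθ
  refine ⟨η0, h0, fun η hη hη' => ?_⟩
  obtain ⟨F', a1, a2, a3⟩ := h3 η hη hη'
  exact (log_natCast_mono ((hF η hη).2 F' ⟨a1, a2⟩)).trans a3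

lemma growth (g : ℝ → ℝ) (hg : ∀ θ : ℝ, 0 < θ → ∃ η0 : ℝ, 0 < η0 ∧ ∀ η, 0 < η → η < η0 →
      g η ≤ η ^ (-θ)) (C N a : ℕ) (hC : 1 ≤ C) (hN : 2 ≤ N) (ha : 0 < a) (ε : ℝ) (hε : 0 < ε) :
    ∀ᶠ m : ℕ in atTop, g ((1 / (N : ℝ)) ^ (C * (a * m) + 1)) ≤ ε * 2 ^ m := by
  have hNr : (2 : ℝ) ≤ N := by exact_mod_cast hN
  have hlog : 0 < Real.log N := Real.log_pos (by linarith)
  obtain ⟨η0, h0, h1⟩ := hg (1 / (2 * (C * a + 1) * Real.log N)) (by positivity)
  have t1 : Tendsto (fun m : ℕ => (1 / (N : ℝ)) ^ m) atTop (𝓝 0) :=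
    tendsto_pow_atTop_nhds_zero_of_lt_one (by positivity) (by
      rw [div_lt_one (by linarith)]; linarith)
  have hq : Real.exp (1 / 2) / 2 < 1 := by
    have a1 : Real.exp (1 / 2) * Real.exp (1 / 2) = Real.exp 1 := by
      rw [← Real.exp_add]; norm_num
    have a2 := Real.exp_one_lt_d9
    have a3 := Real.exp_pos (1 / 2)
    nlinarith
  have t2 := (tendsto_pow_atTop_nhds_zero_of_lt_one (r := Real.exp (1 / 2) / 2)
    (by positivity) hq).const_mul (Real.exp (1 / 2))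
  rw [mul_zero] at t2
  filter_upwards [t1.eventually (gt_mem_nhds h0), t2.eventually (gt_mem_nhds hε)] with m hm1 hm2
  have b1 : (1 / (N : ℝ)) ^ (C * (a * m) + 1) ≤ (1 / (N : ℝ)) ^ m := by
    refine pow_le_pow_of_le_one (by positivity) (by rw [div_le_one (by linarith)]; linarith) ?_
    have : 1 * (1 * m) ≤ C * (a * m) := Nat.mul_le_mul hC (Nat.mul_le_mul_right _ ha)
    omega
  refine (h1 _ (by positivity) (b1.trans_lt hm1)).trans ?_
  rw [Real.rpow_def_of_pos (by positivity), Real.log_pow, one_div (N : ℝ), Real.log_inv]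
  calc _ ≤ Real.exp (1 / 2 + m * (1 / 2)) := by
        refine Real.exp_le_exp.2 ?_
        have e : (((C * (a * m) + 1 : ℕ) : ℝ)) * -Real.log N *
            -(1 / (2 * (C * a + 1) * Real.log N)) = (C * (a * m) + 1) / (2 * (C * a + 1)) := by
          push_cast
          field_simp
        rw [e, div_le_iff₀ (by positivity)]
        have : (0 : ℝ) ≤ C * a := by positivity
        have : (0 : ℝ) ≤ m := by positivity
        nlinarith
    _ = Real.exp (1 / 2) * (Real.exp (1 / 2) / 2) ^ m * 2 ^ m := by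
        rw [Real.exp_add, Real.exp_nat_mul, div_pow]
        field_simp
    _ ≤ _ := by gcongr

lemma entropy_lim (P : Params) (hs : ∀ k, 2 ≤ P.s k) (hm : ∀ k, 1 ≤ P.m k)
    (hs' : ∀ k, P.s (k + 1) = 2 ^ P.m k) :
    Tendsto (fun k => Real.log ((P.s k : ℝ) * P.h k) / P.h k) atTop (𝓝 0) := by
  have hs1 : ∀ k, 1 ≤ P.s k := fun k => le_trans one_le_two (hs k)
  have hh := P.h_pos hs1 hm
  have h1 : ∀ k, k < P.h k := by
    intro k
    induction k with
    | zero => exact hh 0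
    | succ k ih =>
      have : 2 * (1 * P.h k) ≤ P.s k * (P.m k * P.h k) :=
        Nat.mul_le_mul (hs k) (Nat.mul_le_mul_right _ (hm k))
      rw [Params.h]
      omega
  have t1 : Tendsto (fun k => (P.h k : ℝ)) atTop atTop :=
    tendsto_natCast_atTop_atTop.comp (tendsto_atTop_mono (fun k => (h1 k).le) tendsto_id)
  have t2 : Tendsto (fun k => Real.log (P.h (k + 1)) / P.h (k + 1)) atTop (𝓝 0) :=
    (Real.isLittleO_log_id_atTop.tendsto_div_nhds_zero.comp t1).comp (tendsto_add_atTop_nat 1)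
  have t3 := (tendsto_inv_atTop_zero.comp t1).add t2
  rw [add_zero] at t3
  rw [← tendsto_add_atTop_iff_nat 1]
  refine squeeze_zero (fun k => ?_) (fun k => ?_) t3
  · refine div_nonneg ?_ (Nat.cast_nonneg _)
    rw [← Nat.cast_mul]
    exact Real.log_natCast_nonneg _
  · have a1 : (0 : ℝ) < P.h (k + 1) := by exact_mod_cast hh _
    have a2 : (0 : ℝ) < P.h k := by exact_mod_cast hh _
    have a3 : (0 : ℝ) < P.s (k + 1) := by exact_mod_cast hs1 _
    rw [Real.log_mul a3.ne' a1.ne', add_div]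
    refine add_le_add ?_ le_rfl
    rw [hs', Function.comp_apply, div_le_iff₀ a1, Params.h]
    push_cast
    rw [Real.log_pow]
    have a4 : (1 : ℝ) ≤ P.s k := by exact_mod_cast hs1 k
    have a5 : (0 : ℝ) ≤ P.m k := Nat.cast_nonneg _
    have a6 := Real.log_two_lt_d9
    have e : (P.h k : ℝ)⁻¹ * (P.s k * (P.m k * P.h k)) = P.s k * P.m k := by field_simp
    rw [e]
    nlinarith

theorem main (b : ℕ → ℕ → ℝ) :
    ∃ T : I → I, (∃ T' : I → I, MeasurePreserving T' volume volume ∧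
        T' ∘ T =ᵐ[volume] id ∧ T ∘ T' =ᵐ[volume] id) ∧
      Ergodic T volume ∧ ksEntropy volume T = 0 ∧
      ∀ (n j : ℕ) (S : Torus n → Torus n), MeasurePreserving S volume volume →
        S ∈ SmoothClass n (b j) → ¬ InducedFactor volume T volume S := by
  classical
  obtain ⟨A, hA⟩ : ∃ A : ℕ, 32 ^ 5 ≤ A := ⟨_, le_rfl⟩
  let e : ℕ → Fin (A + 1) := fun n => Fin.ofNat (A + 1) n
  have he : Set.InjOn e (Set.Iio A) := by
    intro i hi j hj hij
    have h1 := congrArg Fin.val hij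
    simp only [e, Fin.val_ofNat] at h1
    rwa [Nat.mod_eq_of_lt (Nat.lt_succ_of_lt hi), Nat.mod_eq_of_lt (Nat.lt_succ_of_lt hj)] at h1
  have hprob := torus_prob
  choose 𝒲 h𝒲m h𝒲 using fun n => approx_family (Torus n) volume (Fin (A + 1))
  choose F hF1 hF2 using fun n j => exists_net n (b j)
  obtain ⟨q, hq⟩ := exists_surjective_nat (ℕ × ℕ × ℕ × ℕ × ℕ)
  have hmeas : ∀ n j, ∀ S ∈ SmoothClass n (b j), Measurable S := by
    intro n j S hS
    refine (LipschitzWith.of_dist_le' (K := b j 1) fun y y' => ?_).continuous.measurable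
    exact SmoothClass.dist_le hS y y'
  let 𝒟 : ℕ × ℕ × ℕ × ℕ × ℕ → ℕ → Finset (Measure (List (Fin (A + 1)))) := fun z h =>
    (F z.1 z.2.1 ((1 / ((max z.2.2.2.2 2 : ℕ) : ℝ)) ^ (max z.2.2.2.1 1 * h + 1))).image
      fun S' => (volume : Measure (Torus z.1)).map
        (emit (𝒲 z.1 z.2.2.1) S' (max z.2.2.2.1 1 * h))
  obtain ⟨P, hs, hm, hs', hP⟩ := exists_params e A hA he (fun k => max (q k).2.2.2.2 2)
    (fun k => le_max_right _ _) (fun k => 𝒟 (q k))
    (fun k h D hD => by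
      obtain ⟨S', h1, rfl⟩ := mem_image.1 hD
      exact Measure.isProbabilityMeasure_map (measurable_emit (h𝒲m _ _)
        (hmeas _ _ _ ((hF1 _ _ _ (by positivity)).1 S' h1)) _).aemeasurable)
    (fun k a ha ε hε => by
      filter_upwards [growth (fun η => Real.log (F (q k).1 (q k).2.1 η).card) (hF2 _ _)
        (max (q k).2.2.2.1 1) (max (q k).2.2.2.2 2) a (le_max_right _ _) (le_max_right _ _)
        ha ε hε] with m hm
      exact (log_natCast_mono card_image_le).trans hm)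
  have hs1 : ∀ k, 1 ≤ P.s k := fun k => le_trans one_le_two (hs k)
  obtain ⟨T, T', c, H, h1⟩ := exists_tower P hs hm
  refine ⟨T, ⟨T', h1⟩, H.ergodic hs1 hm, H.ksEntropy_eq_zero hs1 hm (entropy_lim P hs hm hs'),
    fun n j S hS hSb hIF => ?_⟩
  obtain ⟨d, C, N, hC, hN, h2⟩ := kak H hs1 hm e hS (b j 1) (SmoothClass.dist_le hSb) (𝒲 n)
    (h𝒲m n) (h𝒲 n) hIF
  obtain ⟨k, hk⟩ := hq (n, j, d, C, N)
  have h3 := hP k
  rw [hk] at h3
  simp only [𝒟, max_eq_left hC, max_eq_left hN] at h3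
  have hη : (0 : ℝ) < (1 / (N : ℝ)) ^ (C * P.h (k + 1) + 1) := by positivity
  obtain ⟨S', h4, h5⟩ := (hF1 n j _ hη).2 S hSb
  exact h3 _ (mem_image_of_mem _ h4) (h2 (k + 1) S' (hmeas _ _ _ ((hF1 n j _ hη).1 S' h4)) h5)

end Pool.Agent.Lib.MP_1df8f0_an
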