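import Pool.Agent.Lib.MP_1df8f0_an.Count

/-!
The pool of next-level words and the fraction of it close to a given string.
-/

open Finset

noncomputable section

namespace Pool.Agent.Lib.MP_1df8f0_an

variable {α : Type}

/-- The list-size invariant of a level. -/
def Inv (s h : ℕ) (wd : ℕ → List α) (c : ℝ) (d : ℕ) : Prop :=
  2 ≤ s ∧ 0 < h ∧ (∀ I, (wd I).length = h) ∧ ∃ t : ℕ,
    (∀ V : List α, ((range s).filter fun I => (ed (wd I) V : ℝ) < c * h).card ≤ t) ∧
      t * (32 * h) ^ (d + 1) ≤ s

/-- One round of a next-level word. -/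
def roundWord (s : ℕ) (wd : ℕ → List α) {m : ℕ} (a : Fin m → ℕ) (t : ℕ) : List α :=
  (List.ofFn fun r => wd ((a r + t) % s)).flatten

/-- A next-level word. -/
def nextWord (s : ℕ) (wd : ℕ → List α) {m : ℕ} (a : Fin m → ℕ) : List α :=
  ((List.range s).map (roundWord s wd a)).flatten

lemma length_roundWord {s h : ℕ} {wd : ℕ → List α} (hl : ∀ I, (wd I).length = h) {m : ℕ}
    (a : Fin m → ℕ) (t : ℕ) : (roundWord s wd a t).length = m * h := by
  simp [roundWord, List.length_flatten, List.map_ofFn, Function.comp_def, hl]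

lemma length_nextWord {s h : ℕ} {wd : ℕ → List α} (hl : ∀ I, (wd I).length = h) {m : ℕ}
    (a : Fin m → ℕ) : (nextWord s wd a).length = s * (m * h) := by
  simp [nextWord, List.length_flatten, Function.comp_def, length_roundWord hl]

lemma round_bound {s h : ℕ} {wd : ℕ → List α} {c : ℝ} {d : ℕ} (H : Inv s h wd c d) (hc : c ≤ 1)
    (hd : 1 ≤ d) (m t : ℕ) (V : List α) :
    ((univ.filter fun a : Fin m → Fin s =>
      (ed (roundWord s wd (fun r => a r) t) V : ℝ) < (c - 1 / d) * (m * h)).card : ℝ) ≤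
      ((s : ℝ) / 4) ^ m := by
  classical
  obtain ⟨hs, hh, hlen, t0, hl, ht0⟩ := H
  have hh' : (1 : ℝ) ≤ h := by exact_mod_cast hh
  have hd' : (1 : ℝ) ≤ d := by exact_mod_cast hd
  have hlog : 1 ≤ Real.log (32 * h) := by
    rw [Real.le_log_iff_exp_le (by positivity)]
    have := Real.exp_one_lt_d9
    linarith
  set β : ℝ := d * Real.log (32 * h) / h with hβdef
  have hβh : β * h = d * Real.log (32 * h) := by
    rw [hβdef]
    field_simp
  have hβ1 : 1 ≤ β * h := by rw [hβh]; nlinarith
  have hβ : 0 < β := by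
    by_contra hn
    have := not_lt.1 hn
    nlinarith
  let g : Fin s → List α := fun i => wd ((i + t) % s)
  have hl' : ∀ V : List α, (univ.filter fun i => (ed (g i) V : ℝ) < c * h).card ≤ t0 := by
    intro V
    refine le_trans (card_le_card_of_injOn (fun i : Fin s => ((i : ℕ) + t) % s) ?_ ?_) (hl V)
    · intro i hi
      simp only [coe_filter, mem_univ, true_and, Set.mem_ofPred_eq, mem_range] at hi ⊢
      exact ⟨Nat.mod_lt _ (by omega), hi⟩
    · intro i _ j _ hij
      have h1 : (i : ℕ) ≡ j [MOD s] := Nat.ModEq.add_right_cancel' t hij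
      exact Fin.ext (Nat.ModEq.eq_of_lt_of_lt h1 i.2 j.2)
  have hκ := kappa_bound g h t0 (c * h) β hβ (fun i => hlen _) (by nlinarith) hl'
  have hx0 : 0 ≤ Real.exp (-β) := (Real.exp_pos _).le
  have hx1 : Real.exp (-β) < 1 := Real.exp_lt_one_iff.2 (by linarith)
  have hZ := genfun g _ _ hx0 hx1.le hκ m V
  set κ : ℝ := ((2 * h : ℕ) + 1 / (1 - Real.exp (-β))) *
    (t0 + Fintype.card (Fin s) * Real.exp (-β * (c * h))) with hκdef
  have hκ1 : κ * Real.exp (β * ((c - 1 / d) * h)) ≤ s / 4 := by
    have a1 : 1 / (1 - Real.exp (-β)) ≤ 2 * h := by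
      rw [div_le_iff₀ (by linarith)]
      have b1 : Real.exp (-β) * (β + 1) ≤ 1 := by
        have := Real.add_one_le_exp β
        calc _ ≤ Real.exp (-β) * Real.exp β := mul_le_mul_of_nonneg_left this hx0
          _ = 1 := by rw [← Real.exp_add]; simp
      have b2 : Real.exp (-β) * (h + 1) ≤ h := by nlinarith
      nlinarith
    have a2 : Real.exp (β * ((c - 1 / d) * h)) ≤ (32 * h) ^ d := by
      calc _ ≤ Real.exp (β * h) := by
            refine Real.exp_le_exp.2 (mul_le_mul_of_nonneg_left ?_ hβ.le)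
            have : 0 ≤ 1 / (d : ℝ) := by positivity
            nlinarith
        _ = _ := by rw [hβh, Real.exp_nat_mul, Real.exp_log (by positivity)]
    have a3 : Real.exp (-β * (c * h)) * Real.exp (β * ((c - 1 / d) * h)) = 1 / (32 * h) := by
      rw [← Real.exp_add]
      have : -β * (c * h) + β * ((c - 1 / d) * h) = -Real.log (32 * h) := by
        have : β * h / d = Real.log (32 * h) := by
          rw [hβh]
          field_simp
        rw [← this]
        ring
      rw [this, Real.exp_neg, Real.exp_log (by positivity), one_div]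
    have a4 : (t0 : ℝ) * (32 * h) ^ d ≤ s / (32 * h) := by
      rw [le_div_iff₀ (by positivity), mul_assoc, ← pow_succ]
      exact_mod_cast ht0
    have a5 : (t0 + Fintype.card (Fin s) * Real.exp (-β * (c * h))) *
        Real.exp (β * ((c - 1 / d) * h)) ≤ s / (32 * h) + s / (32 * h) := by
      rw [add_mul, mul_assoc, a3, Fintype.card_fin]
      have := mul_le_mul_of_nonneg_left a2 (Nat.cast_nonneg (α := ℝ) t0)
      have e : (s : ℝ) * (1 / (32 * h)) = s / (32 * h) := by ring
      linarith
    have a6 : ((2 * h : ℕ) : ℝ) + 1 / (1 - Real.exp (-β)) ≤ 4 * h := by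
      push_cast
      linarith
    calc _ = (((2 * h : ℕ) : ℝ) + 1 / (1 - Real.exp (-β))) *
          ((t0 + Fintype.card (Fin s) * Real.exp (-β * (c * h))) *
            Real.exp (β * ((c - 1 / d) * h))) := by rw [hκdef]; ring
      _ ≤ (4 * h) * (s / (32 * h) + s / (32 * h)) :=
          mul_le_mul a6 a5 (by positivity) (by positivity)
      _ = s / 4 := by
          field_simp
          ring
  have hκ0 : 0 ≤ κ := le_trans (by positivity) (hκ [])
  have hcount : ((univ.filter fun a : Fin m → Fin s =>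
      (ed (roundWord s wd (fun r => a r) t) V : ℝ) < (c - 1 / d) * (m * h)).card : ℝ) *
      Real.exp (-β * ((c - 1 / d) * (m * h))) ≤ κ ^ m := by
    refine le_trans ?_ hZ
    calc _ = ∑ a ∈ univ.filter fun a : Fin m → Fin s =>
            (ed (roundWord s wd (fun r => a r) t) V : ℝ) < (c - 1 / d) * (m * h),
            Real.exp (-β * ((c - 1 / d) * (m * h))) := by rw [sum_const, nsmul_eq_mul]
      _ ≤ ∑ a ∈ univ.filter fun a : Fin m → Fin s =>
            (ed (roundWord s wd (fun r => a r) t) V : ℝ) < (c - 1 / d) * (m * h),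
            Real.exp (-β) ^ ed (List.ofFn fun r => g (a r)).flatten V := by
          refine sum_le_sum fun a ha => ?_
          have h1 : (ed (List.ofFn fun r => g (a r)).flatten V : ℝ) < (c - 1 / d) * (m * h) :=
            (mem_filter.1 ha).2
          rw [← Real.exp_nat_mul]
          exact Real.exp_le_exp.2 (by nlinarith)
      _ ≤ _ := sum_le_sum_of_subset_of_nonneg (filter_subset _ _) fun _ _ _ => by positivity
  calc _ = _ * Real.exp (-β * ((c - 1 / d) * (m * h))) *
        Real.exp (β * ((c - 1 / d) * h)) ^ m := by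
        rw [mul_assoc, ← Real.exp_nat_mul, ← Real.exp_add]
        have : -β * ((c - 1 / d) * (m * h)) + m * (β * ((c - 1 / d) * h)) = 0 := by ring
        rw [this, Real.exp_zero, mul_one]
    _ ≤ κ ^ m * Real.exp (β * ((c - 1 / d) * h)) ^ m :=
        mul_le_mul_of_nonneg_right hcount (by positivity)
    _ ≤ _ := by
        rw [← mul_pow]
        exact pow_le_pow_left₀ (by positivity) hκ1 m

lemma factor_eq {V W : List α} (h : V <:+: W) :
    ∃ i ∈ range (W.length + 1), ∃ j ∈ range (W.length + 1), V = (W.drop i).take j := by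
  obtain ⟨a, b, rfl⟩ := h
  refine ⟨a.length, by simp, V.length, by simp; omega, ?_⟩
  simp

lemma pool_bound {s h : ℕ} {wd : ℕ → List α} {c : ℝ} {d : ℕ} (H : Inv s h wd c d) (hc : c ≤ 1)
    (hd : 1 ≤ d) (m : ℕ) (W : List α)
    [DecidablePred fun a : Fin m → Fin s => ∃ V : List α, V <:+: W ∧
      (ed (nextWord s wd fun r => a r) V : ℝ) < (c - 1 / d) * ((s * (m * h) : ℕ) : ℝ)] :
    ((univ.filter fun a : Fin m → Fin s => ∃ V : List α, V <:+: W ∧
      (ed (nextWord s wd fun r => a r) V : ℝ) < (c - 1 / d) * ((s * (m * h) : ℕ) : ℝ)).card : ℝ) ≤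
      s * ((W.length : ℝ) + 1) ^ 2 * ((s : ℝ) / 4) ^ m := by
  classical
  have hsub : (univ.filter fun a : Fin m → Fin s => ∃ V : List α, V <:+: W ∧
      (ed (nextWord s wd fun r => a r) V : ℝ) < (c - 1 / d) * ((s * (m * h) : ℕ) : ℝ)) ⊆
      (range s ×ˢ range (W.length + 1) ×ˢ range (W.length + 1)).biUnion fun z =>
        univ.filter fun a : Fin m → Fin s =>
          (ed (roundWord s wd (fun r => a r) z.1) ((W.drop z.2.1).take z.2.2) : ℝ) <
            (c - 1 / d) * (m * h) := by
    intro a ha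
    obtain ⟨V, hV, h1⟩ := (mem_filter.1 ha).2
    obtain ⟨u, hu, V', hV', h2⟩ := ed_flatten_pigeon
      ((List.range s).map (roundWord s wd fun r => a r)) ((c - 1 / d) * (m * h)) V (by
        rw [List.length_map, List.length_range]
        refine lt_of_lt_of_eq h1 ?_
        push_cast
        ring)
    obtain ⟨t, ht, rfl⟩ := List.mem_map.1 hu
    obtain ⟨i, hi, j, hj, rfl⟩ := factor_eq (hV'.trans hV)
    refine mem_biUnion.2 ⟨(t, i, j), ?_, mem_filter.2 ⟨mem_univ _, h2⟩⟩
    exact mem_product.2 ⟨mem_range.2 (List.mem_range.1 ht), mem_product.2 ⟨hi, hj⟩⟩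
  have h1 := (card_le_card hsub).trans card_biUnion_le
  have h2 : ((univ.filter fun a : Fin m → Fin s => ∃ V : List α, V <:+: W ∧
      (ed (nextWord s wd fun r => a r) V : ℝ) < (c - 1 / d) * ((s * (m * h) : ℕ) : ℝ)).card : ℝ) ≤
      ∑ z ∈ range s ×ˢ range (W.length + 1) ×ˢ range (W.length + 1),
        ((univ.filter fun a : Fin m → Fin s =>
          (ed (roundWord s wd (fun r => a r) z.1) ((W.drop z.2.1).take z.2.2) : ℝ) <
            (c - 1 / d) * (m * h)).card : ℝ) := by exact_mod_cast h1
  refine h2.trans ((sum_le_sum fun z _ => round_bound H hc hd m z.1 _).trans (le_of_eq ?_))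
  simp only [sum_const, card_product, card_range, nsmul_eq_mul]
  push_cast
  ring

end Pool.Agent.Lib.MP_1df8f0_an
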