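import Pool.Agent.Lib.MP_1df8f0_an.Step
import Pool.Agent.Lib.MP_1df8f0_an.Once

/-!
Construction of the tower parameters that escape all candidate laws.
-/

open Finset MeasureTheory Filter Topology

noncomputable section

namespace Pool.Agent.Lib.MP_1df8f0_an

variable {α : Type}

lemma step [Fintype α] [Nonempty α] {s h : ℕ} {wd : ℕ → List α} {c : ℝ} {d : ℕ}
    (H : Inv s h wd c d) (hc : c ≤ 1) (hd : 1 ≤ d) (hc' : 1 / 4 ≤ c - 1 / d) (d' N : ℕ)
    (hN : 2 ≤ N) (𝒟 : ℕ → Finset (Measure (List α)))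
    (h𝒟 : ∀ n, ∀ D ∈ 𝒟 n, IsProbabilityMeasure D)
    (hg : ∀ ε : ℝ, 0 < ε → ∀ᶠ m : ℕ in atTop, Real.log (𝒟 (s * h * m)).card ≤ ε * 2 ^ m) :
    ∃ (m : ℕ) (σ : ℕ → ℕ → ℕ), 1 ≤ m ∧
      Inv (2 ^ m) (s * (m * h)) (fun I => nextWord s wd fun r : Fin m => σ I r) (c - 1 / d) d' ∧
      ∀ D ∈ 𝒟 (s * (m * h)),
        ¬ Cap (2 ^ m) (s * (m * h)) (fun I => nextWord s wd fun r : Fin m => σ I r) N D := by
  classical
  have hs := H.1
  have hh := H.2.1
  have hNr : (2 : ℝ) ≤ N := by exact_mod_cast hN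
  obtain ⟨m, hm, h2, h3, h4⟩ := ((eventually_ge_atTop 1).and ((ev_poly
    ((4 * Fintype.card α + 3) * (s * h) * (32 * (s * h)) ^ (d' + 1)) (d' + 2)).and
    ((ev_poly (8 * N * (s * (N * (s * h) + 1) ^ 2)) 2).and
      (hg (1 / (8 * (N : ℝ) ^ 2)) (by positivity))))).exists
  have hmr : (1 : ℝ) ≤ m := by exact_mod_cast hm
  rw [show s * h * m = s * (m * h) by ring] at h4
  obtain ⟨σ, hσ1, hσ2⟩ := step_core H hc hd hc' N hN m hm (𝒟 (s * (m * h))) (h𝒟 _) (by
    refine le_trans ?_ h3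
    rw [mul_assoc (8 * (N : ℝ)), mul_assoc (s : ℝ), ← mul_pow]
    push_cast
    gcongr
    nlinarith) h4
  let σ' : ℕ → ℕ → ℕ := fun I r =>
    if hI : I < 2 ^ m then (if hr : r < m then (σ ⟨I, hI⟩ ⟨r, hr⟩ : ℕ) else 0) else 0
  have hσ' : ∀ i : Fin (2 ^ m), (fun r : Fin m => σ' i r) = fun r => (σ i r : ℕ) := by
    intro i
    funext r
    simp [σ']
  refine ⟨m, σ', hm, ⟨?_, Nat.mul_pos (by omega) (Nat.mul_pos (by omega) hh),
    fun I => length_nextWord H.2.2.1 _, (4 * Fintype.card α + 3) * (s * (m * h)),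
    fun V => ?_, ?_⟩, fun D hD hcap => ?_⟩
  · calc 2 = 2 ^ 1 := rfl
      _ ≤ 2 ^ m := Nat.pow_le_pow_right (by norm_num) hm
  · refine le_trans (le_of_eq ?_) (hσ1 V)
    rw [card_filter, card_filter, sum_range]
    exact sum_congr rfl fun i _ => by simp only [hσ' i]
  · have : (((4 * Fintype.card α + 3) * (s * (m * h)) * (32 * (s * (m * h))) ^ (d' + 1) : ℕ) : ℝ)
        ≤ ((2 ^ m : ℕ) : ℝ) := by
      push_cast
      refine le_trans (le_of_eq ?_) h2
      ring
    exact_mod_cast this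
  · refine absurd (hσ2 D hD) (not_lt.2 (hcap.trans (le_of_eq ?_)))
    rw [sum_range]
    exact sum_congr rfl fun i _ => by simp only [hσ' i]

lemma range_mul_map {β : Type} (a b : ℕ) (f : ℕ → β) :
    (List.range (a * b)).map f =
      ((List.range a).map fun i => (List.range b).map fun j => f (i * b + j)).flatten := by
  induction a with
  | zero => simp
  | succ a ih =>
    rw [Nat.succ_mul, List.range_add, List.map_append, ih, List.range_succ, List.map_append,
      List.flatten_append]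
    simp [Function.comp_def]

lemma word_succ (P : Params) (e : ℕ → α) (k I : ℕ) (hh : 0 < P.h k) :
    P.word e (k + 1) I = nextWord (P.s k) (P.word e k) fun r : Fin (P.m k) => P.σ k I r := by
  unfold nextWord
  rw [Params.word, Params.h, range_mul_map]
  congr 1
  refine List.map_congr_left fun t _ => ?_
  rw [range_mul_map, roundWord, List.ofFn_eq_map]
  congr 1
  rw [← List.map_coe_finRange_eq_range (n := P.m k), List.map_map]
  refine List.map_congr_left fun r _ => ?_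
  rw [Function.comp_apply, Params.word]
  refine List.map_congr_left fun q hq => ?_
  have hq' : q < P.h k := List.mem_range.1 hq
  have hr : (r : ℕ) < P.m k := r.2
  have e0 : t * (P.m k * P.h k) + (r * P.h k + q) = q + (r + t * P.m k) * P.h k := by ring
  have e1 : (t * (P.m k * P.h k) + (r * P.h k + q)) / P.h k = r + t * P.m k := by
    rw [e0, Nat.add_mul_div_right _ _ hh, Nat.div_eq_of_lt hq', zero_add]
  have e2 : (t * (P.m k * P.h k) + (r * P.h k + q)) % P.h k = q := by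
    rw [e0, Nat.add_mul_mod_self_right, Nat.mod_eq_of_lt hq']
  have e3 : (t * (P.m k * P.h k) + (r * P.h k + q)) / (P.m k * P.h k) = t := by
    rw [mul_comm (P.m k), ← Nat.div_div_eq_div_mul, mul_comm (P.h k), e1,
      Nat.add_mul_div_right _ _ (by omega), Nat.div_eq_of_lt hr, zero_add]
  simp only [Params.lt, Params.pr, down]
  rw [e1, e2, e3, Nat.add_mul_mod_self_right, Nat.mod_eq_of_lt hr]

theorem exists_params [Fintype α] (e : ℕ → α) (A : ℕ) (hA : 32 ^ 5 ≤ A)
    (he : Set.InjOn e (Set.Iio A)) (N : ℕ → ℕ) (hN : ∀ k, 2 ≤ N k)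
    (𝒟 : ℕ → ℕ → Finset (Measure (List α))) (h𝒟 : ∀ k n, ∀ D ∈ 𝒟 k n, IsProbabilityMeasure D)
    (hg : ∀ k a, 0 < a → ∀ ε : ℝ, 0 < ε →
      ∀ᶠ m : ℕ in atTop, Real.log (𝒟 k (a * m)).card ≤ ε * 2 ^ m) :
    ∃ P : Params, (∀ k, 2 ≤ P.s k) ∧ (∀ k, 1 ≤ P.m k) ∧ (∀ k, P.s (k + 1) = 2 ^ P.m k) ∧
      ∀ k, ∀ D ∈ 𝒟 k (P.h (k + 1)), ¬ Captures P e (k + 1) (N k) D := by
  classical
  have : Nonempty α := ⟨e 0⟩
  let cc : ℕ → ℝ := fun k => 1 / 4 + 1 / 2 ^ (k + 1)
  let dd : ℕ → ℕ := fun k => 2 ^ (k + 2)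
  have hcc : ∀ k, cc (k + 1) = cc k - 1 / (dd k : ℝ) := fun k => by
    simp only [cc, dd]
    push_cast
    field_simp
    ring
  have hcc1 : ∀ k, cc k ≤ 1 := fun k => by
    have : (1 : ℝ) / 2 ^ (k + 1) ≤ 1 / 2 ^ 1 := by
      gcongr
      · norm_num
      · omega
    simp only [cc]
    linarith
  have hcc2 : ∀ k, 1 / 4 ≤ cc k := fun k => by
    have : (0 : ℝ) ≤ 1 / 2 ^ (k + 1) := by positivity
    simp only [cc]
    linarith
  have hstep : ∀ (k : ℕ) (z : ℕ × ℕ × (ℕ → List α)), ∃ (m : ℕ) (σ : ℕ → ℕ → ℕ),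
      Inv z.1 z.2.1 z.2.2 (cc k) (dd k) → 1 ≤ m ∧
      Inv (2 ^ m) (z.1 * (m * z.2.1)) (fun I => nextWord z.1 z.2.2 fun r : Fin m => σ I r)
        (cc (k + 1)) (dd (k + 1)) ∧
      ∀ D ∈ 𝒟 k (z.1 * (m * z.2.1)), ¬ Cap (2 ^ m) (z.1 * (m * z.2.1))
        (fun I => nextWord z.1 z.2.2 fun r : Fin m => σ I r) (N k) D := by
    intro k z
    by_cases H : Inv z.1 z.2.1 z.2.2 (cc k) (dd k)
    · obtain ⟨m, σ, h1⟩ := step H (hcc1 k) (Nat.one_le_two_pow) (by rw [← hcc]; exact hcc2 _)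
        (dd (k + 1)) (N k) (hN k) (𝒟 k) (h𝒟 k)
        (hg k _ (Nat.mul_pos (by have := H.1; omega) H.2.1))
      rw [← hcc] at h1
      exact ⟨m, σ, fun _ => h1⟩
    · exact ⟨0, fun _ _ => 0, fun h => absurd h H⟩
  choose M Sg hMS using hstep
  let st : ℕ → ℕ × ℕ × (ℕ → List α) := fun k => Nat.rec (A, 1, fun I => [e I])
    (fun k z => (2 ^ M k z, z.1 * (M k z * z.2.1),
      fun I => nextWord z.1 z.2.2 fun r : Fin (M k z) => Sg k z I r)) k
  have hst : ∀ k, st (k + 1) = (2 ^ M k (st k), (st k).1 * (M k (st k) * (st k).2.1),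
      fun I => nextWord (st k).1 (st k).2.2 fun r : Fin (M k (st k)) => Sg k (st k) I r) :=
    fun k => rfl
  have hinv : ∀ k, Inv (st k).1 (st k).2.1 (st k).2.2 (cc k) (dd k) := by
    intro k
    induction k with
    | zero =>
      refine ⟨le_trans (by norm_num) hA, Nat.one_pos, fun I => rfl, 1, fun V => ?_, ?_⟩
      · refine card_le_one.2 fun i hi j hj => ?_
        have key : ∀ i : ℕ, (ed [e i] V : ℝ) < cc 0 * ((1 : ℕ) : ℝ) → [e i] = V := by
          intro i hi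
          have h1 : (ed [e i] V : ℝ) < 1 := by
            have := hcc1 0
            simp only [Nat.cast_one, mul_one] at hi
            linarith
          exact eq_of_ed_eq_zero (Nat.lt_one_iff.1 (by exact_mod_cast h1))
        have h1 := (key i (mem_filter.1 hi).2).trans (key j (mem_filter.1 hj).2).symm
        exact he (mem_range.1 (mem_filter.1 hi).1) (mem_range.1 (mem_filter.1 hj).1)
          (List.singleton_inj.1 h1)
      · have h1 : 1 * (32 * 1) ^ (2 ^ (0 + 2) + 1) ≤ 32 ^ 5 := by norm_num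
        exact le_trans h1 hA
    | succ k ih => exact (hMS k (st k) ih).2.1
  let P : Params := ⟨fun k => (st k).1, fun k => M k (st k), fun k => Sg k (st k)⟩
  have hPh : ∀ k, P.h k = (st k).2.1 := by
    intro k
    induction k with
    | zero => rfl
    | succ k ih => rw [Params.h, ih, hst]
  have hPw : ∀ k, P.word e k = (st k).2.2 := by
    intro k
    induction k with
    | zero => rfl
    | succ k ih =>
      funext I
      rw [word_succ P e k I (by rw [hPh]; exact (hinv k).2.1), ih, hst]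
  refine ⟨P, fun k => (hinv k).1, fun k => (hMS k (st k) (hinv k)).1, fun k => rfl,
    fun k D hD hcap => ?_⟩
  rw [hPh] at hD
  refine (hMS k (st k) (hinv k)).2.2 D hD ?_
  unfold Captures at hcap
  rw [hPh, hPw] at hcap
  exact hcap

end Pool.Agent.Lib.MP_1df8f0_an
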