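import Pool.Agent.Lib.MP_1df8f0_an.Pool

/-!
The random choice of the next level.
-/

open Finset MeasureTheory Filter Topology

noncomputable section

namespace Pool.Agent.Lib.MP_1df8f0_an

variable {α : Type}

/-- The capture condition for an explicit family of words. -/
def Cap (s h : ℕ) (wd : ℕ → List α) (N : ℕ) (D : Measure (List α)) : Prop :=
  (s : ℝ) / (2 * (N : ℝ) ^ 2) ≤ ∑ I ∈ range s,
    min 1 ((s : ℝ) / N * D.real (Near (wd I) (N * h) ((h : ℝ) / 4)))

lemma exists_strs [Fintype α] [Nonempty α] (n : ℕ) : ∃ S : Finset (List α),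
    (∀ V : List α, V.length ≤ n → V ∈ S) ∧
      (S.card : ℝ) ≤ Real.exp (2 * Fintype.card α * n) := by
  classical
  refine ⟨univ.image fun z : Fin (n + 1) × (Fin n → α) => (List.ofFn z.2).take z.1, ?_, ?_⟩
  · intro V hV
    refine mem_image.2 ⟨(⟨V.length, by omega⟩, fun i => V.getD i (Classical.arbitrary α)),
      mem_univ _, ?_⟩
    apply List.ext_getElem
    · simp [hV]
    · intro i h1 h2
      simp [List.getElem?_eq_getElem h2]
  · have h1 : (univ.image fun z : Fin (n + 1) × (Fin n → α) => (List.ofFn z.2).take z.1).card ≤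
        (2 * Fintype.card α) ^ n := by
      refine card_image_le.trans ?_
      rw [card_univ, Fintype.card_prod, Fintype.card_fin, Fintype.card_fun, Fintype.card_fin,
        mul_pow]
      exact Nat.mul_le_mul_right _ Nat.lt_two_pow_self
    calc _ ≤ (((2 * Fintype.card α) ^ n : ℕ) : ℝ) := by exact_mod_cast h1
      _ = (2 * Fintype.card α : ℝ) ^ n := by push_cast; ring
      _ ≤ Real.exp (2 * Fintype.card α) ^ n := by
          refine pow_le_pow_left₀ (by positivity) ?_ n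
          linarith [Real.add_one_le_exp (2 * Fintype.card α : ℝ)]
      _ = _ := by rw [← Real.exp_nat_mul, mul_comm]

lemma sum_real_le {β : Type} [Fintype β] (D : Measure (List α)) [IsProbabilityMeasure D]
    (E : β → Set (List α)) (K : ℝ) [∀ W, DecidablePred fun a => W ∈ E a]
    (hK : ∀ W, ((univ.filter fun a => W ∈ E a).card : ℝ) ≤ K) : ∑ a, D.real (E a) ≤ K := by
  have hm : ∀ a, MeasurableSet (E a) := fun a => MeasurableSet.of_discrete
  have hi : ∀ a, Integrable ((E a).indicator fun _ => (1 : ℝ)) D := fun a =>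
    (integrable_const 1).indicator (hm a)
  calc ∑ a, D.real (E a) = ∑ a, ∫ W, (E a).indicator (fun _ => (1 : ℝ)) W ∂D := by
        refine sum_congr rfl fun a _ => ?_
        rw [integral_indicator (hm a)]
        simp
    _ = ∫ W, ∑ a, (E a).indicator (fun _ => (1 : ℝ)) W ∂D :=
        (integral_finsetSum _ fun a _ => hi a).symm
    _ ≤ ∫ _W, K ∂D := by
        refine integral_mono (integrable_finsetSum _ fun a _ => hi a) (integrable_const K) ?_
        intro W
        refine le_trans (le_of_eq ?_) (hK W)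
        rw [← sum_boole]
        exact sum_congr rfl fun a _ => by simp [Set.indicator_apply]
    _ = K := by simp

lemma ev_poly (C : ℝ) (K : ℕ) : ∀ᶠ m : ℕ in atTop, C * (m : ℝ) ^ K ≤ 2 ^ m := by
  have h := (tendsto_pow_const_div_const_pow_of_one_lt K (r := 2) (by norm_num)).const_mul C
  rw [mul_zero] at h
  filter_upwards [h.eventually (gt_mem_nhds one_pos)] with m hm
  rw [← mul_div_assoc, div_lt_one (by positivity)] at hm
  exact hm.le

lemma exists_avoid {Ω : Type} [Fintype Ω] [Nonempty Ω] (B1 B2 : Finset Ω)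
    (h1 : (B1.card : ℝ) ≤ Fintype.card Ω * Real.exp (-1))
    (h2 : (B2.card : ℝ) ≤ Fintype.card Ω * Real.exp (-1)) : ∃ ω, ω ∉ B1 ∧ ω ∉ B2 := by
  classical
  by_contra hn
  have h3 : (univ : Finset Ω) ⊆ B1 ∪ B2 := by
    intro ω _
    by_contra h4
    rw [mem_union, not_or] at h4
    exact hn ⟨ω, h4⟩
  have h4 : (Fintype.card Ω : ℝ) ≤ B1.card + B2.card := by
    exact_mod_cast (card_le_card h3).trans (card_union_le _ _)
  have h5 : (0 : ℝ) < Fintype.card Ω := by exact_mod_cast Fintype.card_pos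
  have h6 : Real.exp (-1) < 1 / 2 := by
    have := Real.exp_neg_one_lt_d9
    linarith
  nlinarith

lemma step_core [Fintype α] [Nonempty α] {s h : ℕ} {wd : ℕ → List α} {c : ℝ} {d : ℕ}
    (H : Inv s h wd c d) (hc : c ≤ 1) (hd : 1 ≤ d) (hc' : 1 / 4 ≤ c - 1 / d) (N : ℕ) (hN : 2 ≤ N)
    (m : ℕ) (hm : 1 ≤ m) (𝒟 : Finset (Measure (List α))) (h𝒟 : ∀ D ∈ 𝒟, IsProbabilityMeasure D)
    (h3 : 8 * (N : ℝ) * (s * ((N * (s * (m * h)) : ℕ) + 1) ^ 2) ≤ 2 ^ m)
    (h4 : Real.log 𝒟.card ≤ 1 / (8 * (N : ℝ) ^ 2) * 2 ^ m) :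
    ∃ σ : Fin (2 ^ m) → Fin m → Fin s,
      (∀ V : List α, (univ.filter fun i => (ed (nextWord s wd fun r => σ i r) V : ℝ) <
        (c - 1 / d) * ((s * (m * h) : ℕ) : ℝ)).card ≤
          (4 * Fintype.card α + 3) * (s * (m * h))) ∧
      ∀ D ∈ 𝒟, ∑ i, min 1 (((2 ^ m : ℕ) : ℝ) / N * D.real (Near (nextWord s wd fun r => σ i r)
        (N * (s * (m * h))) (((s * (m * h) : ℕ) : ℝ) / 4))) <
          ((2 ^ m : ℕ) : ℝ) / (2 * (N : ℝ) ^ 2) := by
  classical
  have hs := H.1
  have hh := H.2.1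
  have : Nonempty (Fin s) := ⟨⟨0, by omega⟩⟩
  set h' : ℕ := s * (m * h) with hh'def
  have hh' : 1 ≤ h' := Nat.mul_pos (by omega) (Nat.mul_pos (by omega) hh)
  have hh'r : (1 : ℝ) ≤ h' := by exact_mod_cast hh'
  have hNr : (2 : ℝ) ≤ N := by exact_mod_cast hN
  have hsr : (2 : ℝ) ≤ s := by exact_mod_cast hs
  have hcard : (Fintype.card (Fin m → Fin s) : ℝ) = (s : ℝ) ^ m := by simp
  have hs4 : ((s : ℝ) / 4) ^ m * 2 ^ m * 2 ^ m = (s : ℝ) ^ m := by
    rw [← mul_pow, ← mul_pow]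
    congr 1
    ring
  have hs4p : (0 : ℝ) < ((s : ℝ) / 4) ^ m := by positivity
  have h2m : (0 : ℝ) < 2 ^ m := by positivity
  obtain ⟨S, hS1, hS2⟩ := exists_strs (α := α) (2 * h')
  let X1 : List α → (Fin m → Fin s) → ℝ := fun V a =>
    if (ed (nextWord s wd fun r => a r) V : ℝ) < (c - 1 / d) * h' then 1 else 0
  let X2 : Measure (List α) → (Fin m → Fin s) → ℝ := fun D a =>
    min 1 (((2 ^ m : ℕ) : ℝ) / N * D.real (Near (nextWord s wd fun r => a r) (N * h') (h' / 4)))
  let t' : ℕ := (4 * Fintype.card α + 3) * h'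
  let S' := S.filter fun V => V.length ≤ 2 * h'
  have b1 : ∀ V ∈ S', ((univ.filter fun σ : Fin (2 ^ m) → Fin m → Fin s =>
      (t' : ℝ) ≤ ∑ i, X1 V (σ i)).card : ℝ) ≤
      (Fintype.card (Fin m → Fin s) : ℝ) ^ (2 ^ m) * Real.exp (2 * 1 - t') := by
    intro V hV
    refine count_tail (2 ^ m) (X1 V) (fun a => ?_) (fun a => ?_) _ 1 ?_
    · simp only [X1]
      split_ifs <;> norm_num
    · simp only [X1]
      split_ifs <;> norm_num
    · have a1 := pool_bound H hc hd m V
      have a2 : ∑ a, X1 V a ≤ s * ((V.length : ℝ) + 1) ^ 2 * ((s : ℝ) / 4) ^ m := by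
        refine le_trans ?_ a1
        simp only [X1]
        rw [sum_boole]
        refine Nat.cast_le.2 (card_le_card fun a ha => ?_)
        exact mem_filter.2 ⟨mem_univ _, V, List.infix_refl V, (mem_filter.1 ha).2⟩
      have a3 : (V.length : ℝ) ≤ (N * h' : ℕ) := by
        have := (mem_filter.1 hV).2
        exact_mod_cast this.trans (Nat.mul_le_mul_right _ hN)
      have a4 : s * ((V.length : ℝ) + 1) ^ 2 ≤ s * (((N * h' : ℕ) : ℝ) + 1) ^ 2 := by gcongr
      have a5 : (0 : ℝ) ≤ s * (((N * h' : ℕ) : ℝ) + 1) ^ 2 := by positivity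
      have a6 : s * ((V.length : ℝ) + 1) ^ 2 ≤ 2 ^ m := by nlinarith
      rw [hcard, ← hs4, one_mul]
      push_cast
      calc (2 : ℝ) ^ m * ∑ a, X1 V a ≤ 2 ^ m * (2 ^ m * ((s : ℝ) / 4) ^ m) :=
            mul_le_mul_of_nonneg_left
              (a2.trans (mul_le_mul_of_nonneg_right a6 hs4p.le)) h2m.le
        _ = _ := by ring
  have b2 : ∀ D ∈ 𝒟, ((univ.filter fun σ : Fin (2 ^ m) → Fin m → Fin s =>
      ((2 ^ m : ℕ) : ℝ) / (2 * (N : ℝ) ^ 2) ≤ ∑ i, X2 D (σ i)).card : ℝ) ≤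
      (Fintype.card (Fin m → Fin s) : ℝ) ^ (2 ^ m) *
        Real.exp (2 * (2 ^ m / (8 * (N : ℝ) ^ 2)) - ((2 ^ m : ℕ) : ℝ) / (2 * (N : ℝ) ^ 2)) := by
    intro D hD
    have := h𝒟 D hD
    refine count_tail (2 ^ m) (X2 D) (fun a => ?_) (fun a => min_le_left _ _) _ _ ?_
    · exact le_min zero_le_one (mul_nonneg (by positivity) measureReal_nonneg)
    · have a1 : ∑ a : Fin m → Fin s,
          D.real (Near (nextWord s wd fun r => a r) (N * h') (h' / 4)) ≤
          s * (((N * h' : ℕ) : ℝ) + 1) ^ 2 * ((s : ℝ) / 4) ^ m := by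
        refine sum_real_le D _ _ fun W => ?_
        by_cases hW : W.length ≤ N * h'
        · have a2 := pool_bound H hc hd m W
          have a3 : (W.length : ℝ) ≤ (N * h' : ℕ) := by exact_mod_cast hW
          refine le_trans ?_ (a2.trans (by gcongr))
          refine Nat.cast_le.2 (card_le_card fun a ha => ?_)
          obtain ⟨_, V, hV, h5⟩ := (mem_filter.1 ha).2
          exact mem_filter.2 ⟨mem_univ _, V, hV, h5.trans_le (by nlinarith)⟩
        · rw [filter_false_of_mem fun a _ ha => hW ha.1]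
          simp only [card_empty, Nat.cast_zero]
          positivity
      have a2 : ∑ a, X2 D a ≤ ((2 ^ m : ℕ) : ℝ) / N *
          (s * (((N * h' : ℕ) : ℝ) + 1) ^ 2 * ((s : ℝ) / 4) ^ m) := by
        refine le_trans ?_ (mul_le_mul_of_nonneg_left a1 (by positivity))
        rw [mul_sum]
        exact sum_le_sum fun a _ => min_le_right _ _
      have a3 : s * (((N * h' : ℕ) : ℝ) + 1) ^ 2 ≤ 2 ^ m / (8 * N) := by
        rw [le_div_iff₀ (by positivity)]
        linarith
      rw [hcard, ← hs4]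
      calc ((2 ^ m : ℕ) : ℝ) * ∑ a, X2 D a ≤ ((2 ^ m : ℕ) : ℝ) * (((2 ^ m : ℕ) : ℝ) / N *
            (2 ^ m / (8 * N) * ((s : ℝ) / 4) ^ m)) := by
            refine mul_le_mul_of_nonneg_left (a2.trans ?_) (by positivity)
            gcongr
        _ = _ := by
            push_cast
            field_simp
  have hΩ : (Fintype.card (Fin (2 ^ m) → Fin m → Fin s) : ℝ) =
      (Fintype.card (Fin m → Fin s) : ℝ) ^ (2 ^ m) := by
    rw [Fintype.card_fun (α := Fin (2 ^ m)), Fintype.card_fin]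
    push_cast
    rfl
  have hΩ0 : (0 : ℝ) ≤ (Fintype.card (Fin m → Fin s) : ℝ) ^ (2 ^ m) := by positivity
  obtain ⟨σ, hσ1, hσ2⟩ := exists_avoid
    (S'.biUnion fun V => univ.filter fun σ : Fin (2 ^ m) → Fin m → Fin s =>
      (t' : ℝ) ≤ ∑ i, X1 V (σ i))
    (𝒟.biUnion fun D => univ.filter fun σ : Fin (2 ^ m) → Fin m → Fin s =>
      ((2 ^ m : ℕ) : ℝ) / (2 * (N : ℝ) ^ 2) ≤ ∑ i, X2 D (σ i))
    (by
      refine le_trans (Nat.cast_le.2 card_biUnion_le) ?_
      rw [Nat.cast_sum]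
      refine (sum_le_sum b1).trans ?_
      rw [sum_const, nsmul_eq_mul, hΩ, mul_left_comm]
      refine mul_le_mul_of_nonneg_left ?_ hΩ0
      have a1 : (S'.card : ℝ) ≤ Real.exp (2 * Fintype.card α * ((2 * h' : ℕ) : ℝ)) :=
        le_trans (Nat.cast_le.2 (card_filter_le _ _)) hS2
      refine (mul_le_mul_of_nonneg_right a1 (Real.exp_pos _).le).trans ?_
      rw [← Real.exp_add]
      refine Real.exp_le_exp.2 ?_
      simp only [t']
      push_cast
      nlinarith)
    (by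
      refine le_trans (Nat.cast_le.2 card_biUnion_le) ?_
      rw [Nat.cast_sum]
      refine (sum_le_sum b2).trans ?_
      rw [sum_const, nsmul_eq_mul, hΩ, mul_left_comm]
      refine mul_le_mul_of_nonneg_left ?_ hΩ0
      have a1 : (𝒟.card : ℝ) ≤ Real.exp (1 / (8 * (N : ℝ) ^ 2) * 2 ^ m) :=
        (Real.le_exp_log _).trans (Real.exp_le_exp.2 h4)
      refine (mul_le_mul_of_nonneg_right a1 (Real.exp_pos _).le).trans ?_
      rw [← Real.exp_add]
      refine Real.exp_le_exp.2 ?_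
      have a2 : (1 : ℝ) ≤ 2 ^ m / (8 * (N : ℝ) ^ 2) := by
        rw [le_div_iff₀ (by positivity)]
        refine le_trans ?_ h3
        have a3 : (N : ℝ) ≤ s * (((N * h' : ℕ) : ℝ) + 1) ^ 2 := by
          push_cast
          have a4 : (N : ℝ) ≤ N * h' := by nlinarith
          nlinarith
        nlinarith
      have a3 : 1 / (8 * (N : ℝ) ^ 2) * 2 ^ m + (2 * (2 ^ m / (8 * (N : ℝ) ^ 2)) -
          ((2 ^ m : ℕ) : ℝ) / (2 * (N : ℝ) ^ 2)) = -(2 ^ m / (8 * (N : ℝ) ^ 2)) := by
        push_cast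
        field_simp
        ring
      rw [a3]
      linarith)
  refine ⟨σ, fun V => ?_, fun D hD => ?_⟩
  · by_cases hV : V.length ≤ 2 * h'
    · have a1 : ¬ (t' : ℝ) ≤ ∑ i, X1 V (σ i) := fun h5 =>
        hσ1 (mem_biUnion.2 ⟨V, mem_filter.2 ⟨hS1 V hV, hV⟩, mem_filter.2 ⟨mem_univ _, h5⟩⟩)
      simp only [X1] at a1
      rw [sum_boole, not_le] at a1
      exact_mod_cast a1.le
    · rw [filter_false_of_mem]
      · simp
      · intro i _ h5
        have a1 := len_le_ed (nextWord s wd fun r => (σ i r : ℕ)) V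
        rw [length_nextWord H.2.2.1] at a1
        have a2 : (h' : ℝ) ≤ ed (nextWord s wd fun r => (σ i r : ℕ)) V := by
          have : h' ≤ ed (nextWord s wd fun r => (σ i r : ℕ)) V := by omega
          exact_mod_cast this
        have a3 : 0 ≤ 1 / (d : ℝ) := by positivity
        nlinarith
  · by_contra h5
    exact hσ2 (mem_biUnion.2 ⟨D, hD, mem_filter.2 ⟨mem_univ _, not_lt.1 h5⟩⟩)

end Pool.Agent.Lib.MP_1df8f0_an
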